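import Pool.Agent.Lib.MP_9fc97b_ut.Cho

/-!
# Recursion along ordinals of the model

`recur G x = G (mkF (recur G) x)` is defined outside the model (recursion on `∈`); if `G` is a
definable operation of the model, the restriction of `recur G` to an ordinal of the model is in
the model.
-/

set_option autoImplicit false
set_option linter.unusedVariables false

open Set

namespace Pool.UT

open Pool.MP_3ade05_lc Pool.PC

variable {E : Set ZFSet.{0}}

/-- Recursion on `∈`, in Lean. -/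
noncomputable def recur (G : ZFSet.{0} → ZFSet.{0}) : ZFSet.{0} → ZFSet.{0} :=
  ZFSet.mem_wf.fix (fun x F => G (ZFSet.range (fun y : {y : ZFSet.{0} // y ∈ x} =>
    ZFSet.pair y.1 (F y.1 y.2))))

theorem recur_eq (G : ZFSet.{0} → ZFSet.{0}) (x : ZFSet.{0}) :
    recur G x = G (mkF (recur G) x) := by
  unfold recur
  rw [WellFounded.fix_eq]
  rfl

/-- The restriction of the function `F` to `i`. -/
noncomputable def rs (F i : ZFSet.{0}) : ZFSet.{0} :=
  ZFSet.sep (fun z => ∃ x ∈ i, z = ZFSet.pair x (ap F x)) F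

instance DfT.instRs {n : ℕ} [hT : TZ E] {s t : (Fin n → ZFSet.{0}) → ZFSet.{0}} [hs : DfT E s]
    [ht : DfT E t] : DfT E (fun v => rs (s v) (t v)) := by
  have hs1 := hs.up
  have ht1 := ht.up
  have hs2 := hs1.up
  have h : DfT E (fun v => ZFSet.sep (fun z => ∃ x ∈ t v, z = ZFSet.pair x (ap (s v) x))
    (s v)) := inferInstance
  exact h

lemma rs_spec {F d i : ZFSet.{0}} (hF : FunOn F d) (hi : i ⊆ d) :
    FunOn (rs F i) i ∧ ∀ j ∈ i, ap (rs F i) j = ap F j := by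
  have hp : ∀ x y, ZFSet.pair x y ∈ rs F i ↔ x ∈ i ∧ y = ap F x := by
    intro x y
    unfold rs
    rw [ZFSet.mem_sep]
    constructor
    · rintro ⟨h1, x', hx', he⟩
      obtain ⟨rfl, rfl⟩ := ZFSet.pair_injective he
      exact ⟨hx', rfl⟩
    · rintro ⟨hx, rfl⟩
      exact ⟨FunOn.ap_mem hF (hi hx), x, hx, rfl⟩
  have hf : FunOn (rs F i) i := by
    refine ⟨fun z hz => ?_, fun x hx => ⟨ap F x, (hp x _).2 ⟨hx, rfl⟩, fun y hy =>
      ((hp x y).1 hy).2⟩⟩
    unfold rs at hz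
    rw [ZFSet.mem_sep] at hz
    obtain ⟨_, x, hx, rfl⟩ := hz
    exact ⟨x, hx, _, rfl⟩
  exact ⟨hf, fun j hj => (FunOn.ap_eq hf hj).1 ((hp j _).2 ⟨hj, rfl⟩)⟩

lemma rs_mkF {F : ZFSet.{0} → ZFSet.{0}} {d i : ZFSet.{0}} (hi : i ⊆ d) :
    rs (mkF F d) i = mkF F i := by
  obtain ⟨h1, h2⟩ := rs_spec (FunOn_mkF F d) hi
  refine FunOn.ext h1 (FunOn_mkF F i) fun x hx => ?_
  rw [h2 x hx, ap_mkF (hi hx), ap_mkF hx]

/-- Uniqueness of attempts. -/
lemma attempt_unique {G : ZFSet.{0} → ZFSet.{0}} {x k : ZFSet.{0}}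
    (hx : ∀ b ∈ x, b ⊆ x) (hk : FunOn k x) (h : ∀ b ∈ x, ap k b = G (rs k b)) :
    k = mkF (recur G) x := by
  refine FunOn.ext hk (FunOn_mkF _ x) fun b hb => ?_
  rw [ap_mkF hb]
  induction b using ZFSet.inductionOn with
  | h b ih =>
    rw [h b hb, recur_eq]
    congr 1
    obtain ⟨h1, h2⟩ := rs_spec hk (hx b hb)
    refine FunOn.ext h1 (FunOn_mkF _ b) fun c hc => ?_
    rw [h2 c hc, ap_mkF hc]
    exact ih c hc (hx b hb hc)

/-- Recursion along an ordinal of the model. -/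
theorem recur_mem [hT : TZ E] (G : ZFSet.{0} → ZFSet.{0})
    [hG : DfT E (fun v : Fin 1 → ZFSet.{0} => G (v 0))] {d : ZFSet.{0}} (hd : d ∈ E)
    (ho : d.IsOrdinal) : mkF (recur G) d ∈ E ∧ ∀ x ∈ d, recur G x ∈ E := by
  classical
  have hGE : ∀ k ∈ E, G k ∈ E := fun k hk => hG.mem (fun _ => k) (fun _ => hk)
  have hGdf : ∀ {m : ℕ} (i : Fin m), DfT E (fun v : Fin m → ZFSet.{0} => G (v i)) := by
    intro m i
    refine ⟨fun v hv => hGE _ (hv i), ?_⟩
    exact hG.graph.ren ![0, i.succ]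
  induction d using ZFSet.inductionOn with
  | h d ih =>
    have h1 : ∀ b ∈ d, mkF (recur G) b ∈ E := fun b hb =>
      (ih b hb (hT.trans d hd b hb) (ho.mem hb)).1
    have h2 : ∀ b ∈ d, recur G b ∈ E := fun b hb => by
      rw [recur_eq]
      exact hGE _ (h1 b hb)
    refine ⟨?_, h2⟩
    haveI : InE E d := ⟨hd⟩
    -- the definable function
    have h3 : Df E (fun v : Fin 2 → ZFSet.{0} => v 1 ∈ d ∧ ∃ k ∈ E, FunOn k (v 1) ∧
        (∀ b ∈ v 1, ap k b = G (rs k b)) ∧ v 0 = G k) := by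
      have g1 : ∀ {m : ℕ} (s : (Fin m → ZFSet.{0}) → ZFSet.{0}) [DfT E s],
          DfT E (fun v => G (s v)) := by
        intro m s hs
        exact DfT.mk1 (F := G) hGE (hG.graph.ren ![0, 1]) hs
      have g2 : DfT E (fun v : Fin 4 → ZFSet.{0} => G (rs (v 1) (v 0))) := g1 _
      have g3 : DfT E (fun v : Fin 3 → ZFSet.{0} => G (v 0)) := g1 _
      have g4 : Df E (fun v : Fin 3 → ZFSet.{0} => ∀ b ∈ v 2, ap (v 0) b = G (rs (v 0) b)) :=
        Df.instBall (t := fun v : Fin 3 → ZFSet.{0} => v 2)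
          (P := fun b v => ap (v 0) b = G (rs (v 0) b))
      have g5 : Df E (fun v : Fin 3 → ZFSet.{0} => FunOn (v 0) (v 2) ∧
        (∀ b ∈ v 2, ap (v 0) b = G (rs (v 0) b)) ∧ v 1 = G (v 0)) := inferInstance
      exact Df.instAnd (hP := inferInstance) (hQ := Df.instEx
        (P := fun k (v : Fin 2 → ZFSet.{0}) => FunOn k (v 1) ∧
        (∀ b ∈ v 1, ap k b = G (rs k b)) ∧ v 0 = G k) (hP := g5))
    have h4 : ∀ x ∈ d, ∀ y, (∃ k ∈ E, FunOn k x ∧ (∀ b ∈ x, ap k b = G (rs k b)) ∧ y = G k) ↔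
        y = recur G x := by
      intro x hx y
      have hox : ∀ b ∈ x, b ⊆ x := fun b hb => (ho.mem hx).subset_of_mem hb
      constructor
      · rintro ⟨k, _, hk1, hk2, rfl⟩
        rw [attempt_unique hox hk1 hk2, ← recur_eq G]
      · rintro rfl
        refine ⟨mkF (recur G) x, h1 x hx, FunOn_mkF _ _, fun b hb => ?_, recur_eq _ _⟩
        rw [ap_mkF hb, rs_mkF (hox b hb), ← recur_eq G]
    have h0 : (∅ : ZFSet.{0}) ∈ E := by
      have h3 := sep (E := E) (fun _ => False) hd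
      rwa [show ZFSet.sep (fun _ => False) d = ∅ by
        ext z; simp] at h3
    haveI : InE E (∅ : ZFSet.{0}) := ⟨h0⟩
    have h5 : Df E (fun v : Fin 2 → ZFSet.{0} => v 0 =
        (fun x => if x ∈ d then recur G x else ∅) (v 1)) := by
      have g1 : Df E (fun v : Fin 2 → ZFSet.{0} => v 1 ∉ d ∧ v 0 = ∅) := inferInstance
      refine (Df.instOr (hP := h3) (hQ := g1)).congr fun v _ => ?_
      by_cases h : v 1 ∈ d
      · simp only [h, true_and, not_true, false_and, or_false, if_true]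
        exact h4 _ h _
      · simp [h]
    have h6 := mkF_mem (E := E) (fun x => if x ∈ d then recur G x else ∅) hd (fun x hx => by
      rw [if_pos hx]
      exact h2 x hx)
    have h7 : mkF (recur G) d = mkF (fun x => if x ∈ d then recur G x else ∅) d := by
      refine FunOn.ext (FunOn_mkF _ _) (FunOn_mkF _ _) fun x hx => ?_
      rw [ap_mkF hx, ap_mkF hx, if_pos hx]
    rw [h7]
    exact h6

/-- Recursion along an ordinal `nu` of the model. -/
theorem recB [hT : TZ E] (G : ZFSet.{0} → ZFSet.{0})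
    [hG : DfT E (fun v : Fin 1 → ZFSet.{0} => G (v 0))] {nu b : ZFSet.{0}} (hnu : nu ∈ E)
    (ho : nu.IsOrdinal) (hb : b ∈ E) (hGb : ∀ f ∈ E, G f ∈ b) :
    ∃ F ∈ E, FunOn F nu ∧ ∀ i ∈ nu, ap F i ∈ b ∧ rs F i ∈ E ∧ FunOn (rs F i) i ∧
      (∀ j ∈ i, ap (rs F i) j = ap F j) ∧ ap F i = G (rs F i) := by
  obtain ⟨h1, h2⟩ := recur_mem (E := E) G hnu ho
  refine ⟨mkF (recur G) nu, h1, FunOn_mkF _ _, fun i hi => ?_⟩
  have hsub : i ⊆ nu := ho.subset_of_mem hi
  obtain ⟨h3, h4⟩ := rs_spec (FunOn_mkF (recur G) nu) hsub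
  have h5 : rs (mkF (recur G) nu) i ∈ E := by
    rw [rs_mkF hsub]
    exact (recur_mem (E := E) G (hT.trans nu hnu i hi) (ho.mem hi)).1
  have h6 : ap (mkF (recur G) nu) i = G (rs (mkF (recur G) nu) i) := by
    rw [ap_mkF hi, rs_mkF hsub, ← recur_eq G]
  refine ⟨?_, h5, h3, h4, h6⟩
  rw [h6]
  exact hGb _ h5

end Pool.UT
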