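import Pool.Agent.Lib.MP_9fc97b_ut.TA0

/-!
# UL, theorem T, row TB1: the calculus of `Cov`
-/

set_option autoImplicit false
set_option linter.unusedVariables false

open Set

namespace Pool.UT

open Pool.MP_3ade05_lc Pool.PC Pool.UL

variable {E : Set ZFSet.{0}} [hT : TC E]

omit hT in
/-- Row TB1. -/
lemma _root_.Pool.UL.Cov.mono {a C C' : ZFSet.{0}} (h : Cov E a C) (hC : C' ⊆ C) : Cov E a C' := by
  obtain ⟨f, hf, h1, h2⟩ := h
  exact ⟨f, hf, h1, fun y hy => h2 y (hC hy)⟩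

/-- Row TB1: the identity. -/
lemma _root_.Pool.UL.Cov.of_sub {a C : ZFSet.{0}} (ha : a ∈ E) (hC : C ⊆ a) : Cov E a C :=
  cov_id ha hC

/-- Row TB1: enlarge the domain. -/
lemma _root_.Pool.UL.Cov.enl {a b C : ZFSet.{0}} (ha : a ∈ E) (hb : b ∈ E) (hab : a ⊆ b) (h : Cov E a C) :
    Cov E b C := cov_mono hb hab h

/-- Row TB1: composition. -/
lemma _root_.Pool.UL.Cov.comp {a b C : ZFSet.{0}} (ha : a ∈ E) (hb : b ∈ E) (h : Cov E a b) (h' : Cov E b C) :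
    Cov E a C := cov_trans ha h' h

/-- Row TB1: images. -/
lemma _root_.Pool.UL.Cov.im {a b f c : ZFSet.{0}} (ha : a ∈ E) (hf : f ∈ E) (hfc : FunOn f c) (hb : b ⊆ c)
    (hbE : b ∈ E) (h : Cov E a b) : Cov E a (im f b) := by
  refine cov_trans ha ?_ h
  haveI : InE E b := ⟨hbE⟩
  haveI : InE E f := ⟨hf⟩
  refine ⟨mkF (fun x => ap f x) b, mem_of (E := E) (mkF (fun x => ap f x) b), FunOn_mkF _ _,
    fun y hy => ?_⟩
  obtain ⟨x, hx, hxy⟩ := mem_im.1 hy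
  refine ⟨x, hx, pair_mem_mkF.2 ⟨hx, ?_⟩⟩
  rw [(FunOn.ap_eq hfc (hb hx)).1 hxy]

end Pool.UT
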