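import Pool.Agent.Lib.MP_9fc97b_ut.TF3

/-!
# Theorem T
-/

set_option autoImplicit false

open Set

namespace Pool.UL

open Pool.MP_3ade05_lc Pool.PC

/-- THEOREM T. -/
theorem Setting.main {V : Set ZFSet.{0}} {lam th : ZFSet.{0}} {t : ℕ → ZFSet.{0}}
    {tF X e : ZFSet.{0}} (h : Setting V lam th t tF X e) :
    StrongLimit V lam ∧ Singular V lam ∧ UNumIs V lam th ∧ PowIs V lam th :=
  Pool.UT.T_main h

end Pool.UL
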