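import Pool.Agent.Lib.MP_9fc97b_ut.Pat

/-!
# The setting of theorem T

Everything is about a transitive model `V` of `ZFC`.
-/

set_option autoImplicit false

open Set

namespace Pool.UL

open Pool.MP_3ade05_lc Pool.PC

/-! ### The setting of theorem T -/

/-- In `V` there is a function with domain `a` whose range contains `C`. -/
def Cov (V : Set ZFSet.{0}) (a C : ZFSet.{0}) : Prop :=
  ∃ f ∈ V, FunOn f a ∧ ∀ y ∈ C, ∃ x ∈ a, ZFSet.pair x y ∈ f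

/-- In `V` there is a function with domain `a` whose range contains `a × a`. -/
def Sq (V : Set ZFSet.{0}) (a : ZFSet.{0}) : Prop :=
  ∃ f ∈ V, FunOn f a ∧ ∀ y ∈ a, ∀ z ∈ a, ∃ x ∈ a, ZFSet.pair x (ZFSet.pair y z) ∈ f

/-- The setting of theorem T: `t n` is the `n`-th point, `tF` the sequence of the points as an
element of `V`, `X` the set of the triples `(n, xi, a)` with `X^n(xi, a) = 1`, and `e` the set of
the `((eta, n), xi)` with `e_eta(n) = xi`. -/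
structure Setting (V : Set ZFSet.{0}) (lam th : ZFSet.{0}) (t : ℕ → ZFSet.{0})
    (tF X e : ZFSet.{0}) : Prop where
  trans : ∀ x ∈ V, ∀ y ∈ x, y ∈ V
  zfc : ZFCModel V
  lam_card : InfCard V lam
  th_card : InfCard V th
  lam_mem : lam ∈ th
  t_mem : ∀ n, t n ∈ t (n + 1)
  t_lam : ∀ n, t n ∈ lam
  t_inf : ZFSet.omega ∈ t 0
  t_union : ∀ x ∈ lam, ∃ n, x ∈ t n
  tF_mem : tF ∈ V
  tF_fun : FunOn tF ZFSet.omega
  tF_eq : ∀ n, ZFSet.pair (num n) (t n) ∈ tF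
  X_mem : X ∈ V
  e_mem : e ∈ V
  e_fun : ∀ η ∈ th, ∀ n, ∃! ξ, ZFSet.pair (ZFSet.pair η (num n)) ξ ∈ e
  e_lt : ∀ η ∈ th, ∀ n ξ, ZFSet.pair (ZFSet.pair η (num n)) ξ ∈ e → ξ ∈ t (n + 1)
  SL : ∀ n, ∃ k, PowLe V (t n) (t k)
  PA : ∀ n, Sq V (t n)
  PK : PowLe V lam th
  CA : ∀ r ∈ th, ∃ r₀ r₁, r ⊆ r₀ ∧ lam ⊆ r₀ ∧ r₀ ∈ r₁ ∧ r₁ ∈ th ∧ InfCard V r₁ ∧ Sq V r₀ ∧ Sq V r₁
  LC : ∀ A ∈ V, FunOn A ZFSet.omega → ∃ g ∈ V, FunOn g lam ∧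
    ∀ η ∈ th, (∀ x ∈ lam, ZFSet.pair x η ∉ g) → ∃ k, ∀ n ≥ k, ∀ C,
      ZFSet.pair (num n) C ∈ A → C ⊆ t (n + 1) → ¬ Cov V (t n) C →
      ∀ ξ, ZFSet.pair (ZFSet.pair η (num n)) ξ ∈ e →
        (∃ a ∈ C, ZFSet.pair (num n) (ZFSet.pair ξ a) ∈ X) ∧
        (∃ a ∈ C, ZFSet.pair (num n) (ZFSet.pair ξ a) ∉ X)

end Pool.UL
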