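import Pool.Agent.Lib.MP_9fc97b_ut.Fun

/-!
# Images, products, power sets, choice functions
-/

set_option autoImplicit false
set_option linter.unusedVariables false

open Set

namespace Pool.UT

open Pool.MP_3ade05_lc Pool.PC

variable {E : Set ZFSet.{0}} {n : ℕ}

/-- The image of the set `a` under the Lean function `F`. -/
noncomputable def img (F : ZFSet.{0} → ZFSet.{0}) (a : ZFSet.{0}) : ZFSet.{0} := im (mkF F a) a

lemma mem_img {F : ZFSet.{0} → ZFSet.{0}} {a y : ZFSet.{0}} : y ∈ img F a ↔ ∃ x ∈ a, y = F x := by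
  unfold img
  rw [mem_im]
  constructor
  · rintro ⟨x, hx, h⟩
    exact ⟨x, hx, (pair_mem_mkF.1 h).2⟩
  · rintro ⟨x, hx, rfl⟩
    exact ⟨x, hx, pair_mem_mkF.2 ⟨hx, rfl⟩⟩

instance DfT.instImg [hT : TZ E] {F : ZFSet.{0} → (Fin n → ZFSet.{0}) → ZFSet.{0}}
    {t : (Fin n → ZFSet.{0}) → ZFSet.{0}}
    [hF : DfT E (fun v : Fin (n + 1) → ZFSet.{0} => F (v 0) (fun i => v i.succ))]
    [ht : DfT E t] : DfT E (fun v => img (fun x => F x v) (t v)) := by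
  have h : DfT E (fun v => im (mkF (fun x => F x v) (t v)) (t v)) := inferInstance
  exact h

/-- The product. -/
noncomputable def prd (a b : ZFSet.{0}) : ZFSet.{0} :=
  ZFSet.sUnion (img (fun x => img (fun y => ZFSet.pair x y) b) a)

lemma mem_prd {a b z : ZFSet.{0}} : z ∈ prd a b ↔ ∃ x ∈ a, ∃ y ∈ b, z = ZFSet.pair x y := by
  unfold prd
  rw [ZFSet.mem_sUnion]
  constructor
  · rintro ⟨w, hw, hz⟩
    obtain ⟨x, hx, rfl⟩ := mem_img.1 hw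
    obtain ⟨y, hy, rfl⟩ := mem_img.1 hz
    exact ⟨x, hx, y, hy, rfl⟩
  · rintro ⟨x, hx, y, hy, rfl⟩
    exact ⟨_, mem_img.2 ⟨x, hx, rfl⟩, mem_img.2 ⟨y, hy, rfl⟩⟩

lemma pair_mem_prd {a b x y : ZFSet.{0}} : ZFSet.pair x y ∈ prd a b ↔ x ∈ a ∧ y ∈ b := by
  rw [mem_prd]
  constructor
  · rintro ⟨x', hx', y', hy', he⟩
    obtain ⟨rfl, rfl⟩ := ZFSet.pair_injective he
    exact ⟨hx', hy'⟩
  · rintro ⟨hx, hy⟩
    exact ⟨x, hx, y, hy, rfl⟩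

instance DfT.instPrd [hT : TZ E] {s t : (Fin n → ZFSet.{0}) → ZFSet.{0}} [hs : DfT E s]
    [ht : DfT E t] : DfT E (fun v => prd (s v) (t v)) := by
  have hs1 := hs.up
  have ht1 := ht.up
  have hs2 := hs1.up
  have ht2 := ht1.up
  have h : DfT E (fun v => ZFSet.sUnion (img (fun x => img (fun y => ZFSet.pair x y) (t v))
    (s v))) := inferInstance
  exact h

/-- The power set of the model. -/
noncomputable def pw (E : Set ZFSet.{0}) (a : ZFSet.{0}) : ZFSet.{0} :=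
  ZFSet.sep (fun x => x ∈ E) (ZFSet.powerset a)

lemma mem_pw {a x : ZFSet.{0}} : x ∈ pw E a ↔ x ∈ E ∧ x ⊆ a := by
  unfold pw
  rw [ZFSet.mem_sep, ZFSet.mem_powerset]
  exact and_comm

lemma pw_mem [hT : TZ E] {a : ZFSet.{0}} (ha : a ∈ E) : pw E a ∈ E := by
  obtain ⟨p, hp, h⟩ := hT.zf.power a ha
  have h1 : pw E a = p := by
    ext x
    rw [mem_pw]
    constructor
    · rintro ⟨hx, hxa⟩
      exact (h x hx).2 fun w _ hw => hxa hw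
    · intro hx
      have hxE := hT.trans p hp x hx
      exact ⟨hxE, fun w hw => (h x hxE).1 hx w (hT.trans x hxE w hw) hw⟩
  rw [h1]
  exact hp

instance DfT.instPw [hT : TZ E] {s : (Fin n → ZFSet.{0}) → ZFSet.{0}} [hs : DfT E s] :
    DfT E (fun v => pw E (s v)) := by
  refine DfT.mk1 (F := fun x => pw E x) (fun x hx => pw_mem hx) ?_ hs
  have h : Df E (fun v : Fin 2 → ZFSet.{0} => ∀ z ∈ E, (z ∈ v 0 ↔ z ⊆ v 1)) := inferInstance
  refine h.congr fun v hv => ?_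
  constructor
  · intro h1
    ext z
    rw [mem_pw]
    constructor
    · intro hz
      have hzE := hT.trans _ (hv 0) z hz
      exact ⟨hzE, (h1 z hzE).1 hz⟩
    · rintro ⟨hz, hz'⟩
      exact (h1 z hz).2 hz'
  · intro h1 z hz
    rw [h1, mem_pw]
    exact ⟨fun h => h.2, fun h => ⟨hz, h⟩⟩

/-- The model with choice. -/
class TC (E : Set ZFSet.{0}) : Prop extends TZ E where
  choice : ∀ x ∈ E, (∀ y ∈ E, y ∈ x → ∃ z ∈ E, z ∈ y) →
    (∀ y ∈ E, ∀ y' ∈ E, y ∈ x → y' ∈ x → y ≠ y' → ∀ z ∈ E, ¬ (z ∈ y ∧ z ∈ y')) →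
    ∃ c ∈ E, ∀ y ∈ E, y ∈ x → ∃! z, z ∈ E ∧ z ∈ y ∧ z ∈ c

/-- CHOICE: a definable relation with values in a set has a choice function in `E`. -/
theorem choose_fun [hT : TC E] (R : ZFSet.{0} → ZFSet.{0} → Prop)
    [hR : Df E (fun v : Fin 2 → ZFSet.{0} => R (v 0) (v 1))] {a b : ZFSet.{0}} (ha : a ∈ E)
    (hb : b ∈ E) (h : ∀ x ∈ a, ∃ y ∈ b, R x y) :
    ∃ f ∈ E, FunOn f a ∧ ∀ x ∈ a, ap f x ∈ b ∧ R x (ap f x) := by
  haveI : InE E a := ⟨ha⟩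
  haveI : InE E b := ⟨hb⟩
  have hR' : ∀ {m : ℕ} (i j : Fin m), Df E (fun v : Fin m → ZFSet.{0} => R (v i) (v j)) :=
    fun i j => hR.ren ![i, j]
  set S : ZFSet.{0} → ZFSet.{0} := fun x => ZFSet.sep (fun z => ∃ y ∈ b, z = ZFSet.pair x y ∧
    R x y) (prd a b) with hS
  have hSdf : DfT E (fun v : Fin 1 → ZFSet.{0} => S (v 0)) := by
    have h1 : Df E (fun v : Fin 2 → ZFSet.{0} => ∃ y ∈ b, v 0 = ZFSet.pair (v 1) y ∧ R (v 1) y) := by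
      haveI := hR' (m := 3) 2 0
      exact Df.instBex (t := fun _ : Fin 2 → ZFSet.{0} => b)
        (P := fun y v => v 0 = ZFSet.pair (v 1) y ∧ R (v 1) y)
    exact DfT.instSep (P := fun z (v : Fin 1 → ZFSet.{0}) => ∃ y ∈ b, z = ZFSet.pair (v 0) y ∧
      R (v 0) y) (t := fun _ => prd a b)
  have hmS : ∀ x ∈ a, ∀ z, z ∈ S x ↔ ∃ y ∈ b, z = ZFSet.pair x y ∧ R x y := by
    intro x hx z
    rw [hS]
    show z ∈ ZFSet.sep _ _ ↔ _
    rw [ZFSet.mem_sep]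
    constructor
    · exact fun h => h.2
    · rintro ⟨y, hy, rfl, hxy⟩
      exact ⟨pair_mem_prd.2 ⟨hx, hy⟩, y, hy, rfl, hxy⟩
  have hfam : img S a ∈ E := by
    haveI := hSdf
    exact mem_of (E := E) (img S a) (h := DfT.instImg (F := fun x (_ : Fin 0 → ZFSet.{0}) => S x)
      (t := fun _ => a) (hF := hSdf))
  obtain ⟨c, hc, hc'⟩ := hT.choice (img S a) hfam (by
    intro y hy hyS
    obtain ⟨x, hx, rfl⟩ := mem_img.1 hyS
    obtain ⟨y, hyb, hxy⟩ := h x hx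
    exact ⟨ZFSet.pair x y, pair_mem (hT.trans a ha x hx) (hT.trans b hb y hyb),
      (hmS x hx _).2 ⟨y, hyb, rfl, hxy⟩⟩) (by
    intro y _ y' _ hy hy' hne z _ hz
    obtain ⟨x, hx, rfl⟩ := mem_img.1 hy
    obtain ⟨x', hx', rfl⟩ := mem_img.1 hy'
    obtain ⟨u, _, rfl, _⟩ := (hmS x hx z).1 hz.1
    obtain ⟨u', _, he, _⟩ := (hmS x' hx' _).1 hz.2
    exact hne (by rw [(ZFSet.pair_injective he).1]))
  haveI : InE E c := ⟨hc⟩
  have key : ∀ x ∈ a, ∃ y ∈ b, R x y ∧ ZFSet.pair x y ∈ c ∧ ∀ y' ∈ b, R x y' →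
      ZFSet.pair x y' ∈ c → y' = y := by
    intro x hx
    have hxS : S x ∈ img S a := mem_img.2 ⟨x, hx, rfl⟩
    obtain ⟨z, ⟨hz1, hz2, hz3⟩, hz4⟩ := hc' (S x) (hT.trans _ hfam _ hxS) hxS
    obtain ⟨y, hy, rfl, hxy⟩ := (hmS x hx z).1 hz2
    refine ⟨y, hy, hxy, hz3, fun y' hy' hxy' hc'' => ?_⟩
    have h1 := hz4 (ZFSet.pair x y') ⟨pair_mem (hT.trans a ha x hx) (hT.trans b hb y' hy'),
      (hmS x hx _).2 ⟨y', hy', rfl, hxy'⟩, hc''⟩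
    exact (ZFSet.pair_injective h1).2
  set f : ZFSet.{0} := ZFSet.sep (fun z => ∃ x ∈ a, ∃ y ∈ b, z = ZFSet.pair x y ∧ R x y)
    (c ∩ prd a b) with hf
  have hfE : f ∈ E := by
    have h1 : Df E (fun v : Fin 1 → ZFSet.{0} => ∃ x ∈ a, ∃ y ∈ b, v 0 = ZFSet.pair x y ∧ R x y) := by
      haveI := hR' (m := 3) 1 0
      exact Df.instBex (t := fun _ : Fin 1 → ZFSet.{0} => a)
        (P := fun x v => ∃ y ∈ b, v 0 = ZFSet.pair x y ∧ R x y)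
        (hP := Df.instBex (t := fun _ : Fin 2 → ZFSet.{0} => b)
          (P := fun y v => v 1 = ZFSet.pair (v 0) y ∧ R (v 0) y))
    exact sep (E := E) (fun z => ∃ x ∈ a, ∃ y ∈ b, z = ZFSet.pair x y ∧ R x y)
      (mem_of (E := E) (c ∩ prd a b))
  have hpf : ∀ x y, ZFSet.pair x y ∈ f ↔ x ∈ a ∧ y ∈ b ∧ R x y ∧ ZFSet.pair x y ∈ c := by
    intro x y
    rw [hf, ZFSet.mem_sep, ZFSet.mem_inter, pair_mem_prd]
    constructor
    · rintro ⟨⟨h1, h2, h3⟩, x', _, y', _, he, hR'⟩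
      obtain ⟨rfl, rfl⟩ := ZFSet.pair_injective he
      exact ⟨h2, h3, hR', h1⟩
    · rintro ⟨h1, h2, h3, h4⟩
      exact ⟨⟨h4, h1, h2⟩, x, h1, y, h2, rfl, h3⟩
  have hfun : FunOn f a := by
    refine ⟨fun z hz => ?_, fun x hx => ?_⟩
    · rw [hf, ZFSet.mem_sep] at hz
      obtain ⟨_, x, hx, y, _, rfl, _⟩ := hz
      exact ⟨x, hx, y, rfl⟩
    · obtain ⟨y, hy, hxy, hc1, hu⟩ := key x hx
      refine ⟨y, (hpf x y).2 ⟨hx, hy, hxy, hc1⟩, fun y' hy' => ?_⟩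
      obtain ⟨_, h2, h3, h4⟩ := (hpf x y').1 hy'
      exact hu y' h2 h3 h4
  refine ⟨f, hfE, hfun, fun x hx => ?_⟩
  obtain ⟨_, h2, h3, _⟩ := (hpf x _).1 (FunOn.ap_mem hfun hx)
  exact ⟨h2, h3⟩

end Pool.UT
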