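import Pool.Agent.Lib.MP_3ade05_lc.Model
import Pool.Agent.Lib.MP_ad72f3_pc.Pat

/-!
# Definable relations of a transitive model, by type class inference

`Df E P`: the relation `P` of `n` variables is definable with parameters over `E`.
`DfT E t`: the term `t` is definable, with values in `E`.
Everything is found by `inferInstance`; a parameter `c` needs a local instance `InE E c`.
-/

set_option autoImplicit false
set_option linter.unusedVariables false

open Set

namespace Pool.UT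

open Pool.MP_3ade05_lc Pool.PC

/-- `c` is an element of `E`. -/
class InE (E : Set ZFSet.{0}) (c : ZFSet.{0}) : Prop where
  mem : c ∈ E

/-- Definable relations. -/
class Df (E : Set ZFSet.{0}) {n : ℕ} (P : (Fin n → ZFSet.{0}) → Prop) : Prop where
  out : ∃ (m : ℕ) (φ : Fml (n + m)) (w : Fin m → ZFSet.{0}), (∀ i, w i ∈ E) ∧
    ∀ v, (∀ i, v i ∈ E) → (Sat E φ (Fin.append v w) ↔ P v)

/-- A transitive class with the pairing and union properties etc. is assumed via `TZ`. -/
class TZ (E : Set ZFSet.{0}) : Prop where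
  trans : ∀ x ∈ E, ∀ y ∈ x, y ∈ E
  zf : ZFModel E

/-- Definable terms. -/
class DfT (E : Set ZFSet.{0}) {n : ℕ} (t : (Fin n → ZFSet.{0}) → ZFSet.{0}) : Prop where
  mem : ∀ v, (∀ i, v i ∈ E) → t v ∈ E
  graph : Df E (fun v : Fin (n + 1) → ZFSet.{0} => v 0 = t (fun i => v i.succ))

variable {E : Set ZFSet.{0}} {n : ℕ}

namespace Df

lemma congr {P Q : (Fin n → ZFSet.{0}) → Prop} (hP : Df E P)
    (h : ∀ v, (∀ i, v i ∈ E) → (P v ↔ Q v)) : Df E Q := by
  obtain ⟨m, φ, w, hw, hφ⟩ := hP.out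
  exact ⟨m, φ, w, hw, fun v hv => (hφ v hv).trans (h v hv)⟩

lemma imp {P Q : (Fin n → ZFSet.{0}) → Prop} (hP : Df E P) (hQ : Df E Q) :
    Df E (fun v => P v → Q v) := by
  obtain ⟨m₁, φ, w₁, hw₁, hφ⟩ := hP.out
  obtain ⟨m₂, ψ, w₂, hw₂, hψ⟩ := hQ.out
  refine ⟨m₁ + m₂, .imp (φ.rename (Fin.addCases (Fin.castAdd (m₁ + m₂))
      (fun i => Fin.natAdd n (Fin.castAdd m₂ i))))
    (ψ.rename (Fin.addCases (Fin.castAdd (m₁ + m₂)) (fun i => Fin.natAdd n (Fin.natAdd m₁ i)))),
    Fin.append w₁ w₂, ?_, fun v hv => ?_⟩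
  · intro i
    refine Fin.addCases (fun i => ?_) (fun i => ?_) i
    · rw [Fin.append_left]; exact hw₁ i
    · rw [Fin.append_right]; exact hw₂ i
  · show (Sat E _ _ → Sat E _ _) ↔ _
    rw [Sat_rename, Sat_rename, ← hφ v hv, ← hψ v hv]
    have h1 : (fun j => Fin.append v (Fin.append w₁ w₂) (Fin.addCases (Fin.castAdd (m₁ + m₂))
        (fun i => Fin.natAdd n (Fin.castAdd m₂ i)) j)) = Fin.append v w₁ := by
      funext j
      refine Fin.addCases (fun i => ?_) (fun i => ?_) j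
      · simp only [Fin.addCases_left, Fin.append_left]
      · simp only [Fin.addCases_right, Fin.append_right, Fin.append_left]
    have h2 : (fun j => Fin.append v (Fin.append w₁ w₂) (Fin.addCases (Fin.castAdd (m₁ + m₂))
        (fun i => Fin.natAdd n (Fin.natAdd m₁ i)) j)) = Fin.append v w₂ := by
      funext j
      refine Fin.addCases (fun i => ?_) (fun i => ?_) j
      · simp only [Fin.addCases_left, Fin.append_left]
      · simp only [Fin.addCases_right, Fin.append_right]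
    rw [h1, h2]

lemma bot : Df E (fun _ : Fin n → ZFSet.{0} => False) :=
  ⟨0, .bot, Fin.elim0, fun i => i.elim0, fun _ _ => Iff.rfl⟩

lemma all {P : ZFSet.{0} → (Fin n → ZFSet.{0}) → Prop}
    (hP : Df E (fun v : Fin (n + 1) → ZFSet.{0} => P (v 0) (fun i => v i.succ))) :
    Df E (fun v => ∀ x ∈ E, P x v) := by
  obtain ⟨m, φ, w, hw, hφ⟩ := hP.out
  refine ⟨m, .all (φ.rename (Fin.addCases (Fin.cases 0 (fun j => (Fin.castAdd m j).succ))
    (fun k => (Fin.natAdd n k).succ))), w, hw, fun v hv => ?_⟩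
  show (∀ x ∈ E, Sat E _ _) ↔ _
  refine forall₂_congr fun x hx => ?_
  rw [Sat_rename]
  have h1 : (fun j => (Fin.cons x (Fin.append v w) : Fin (n + m + 1) → ZFSet.{0})
      (Fin.addCases (Fin.cases 0 (fun j => (Fin.castAdd m j).succ))
      (fun k => (Fin.natAdd n k).succ) j)) = Fin.append (Fin.cons x v : Fin (n + 1) → ZFSet.{0}) w := by
    funext j
    refine Fin.addCases (fun i => ?_) (fun i => ?_) j
    · rw [Fin.addCases_left, Fin.append_left]
      refine Fin.cases ?_ (fun k => ?_) i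
      · rfl
      · simp only [Fin.cases_succ, Fin.cons_succ, Fin.append_left]
    · rw [Fin.addCases_right, Fin.append_right, Fin.cons_succ, Fin.append_right]
  rw [h1]
  have h2 := hφ (Fin.cons x v) (by
    intro i
    refine Fin.cases ?_ (fun k => ?_) i
    · exact hx
    · exact hv k)
  exact h2

lemma eqv (i j : Fin n) : Df E (fun v => v i = v j) :=
  ⟨0, .eq i j, Fin.elim0, fun i => i.elim0, fun v _ => by
    show Fin.append v _ (Fin.castAdd 0 i) = Fin.append v _ (Fin.castAdd 0 j) ↔ _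
    rw [Fin.append_left, Fin.append_left]⟩

lemma memv (i j : Fin n) : Df E (fun v => v i ∈ v j) :=
  ⟨0, .mem i j, Fin.elim0, fun i => i.elim0, fun v _ => by
    show Fin.append v _ (Fin.castAdd 0 i) ∈ Fin.append v _ (Fin.castAdd 0 j) ↔ _
    rw [Fin.append_left, Fin.append_left]⟩

lemma eqc (i : Fin n) {c : ZFSet.{0}} (hc : c ∈ E) : Df E (fun v => v i = c) :=
  ⟨1, .eq (Fin.castAdd 1 i) (Fin.natAdd n 0), fun _ => c, fun _ => hc, fun v _ => by
    show Fin.append v _ (Fin.castAdd 1 i) = Fin.append v _ (Fin.natAdd n 0) ↔ _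
    rw [Fin.append_left, Fin.append_right]⟩

/-- Renaming of variables. -/
lemma ren {m : ℕ} {P : (Fin n → ZFSet.{0}) → Prop} (hP : Df E P) (f : Fin n → Fin m) :
    Df E (fun v => P (fun i => v (f i))) := by
  obtain ⟨k, φ, w, hw, hφ⟩ := hP.out
  refine ⟨k, φ.rename (Fin.addCases (fun i => Fin.castAdd k (f i)) (Fin.natAdd m)), w, hw,
    fun v hv => ?_⟩
  rw [Sat_rename, ← hφ _ (fun i => hv (f i))]
  have h1 : (fun j => Fin.append v w (Fin.addCases (fun i => Fin.castAdd k (f i))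
      (Fin.natAdd m) j)) = Fin.append (fun i => v (f i)) w := by
    funext j
    refine Fin.addCases (fun i => ?_) (fun i => ?_) j
    · rw [Fin.addCases_left, Fin.append_left, Fin.append_left]
    · rw [Fin.addCases_right, Fin.append_right, Fin.append_right]
  rw [h1]

end Df

/-! ### Connectives -/

instance Df.instFalse : Df E (fun _ : Fin n → ZFSet.{0} => False) := Df.bot

instance Df.instImp {P Q : (Fin n → ZFSet.{0}) → Prop} [hP : Df E P] [hQ : Df E Q] :
    Df E (fun v => P v → Q v) := Df.imp hP hQ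

instance Df.instNot {P : (Fin n → ZFSet.{0}) → Prop} [hP : Df E P] : Df E (fun v => ¬ P v) :=
  Df.imp hP Df.bot

instance Df.instTrue : Df E (fun _ : Fin n → ZFSet.{0} => True) :=
  (Df.imp Df.bot Df.bot).congr fun _ _ => by simp

instance Df.instAnd {P Q : (Fin n → ZFSet.{0}) → Prop} [hP : Df E P] [hQ : Df E Q] :
    Df E (fun v => P v ∧ Q v) :=
  (Df.imp (Df.imp hP (Df.imp hQ Df.bot)) Df.bot).congr fun v _ => by
    constructor
    · intro h
      by_contra h1
      exact h fun hp hq => h1 ⟨hp, hq⟩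
    · rintro ⟨hp, hq⟩ h
      exact h hp hq

instance Df.instOr {P Q : (Fin n → ZFSet.{0}) → Prop} [hP : Df E P] [hQ : Df E Q] :
    Df E (fun v => P v ∨ Q v) :=
  (Df.imp (Df.imp hP Df.bot) hQ).congr fun v _ => by
    constructor
    · intro h
      by_cases hp : P v
      · exact Or.inl hp
      · exact Or.inr (h hp)
    · rintro (hp | hq) h
      · exact absurd hp h
      · exact hq

instance Df.instIff {P Q : (Fin n → ZFSet.{0}) → Prop} [hP : Df E P] [hQ : Df E Q] :
    Df E (fun v => (P v ↔ Q v)) :=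
  (Df.instAnd (hP := Df.imp hP hQ) (hQ := Df.imp hQ hP)).congr fun v _ => iff_iff_implies_and_implies.symm

instance Df.instAll {P : ZFSet.{0} → (Fin n → ZFSet.{0}) → Prop}
    [hP : Df E (fun v : Fin (n + 1) → ZFSet.{0} => P (v 0) (fun i => v i.succ))] :
    Df E (fun v => ∀ x ∈ E, P x v) := Df.all hP

lemma Df.ex {P : ZFSet.{0} → (Fin n → ZFSet.{0}) → Prop}
    (hP : Df E (fun v : Fin (n + 1) → ZFSet.{0} => P (v 0) (fun i => v i.succ))) :
    Df E (fun v => ∃ x ∈ E, P x v) :=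
  (Df.imp (Df.all (P := fun x v => P x v → False) (Df.imp hP Df.bot)) Df.bot).congr fun v _ => by
    constructor
    · intro h
      by_contra h1
      push Not at h1
      exact h fun x hx hp => h1 x hx hp
    · rintro ⟨x, hx, hp⟩ h
      exact h x hx hp

instance Df.instEx {P : ZFSet.{0} → (Fin n → ZFSet.{0}) → Prop}
    [hP : Df E (fun v : Fin (n + 1) → ZFSet.{0} => P (v 0) (fun i => v i.succ))] :
    Df E (fun v => ∃ x ∈ E, P x v) := Df.ex hP

/-! ### Terms -/

instance DfT.var (i : Fin n) : DfT E (fun v : Fin n → ZFSet.{0} => v i) where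
  mem := fun v hv => hv i
  graph := Df.eqv 0 i.succ

instance DfT.par {c : ZFSet.{0}} [hc : InE E c] : DfT E (fun _ : Fin n → ZFSet.{0} => c) where
  mem := fun _ _ => hc.mem
  graph := Df.eqc 0 hc.mem

lemma DfT.gr {t : (Fin n → ZFSet.{0}) → ZFSet.{0}} (ht : DfT E t) :
    Df E (fun v : Fin (n + 1) → ZFSet.{0} => v 0 = t (fun i => v i.succ)) := ht.graph

/-- Substitution of a term in a relation. -/
lemma Df.subst {P : ZFSet.{0} → (Fin n → ZFSet.{0}) → Prop}
    (hP : Df E (fun v : Fin (n + 1) → ZFSet.{0} => P (v 0) (fun i => v i.succ)))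
    {t : (Fin n → ZFSet.{0}) → ZFSet.{0}} (ht : DfT E t) : Df E (fun v => P (t v) v) := by
  refine (Df.ex (P := fun x v => x = t v ∧ P x v)
    (Df.instAnd (hP := ht.graph) (hQ := hP))).congr fun v hv => ?_
  constructor
  · rintro ⟨x, _, rfl, h⟩
    exact h
  · intro h
    exact ⟨t v, ht.mem v hv, rfl, h⟩

/-- Unary relation applied to a term. -/
lemma Df.comp1 {P : ZFSet.{0} → Prop} (hP : Df E (fun v : Fin 1 → ZFSet.{0} => P (v 0)))
    {t : (Fin n → ZFSet.{0}) → ZFSet.{0}} (ht : DfT E t) : Df E (fun v => P (t v)) :=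
  Df.subst (P := fun x _ => P x) (hP.ren (fun _ => 0)) ht

/-- Binary relation applied to terms. -/
lemma Df.comp2 {P : ZFSet.{0} → ZFSet.{0} → Prop}
    (hP : Df E (fun v : Fin 2 → ZFSet.{0} => P (v 0) (v 1)))
    {s t : (Fin n → ZFSet.{0}) → ZFSet.{0}} (hs : DfT E s) (ht : DfT E t) :
    Df E (fun v => P (s v) (t v)) := by
  refine (Df.ex (P := fun x v => x = s v ∧ ∃ y ∈ E, y = t v ∧ P x y) ?_).congr fun v hv => ?_
  · refine Df.instAnd (hP := hs.graph) (hQ := ?_)
    refine Df.ex (P := fun y (v : Fin (n + 1) → ZFSet.{0}) =>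
      y = t (fun i => v i.succ) ∧ P (v 0) y) ?_
    refine Df.instAnd (hP := ?_) (hQ := ?_)
    · exact ht.graph.ren (Fin.cons 0 (fun i => i.succ.succ))
    · exact hP.ren ![1, 0]
  · constructor
    · rintro ⟨x, _, rfl, y, _, rfl, h⟩
      exact h
    · intro h
      exact ⟨_, hs.mem v hv, rfl, _, ht.mem v hv, rfl, h⟩

/-- Ternary relation applied to terms. -/
lemma Df.comp3 {P : ZFSet.{0} → ZFSet.{0} → ZFSet.{0} → Prop}
    (hP : Df E (fun v : Fin 3 → ZFSet.{0} => P (v 0) (v 1) (v 2)))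
    {s t u : (Fin n → ZFSet.{0}) → ZFSet.{0}} (hs : DfT E s) (ht : DfT E t) (hu : DfT E u) :
    Df E (fun v => P (s v) (t v) (u v)) := by
  refine (Df.ex (P := fun x v => x = s v ∧ ∃ y ∈ E, y = t v ∧ ∃ z ∈ E, z = u v ∧ P x y z)
    ?_).congr fun v hv => ?_
  · refine Df.instAnd (hP := hs.graph) (hQ := ?_)
    refine Df.ex (P := fun y (v : Fin (n + 1) → ZFSet.{0}) =>
      y = t (fun i => v i.succ) ∧ ∃ z ∈ E, z = u (fun i => v i.succ) ∧ P (v 0) y z) ?_
    refine Df.instAnd (hP := ?_) (hQ := ?_)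
    · exact ht.graph.ren (Fin.cons 0 (fun i => i.succ.succ))
    · refine Df.ex (P := fun z (v : Fin (n + 2) → ZFSet.{0}) =>
        z = u (fun i => v i.succ.succ) ∧ P (v 1) (v 0) z) ?_
      refine Df.instAnd (hP := ?_) (hQ := ?_)
      · exact hu.graph.ren (Fin.cons 0 (fun i => i.succ.succ.succ))
      · exact hP.ren ![2, 1, 0]
  · constructor
    · rintro ⟨x, _, rfl, y, _, rfl, z, _, rfl, h⟩
      exact h
    · intro h
      exact ⟨_, hs.mem v hv, rfl, _, ht.mem v hv, rfl, _, hu.mem v hv, rfl, h⟩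

instance Df.instEq {s t : (Fin n → ZFSet.{0}) → ZFSet.{0}} [hs : DfT E s] [ht : DfT E t] :
    Df E (fun v => s v = t v) :=
  Df.comp2 (P := fun x y => x = y) (Df.eqv 0 1) hs ht

instance Df.instMem {s t : (Fin n → ZFSet.{0}) → ZFSet.{0}} [hs : DfT E s] [ht : DfT E t] :
    Df E (fun v => s v ∈ t v) :=
  Df.comp2 (P := fun x y => x ∈ y) (Df.memv 0 1) hs ht

/-- A term given by its graph. -/
lemma DfT.mk1 {F : ZFSet.{0} → ZFSet.{0}} (hE : ∀ x ∈ E, F x ∈ E)
    (hF : Df E (fun v : Fin 2 → ZFSet.{0} => v 0 = F (v 1)))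
    {t : (Fin n → ZFSet.{0}) → ZFSet.{0}} (ht : DfT E t) : DfT E (fun v => F (t v)) where
  mem := fun v hv => hE _ (ht.mem v hv)
  graph := by
    have h1 : DfT E (fun v : Fin (n + 1) → ZFSet.{0} => t (fun i => v i.succ)) :=
      ⟨fun v hv => ht.mem _ fun i => hv i.succ, ht.graph.ren (Fin.cons 0 (fun i => i.succ.succ))⟩
    exact Df.comp2 (P := fun x y => x = F y) hF (DfT.var 0) h1

lemma DfT.up {t : (Fin n → ZFSet.{0}) → ZFSet.{0}} (ht : DfT E t) :
    DfT E (fun v : Fin (n + 1) → ZFSet.{0} => t (fun i => v i.succ)) :=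
  ⟨fun v hv => ht.mem _ fun i => hv i.succ, ht.graph.ren (Fin.cons 0 (fun i => i.succ.succ))⟩

lemma DfT.mk2 {F : ZFSet.{0} → ZFSet.{0} → ZFSet.{0}} (hE : ∀ x ∈ E, ∀ y ∈ E, F x y ∈ E)
    (hF : Df E (fun v : Fin 3 → ZFSet.{0} => v 0 = F (v 1) (v 2)))
    {s t : (Fin n → ZFSet.{0}) → ZFSet.{0}} (hs : DfT E s) (ht : DfT E t) :
    DfT E (fun v => F (s v) (t v)) where
  mem := fun v hv => hE _ (hs.mem v hv) _ (ht.mem v hv)
  graph := Df.comp3 (P := fun x y z => x = F y z) hF (DfT.var 0) hs.up ht.up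

end Pool.UT
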