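import Pool.Agent.Lib.MP_9fc97b_ut.Hv
import Pool.Agent.Lib.MP_9fc97b_ut.Rec

/-!
# Existence of a uniform ultrafilter with a base indexed by `th`
-/

set_option autoImplicit false
set_option linter.unusedVariables false

open Set

namespace Pool.UT

open Pool.MP_3ade05_lc Pool.PC Pool.UL

namespace Ex

variable {V : Set ZFSet.{0}} {lam th : ZFSet.{0}} {t : ℕ → ZFSet.{0}} {tF X e : ZFSet.{0}}

theorem tc (h : Setting V lam th t tF X e) : TC V where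
  trans := h.trans
  zf := h.zfc.toZFModel
  choice := h.zfc.choice

lemma t_memV (h : Setting V lam th t tF X e) (n : ℕ) : t n ∈ V :=
  h.trans _ h.lam_card.mem _ (h.t_lam n)

lemma t_ord (h : Setting V lam th t tF X e) (n : ℕ) : (t n).IsOrdinal :=
  h.lam_card.ord.mem (h.t_lam n)

lemma t_mono (h : Setting V lam th t tF X e) {m n : ℕ} (hmn : m ≤ n) : t m ⊆ t n := by
  induction n, hmn using Nat.le_induction with
  | base => exact fun x hx => hx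
  | succ n _ ih => exact fun x hx => (t_ord h (n + 1)).subset_of_mem (h.t_mem n) (ih hx)

/-- `B` is large: it is not covered by an element of `lam`. -/
def Lg (V : Set ZFSet.{0}) (lam B : ZFSet.{0}) : Prop := ∀ d ∈ lam, ¬ Cov V d B

instance Df.instCovE {E : Set ZFSet.{0}} {n : ℕ} [hT : TZ E]
    {a c : (Fin n → ZFSet.{0}) → ZFSet.{0}} [ha : DfT E a]
    [hc : DfT E c] : Df E (fun v => Cov E (a v) (c v)) := by
  have ha1 := ha.up
  have hc1 := hc.up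
  have ha2 := ha1.up
  have h : Df E (fun v => ∃ f ∈ E, FunOn f (a v) ∧ ∀ y ∈ c v, ∃ x ∈ a v, ZFSet.pair x y ∈ f) :=
    inferInstance
  exact h

lemma cov_t (h : Setting V lam th t tF X e) {d B : ZFSet.{0}} (hd : d ∈ lam) (hB : Cov V d B) :
    ∃ n, Cov V (t n) B := by
  haveI := tc h
  obtain ⟨n, hn⟩ := h.t_union d hd
  exact ⟨n, cov_mono (t_memV h n) ((t_ord h n).subset_of_mem hn) hB⟩

lemma num_mem_t (h : Setting V lam th t tF X e) (k n : ℕ) : num k ∈ t n := by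
  have h1 : num k ∈ t 0 := by
    have h2 : num k ∈ ZFSet.omega := by
      induction k with
      | zero => exact ZFSet.omega_zero
      | succ k ih => exact ZFSet.omega_succ ih
    exact (t_ord h 0).subset_of_mem h.t_inf h2
  exact t_mono h (Nat.zero_le n) h1

lemma empty_mem (h : Setting V lam th t tF X e) : (∅ : ZFSet.{0}) ∈ V :=
  h.trans _ (t_memV h 0) _ (num_mem_t h 0 0)

/-- The union of two sets which are covered by `t n`. -/
lemma cov2 (h : Setting V lam th t tF X e) {n : ℕ} {B B' D : ZFSet.{0}} (hB : B ∈ V) (hB' : B' ∈ V)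
    (h1 : Cov V (t n) B) (h2 : Cov V (t n) B') (hD : D ⊆ B ∪ B') : Cov V (t n) D := by
  haveI := tc h
  haveI : InE V B := ⟨hB⟩
  haveI : InE V B' := ⟨hB'⟩
  haveI : InE V (∅ : ZFSet.{0}) := ⟨empty_mem h⟩
  refine cov_union (t_memV h n) (h.PA n)
    (fun i => ZFSet.sep (fun y => (i = ∅ → y ∈ B) ∧ (i ≠ ∅ → y ∈ B')) (B ∪ B')) ?_ ?_
  · intro i _
    by_cases hi : i = ∅
    · refine cov_sub h1 fun y hy => ?_
      exact (ZFSet.mem_sep.1 hy).2.1 hi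
    · refine cov_sub h2 fun y hy => ?_
      exact (ZFSet.mem_sep.1 hy).2.2 hi
  · intro y hy
    rcases ZFSet.mem_union.1 (hD hy) with h3 | h3
    · exact ⟨∅, num_mem_t h 0 n, ZFSet.mem_sep.2 ⟨hD hy, fun _ => h3, fun h => absurd rfl h⟩⟩
    · refine ⟨num 1, num_mem_t h 1 n, ZFSet.mem_sep.2 ⟨hD hy, fun h => ?_, fun _ => h3⟩⟩
      exfalso
      have h4 : (∅ : ZFSet.{0}) ∈ num 1 := by
        show (∅ : ZFSet.{0}) ∈ insert (∅ : ZFSet.{0}) ∅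
        simp
      rw [h] at h4
      exact ZFSet.notMem_empty _ h4

/-- Not large sets are covered by some `t n`. -/
lemma not_Lg (h : Setting V lam th t tF X e) {B : ZFSet.{0}} : ¬ Lg V lam B ↔ ∃ n, Cov V (t n) B := by
  unfold Lg
  push Not
  constructor
  · rintro ⟨d, hd, hc⟩
    exact cov_t h hd hc
  · rintro ⟨n, hc⟩
    exact ⟨t n, h.t_lam n, hc⟩

lemma small_union (h : Setting V lam th t tF X e) {B B' D : ZFSet.{0}} (hB : B ∈ V) (hB' : B' ∈ V)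
    (h1 : ¬ Lg V lam B) (h2 : ¬ Lg V lam B') (hD : D ⊆ B ∪ B') : ¬ Lg V lam D := by
  haveI := tc h
  rw [not_Lg h] at h1 h2 ⊢
  obtain ⟨m, hm⟩ := h1
  obtain ⟨n, hn⟩ := h2
  refine ⟨max m n, cov2 h hB hB' ?_ ?_ hD⟩
  · exact cov_mono (t_memV h _) (t_mono h (le_max_left m n)) hm
  · exact cov_mono (t_memV h _) (t_mono h (le_max_right m n)) hn

lemma Lg.mono {B B' : ZFSet.{0}} (hB : Lg V lam B) (hs : B ⊆ B') : Lg V lam B' :=
  fun d hd hc => hB d hd (cov_sub hc hs)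

lemma Lg_lam (h : Setting V lam th t tF X e) : Lg V lam lam := by
  rintro d hd ⟨f, hf, h1, h2⟩
  obtain ⟨y, hy, h3⟩ := h.lam_card.card d hd f hf h1
  obtain ⟨x, hx, h4⟩ := h2 y hy
  exact h3 x hx h4

/-- `H` is a filter of large subsets of `lam`. -/
structure Fl (V : Set ZFSet.{0}) (lam H : ZFSet.{0}) : Prop where
  sub : ∀ B ∈ H, B ∈ pw V lam
  lam_mem : lam ∈ H
  inter : ∀ B ∈ H, ∀ B' ∈ H, B ∩ B' ∈ H
  up : ∀ B ∈ H, ∀ C ∈ pw V lam, B ⊆ C → C ∈ H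
  lg : ∀ B ∈ H, Lg V lam B

/-- The filter of the complements of small sets. -/
noncomputable def F0 (V : Set ZFSet.{0}) (lam : ZFSet.{0}) : ZFSet.{0} :=
  ZFSet.sep (fun C => ∃ d ∈ lam, Cov V d (lam \ C)) (pw V lam)

lemma Fl_F0 (h : Setting V lam th t tF X e) : Fl V lam (F0 V lam) := by
  haveI := tc h
  have hlamV := h.lam_card.mem
  haveI : InE V lam := ⟨hlamV⟩
  have hmem : ∀ C, C ∈ F0 V lam ↔ C ∈ pw V lam ∧ ¬ Lg V lam (lam \ C) := by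
    intro C
    unfold F0 Lg
    rw [ZFSet.mem_sep]
    push Not
    exact Iff.rfl
  have hdiff : ∀ C ∈ pw V lam, lam \ C ∈ V := fun C hC => diff_mem hlamV (mem_pw.1 hC).1
  refine ⟨fun B hB => ((hmem B).1 hB).1, ?_, ?_, ?_, ?_⟩
  · refine (hmem lam).2 ⟨mem_pw.2 ⟨hlamV, fun x hx => hx⟩, ?_⟩
    rw [not_Lg h]
    refine ⟨0, cov_id (t_memV h 0) ?_⟩
    intro x hx
    exact absurd (ZFSet.mem_sdiff.1 hx).1 (ZFSet.mem_sdiff.1 hx).2
  · intro B hB B' hB'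
    obtain ⟨h1, h2⟩ := (hmem B).1 hB
    obtain ⟨h3, h4⟩ := (hmem B').1 hB'
    refine (hmem _).2 ⟨mem_pw.2 ⟨inter_mem (mem_pw.1 h1).1 (mem_pw.1 h3).1,
      fun x hx => (mem_pw.1 h1).2 (ZFSet.mem_inter.1 hx).1⟩, ?_⟩
    refine small_union h (hdiff B h1) (hdiff B' h3) h2 h4 fun x hx => ?_
    obtain ⟨h5, h6⟩ := ZFSet.mem_sdiff.1 hx
    rw [ZFSet.mem_inter, not_and_or] at h6
    rcases h6 with h6 | h6
    · exact ZFSet.mem_union.2 (Or.inl (ZFSet.mem_sdiff.2 ⟨h5, h6⟩))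
    · exact ZFSet.mem_union.2 (Or.inr (ZFSet.mem_sdiff.2 ⟨h5, h6⟩))
  · intro B hB C hC hBC
    obtain ⟨h1, h2⟩ := (hmem B).1 hB
    refine (hmem C).2 ⟨hC, fun h3 => h2 (h3.mono fun x hx => ?_)⟩
    obtain ⟨h5, h6⟩ := ZFSet.mem_sdiff.1 hx
    exact ZFSet.mem_sdiff.2 ⟨h5, fun h7 => h6 (hBC h7)⟩
  · intro B hB
    obtain ⟨h1, h2⟩ := (hmem B).1 hB
    by_contra h3
    refine small_union h (mem_pw.1 h1).1 (hdiff B h1) h3 h2 ?_ (Lg_lam h)
    intro x hx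
    by_cases hxB : x ∈ B
    · exact ZFSet.mem_union.2 (Or.inl hxB)
    · exact ZFSet.mem_union.2 (Or.inr (ZFSet.mem_sdiff.2 ⟨hx, hxB⟩))

/-- The filter at the previous stages. -/
noncomputable def Hk (V : Set ZFSet.{0}) (lam k : ZFSet.{0}) : ZFSet.{0} :=
  F0 V lam ∪ ZFSet.sUnion (im k (ZFSet.sUnion (ZFSet.sUnion k)))

/-- The domain of `k`. -/
noncomputable def dm (k : ZFSet.{0}) : ZFSet.{0} :=
  ZFSet.sep (fun x => ∃ y ∈ ZFSet.sUnion (ZFSet.sUnion k), ZFSet.pair x y ∈ k)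
    (ZFSet.sUnion (ZFSet.sUnion k))

/-- The filter generated by `H` and `A`. -/
noncomputable def gen (V : Set ZFSet.{0}) (lam H A : ZFSet.{0}) : ZFSet.{0} :=
  ZFSet.sep (fun C => ∃ B ∈ H, B ∩ A ⊆ C) (pw V lam)

/-- One step: `H` is extended by `A` if possible, otherwise by the complement. -/
noncomputable def nx (V : Set ZFSet.{0}) (lam H A : ZFSet.{0}) : ZFSet.{0} :=
  ZFSet.sep (fun C => ((∀ B ∈ H, Lg V lam (B ∩ A)) ∧ ∃ B ∈ H, B ∩ A ⊆ C) ∨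
    (¬ (∀ B ∈ H, Lg V lam (B ∩ A)) ∧ ∃ B ∈ H, B ∩ (lam \ A) ⊆ C)) (pw V lam)

lemma Fl_gen (h : Setting V lam th t tF X e) {H A : ZFSet.{0}} (hH : Fl V lam H)
    (hA : A ∈ pw V lam) (hl : ∀ B ∈ H, Lg V lam (B ∩ A)) :
    Fl V lam (gen V lam H A) ∧ H ⊆ gen V lam H A ∧ A ∈ gen V lam H A := by
  have hmem : ∀ C, C ∈ gen V lam H A ↔ C ∈ pw V lam ∧ ∃ B ∈ H, B ∩ A ⊆ C := by
    intro C
    unfold gen
    rw [ZFSet.mem_sep]
  haveI := tc h
  refine ⟨⟨fun B hB => ((hmem B).1 hB).1, ?_, ?_, ?_, ?_⟩, ?_, ?_⟩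
  · exact (hmem _).2 ⟨mem_pw.2 ⟨h.lam_card.mem, fun x hx => hx⟩, lam, hH.lam_mem,
      fun x hx => (ZFSet.mem_inter.1 hx).1⟩
  · intro B hB B' hB'
    obtain ⟨h1, C, hC, h2⟩ := (hmem B).1 hB
    obtain ⟨h3, C', hC', h4⟩ := (hmem B').1 hB'
    refine (hmem _).2 ⟨mem_pw.2 ⟨inter_mem (mem_pw.1 h1).1 (mem_pw.1 h3).1,
      fun x hx => (mem_pw.1 h1).2 (ZFSet.mem_inter.1 hx).1⟩, _, hH.inter C hC C' hC', ?_⟩
    intro x hx
    obtain ⟨h5, h6⟩ := ZFSet.mem_inter.1 hx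
    obtain ⟨h7, h8⟩ := ZFSet.mem_inter.1 h5
    exact ZFSet.mem_inter.2 ⟨h2 (ZFSet.mem_inter.2 ⟨h7, h6⟩), h4 (ZFSet.mem_inter.2 ⟨h8, h6⟩)⟩
  · intro B hB C hC hBC
    obtain ⟨h1, D, hD, h2⟩ := (hmem B).1 hB
    exact (hmem C).2 ⟨hC, D, hD, fun x hx => hBC (h2 hx)⟩
  · intro B hB
    obtain ⟨h1, D, hD, h2⟩ := (hmem B).1 hB
    exact (hl D hD).mono h2
  · intro B hB
    exact (hmem B).2 ⟨hH.sub B hB, B, hB, fun x hx => (ZFSet.mem_inter.1 hx).1⟩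
  · exact (hmem A).2 ⟨hA, lam, hH.lam_mem, fun x hx => (ZFSet.mem_inter.1 hx).2⟩

lemma Fl_nx (h : Setting V lam th t tF X e) {H A : ZFSet.{0}} (hH : Fl V lam H)
    (hA : A ∈ pw V lam) :
    Fl V lam (nx V lam H A) ∧ H ⊆ nx V lam H A ∧ (A ∈ nx V lam H A ∨ lam \ A ∈ nx V lam H A) := by
  haveI := tc h
  have hdA : lam \ A ∈ pw V lam := mem_pw.2 ⟨diff_mem h.lam_card.mem (mem_pw.1 hA).1,
    fun x hx => (ZFSet.mem_sdiff.1 hx).1⟩
  by_cases hl : ∀ B ∈ H, Lg V lam (B ∩ A)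
  · have h1 : nx V lam H A = gen V lam H A := by
      ext C
      unfold nx gen
      rw [ZFSet.mem_sep, ZFSet.mem_sep]
      refine and_congr_right fun _ => ⟨?_, fun h => Or.inl ⟨hl, h⟩⟩
      rintro (h1 | h1)
      · exact h1.2
      · exact absurd hl h1.1
    rw [h1]
    obtain ⟨h2, h3, h4⟩ := Fl_gen h hH hA hl
    exact ⟨h2, h3, Or.inl h4⟩
  · have h1 : nx V lam H A = gen V lam H (lam \ A) := by
      ext C
      unfold nx gen
      rw [ZFSet.mem_sep, ZFSet.mem_sep]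
      refine and_congr_right fun _ => ⟨?_, fun h => Or.inr ⟨hl, h⟩⟩
      rintro (h1 | h1)
      · exact absurd h1.1 hl
      · exact h1.2
    rw [h1]
    have hl2 : ∀ B ∈ H, Lg V lam (B ∩ (lam \ A)) := by
      push Not at hl
      obtain ⟨B₀, hB₀, h2⟩ := hl
      intro B hB
      by_contra h3
      have h4 := hH.lg _ (hH.inter B hB B₀ hB₀)
      refine small_union h (inter_mem (mem_pw.1 (hH.sub B₀ hB₀)).1 (mem_pw.1 hA).1)
        (inter_mem (mem_pw.1 (hH.sub B hB)).1 (mem_pw.1 hdA).1) h2 h3 ?_ h4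
      intro x hx
      obtain ⟨h5, h6⟩ := ZFSet.mem_inter.1 hx
      by_cases hxA : x ∈ A
      · exact ZFSet.mem_union.2 (Or.inl (ZFSet.mem_inter.2 ⟨h6, hxA⟩))
      · exact ZFSet.mem_union.2 (Or.inr (ZFSet.mem_inter.2 ⟨h5, ZFSet.mem_sdiff.2
          ⟨(mem_pw.1 (hH.sub B hB)).2 h5, hxA⟩⟩))
    obtain ⟨h2, h3, h4⟩ := Fl_gen h hH hdA hl2
    exact ⟨h2, h3, Or.inr h4⟩

/-- Existence of a uniform ultrafilter with a base indexed by `th`. -/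
theorem exists_uf (h : Setting V lam th t tF X e) : ∃ u, UnifUF V lam u ∧ HasBase V u th := by
  haveI := tc h
  have hlamV := h.lam_card.mem
  haveI : InE V lam := ⟨hlamV⟩
  obtain ⟨f, hf, hfF, hfs⟩ := h.PK
  haveI : InE V f := ⟨hf⟩
  have hthV := h.th_card.mem
  haveI : InE V th := ⟨hthV⟩
  -- the enumeration of the subsets of `lam`
  set A : ZFSet.{0} → ZFSet.{0} := fun x => ap f x ∩ lam with hA
  have hApw : ∀ x ∈ V, A x ∈ pw V lam := fun x hx => mem_pw.2 ⟨inter_mem (ap_memE hf hx) hlamV,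
    fun y hy => (ZFSet.mem_inter.1 hy).2⟩
  have hAs : ∀ B ∈ pw V lam, ∃ x ∈ th, A x = B := by
    intro B hB
    obtain ⟨x, hx, hxB⟩ := hfs B (mem_pw.1 hB).1 (mem_pw.1 hB).2
    refine ⟨x, hx, ?_⟩
    show ap f x ∩ lam = B
    rw [(FunOn.ap_eq hfF hx).1 hxB]
    ext y
    rw [ZFSet.mem_inter]
    exact ⟨fun h => h.1, fun h => ⟨h, (mem_pw.1 hB).2 h⟩⟩
  set G : ZFSet.{0} → ZFSet.{0} := fun k => nx V lam (Hk V lam k) (A (dm k)) with hG
  haveI : DfT V (fun v : Fin 1 → ZFSet.{0} => G (v 0)) := by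
    have h1 : DfT V (fun v : Fin 1 → ZFSet.{0} => Hk V lam (v 0)) := by
      unfold Hk F0
      infer_instance
    have h2 : DfT V (fun v : Fin 1 → ZFSet.{0} => A (dm (v 0))) := by
      unfold dm
      show DfT V (fun v : Fin 1 → ZFSet.{0} => ap f (ZFSet.sep (fun x =>
        ∃ y ∈ ZFSet.sUnion (ZFSet.sUnion (v 0)), ZFSet.pair x y ∈ v 0)
        (ZFSet.sUnion (ZFSet.sUnion (v 0)))) ∩ lam)
      infer_instance
    have h3 : ∀ {m : ℕ} (H' A' : (Fin m → ZFSet.{0}) → ZFSet.{0}) [DfT V H'] [DfT V A'],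
        DfT V (fun v => nx V lam (H' v) (A' v)) := by
      intro m H' A' i1 i2
      have i3 := i1.up
      have i4 := i2.up
      have i5 := i3.up
      have i6 := i4.up
      have i7 := i6.up
      unfold nx Lg
      infer_instance
    exact h3 _ _
  obtain ⟨hF, hFE⟩ := recur_mem (E := V) G hthV h.th_card.ord
  set R := recur G with hR
  haveI : InE V (mkF R th) := ⟨hF⟩
  have hord := h.th_card.ord
  -- the stages
  have hdm : ∀ ξ, dm (mkF R ξ) = ξ := by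
    intro ξ
    ext x
    unfold dm
    rw [ZFSet.mem_sep]
    constructor
    · rintro ⟨_, y, _, hy⟩
      exact (pair_mem_mkF.1 hy).1
    · intro hx
      have h1 : ZFSet.pair x (R x) ∈ mkF R ξ := pair_mem_mkF.2 ⟨hx, rfl⟩
      exact ⟨(mem_uu h1).1, _, (mem_uu h1).2, h1⟩
  have hHk : ∀ ξ C, C ∈ Hk V lam (mkF R ξ) ↔ C ∈ F0 V lam ∨ ∃ η ∈ ξ, C ∈ R η := by
    intro ξ C
    unfold Hk
    rw [ZFSet.mem_union, ZFSet.mem_sUnion]
    refine or_congr_right ?_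
    constructor
    · rintro ⟨z, hz, hC⟩
      obtain ⟨x, _, hx⟩ := mem_im.1 hz
      obtain ⟨h1, rfl⟩ := pair_mem_mkF.1 hx
      exact ⟨x, h1, hC⟩
    · rintro ⟨η, hη, hC⟩
      have h1 : ZFSet.pair η (R η) ∈ mkF R ξ := pair_mem_mkF.2 ⟨hη, rfl⟩
      exact ⟨R η, mem_im.2 ⟨η, (mem_uu h1).1, h1⟩, hC⟩
  have hRe : ∀ ξ, R ξ = nx V lam (Hk V lam (mkF R ξ)) (A ξ) := by
    intro ξ
    rw [hR, recur_eq]
    show nx V lam (Hk V lam (mkF R ξ)) (A (dm (mkF R ξ))) = _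
    rw [hdm]
  have key : ∀ ξ ∈ th, Fl V lam (R ξ) ∧ F0 V lam ⊆ R ξ ∧ (∀ η ∈ ξ, R η ⊆ R ξ) ∧
      (A ξ ∈ R ξ ∨ lam \ A ξ ∈ R ξ) := by
    intro ξ
    induction ξ using ZFSet.inductionOn with
    | h ξ ih =>
      intro hξ
      have hsub := hord.subset_of_mem hξ
      have hξo := hord.mem hξ
      have hH : Fl V lam (Hk V lam (mkF R ξ)) := by
        have hF0 := Fl_F0 h
        have hsup : ∀ B ∈ Hk V lam (mkF R ξ), ∀ B' ∈ Hk V lam (mkF R ξ),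
            ∃ K : ZFSet.{0}, Fl V lam K ∧ B ∈ K ∧ B' ∈ K ∧ K ⊆ Hk V lam (mkF R ξ) := by
          intro B hB B' hB'
          have hR' : ∀ η ∈ ξ, R η ⊆ Hk V lam (mkF R ξ) := fun η hη C hC =>
            (hHk ξ C).2 (Or.inr ⟨η, hη, hC⟩)
          rcases (hHk ξ B).1 hB with h1 | ⟨η, hη, h1⟩ <;>
          rcases (hHk ξ B').1 hB' with h2 | ⟨η', hη', h2⟩
          · exact ⟨F0 V lam, hF0, h1, h2, fun C hC => (hHk ξ C).2 (Or.inl hC)⟩
          · exact ⟨R η', (ih η' hη' (hsub hη')).1, (ih η' hη' (hsub hη')).2.1 h1, h2, hR' η' hη'⟩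
          · exact ⟨R η, (ih η hη (hsub hη)).1, h1, (ih η hη (hsub hη)).2.1 h2, hR' η hη⟩
          · rcases (hξo.mem hη).mem_trichotomous (hξo.mem hη') with h3 | h3 | h3
            · exact ⟨R η', (ih η' hη' (hsub hη')).1, (ih η' hη' (hsub hη')).2.2.1 η h3 h1, h2,
                hR' η' hη'⟩
            · subst h3
              exact ⟨R η, (ih η hη (hsub hη)).1, h1, h2, hR' η hη⟩
            · exact ⟨R η, (ih η hη (hsub hη)).1, h1, (ih η hη (hsub hη)).2.2.1 η' h3 h2,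
                hR' η hη⟩
        refine ⟨fun B hB => ?_, (hHk ξ _).2 (Or.inl hF0.lam_mem), fun B hB B' hB' => ?_,
          fun B hB C hC hBC => ?_, fun B hB => ?_⟩
        · obtain ⟨K, h1, h2, _, _⟩ := hsup B hB B hB
          exact h1.sub B h2
        · obtain ⟨K, h1, h2, h3, h4⟩ := hsup B hB B' hB'
          exact h4 (h1.inter B h2 B' h3)
        · obtain ⟨K, h1, h2, _, h4⟩ := hsup B hB B hB
          exact h4 (h1.up B h2 C hC hBC)
        · obtain ⟨K, h1, h2, _, _⟩ := hsup B hB B hB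
          exact h1.lg B h2
      obtain ⟨h1, h2, h3⟩ := Fl_nx h hH (hApw ξ (h.trans _ hthV ξ hξ))
      rw [hRe ξ]
      refine ⟨h1, fun C hC => h2 ((hHk ξ C).2 (Or.inl hC)), fun η hη C hC =>
        h2 ((hHk ξ C).2 (Or.inr ⟨η, hη, hC⟩)), h3⟩
  -- the ultrafilter
  set u : ZFSet.{0} := ZFSet.sUnion (im (mkF R th) th) with hu
  have huV : u ∈ V := mem_of (E := V) (ZFSet.sUnion (im (mkF R th) th))
  have hmem : ∀ C, C ∈ u ↔ ∃ ξ ∈ th, C ∈ R ξ := by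
    intro C
    rw [hu, ZFSet.mem_sUnion]
    constructor
    · rintro ⟨z, hz, hC⟩
      obtain ⟨x, hx, hxz⟩ := mem_im.1 hz
      obtain ⟨_, rfl⟩ := pair_mem_mkF.1 hxz
      exact ⟨x, hx, hC⟩
    · rintro ⟨ξ, hξ, hC⟩
      exact ⟨R ξ, mem_im.2 ⟨ξ, hξ, pair_mem_mkF.2 ⟨hξ, rfl⟩⟩, hC⟩
  have hdir : ∀ B ∈ u, ∀ B' ∈ u, ∃ ξ ∈ th, B ∈ R ξ ∧ B' ∈ R ξ := by
    intro B hB B' hB'
    obtain ⟨ξ, hξ, h1⟩ := (hmem B).1 hB
    obtain ⟨η, hη, h2⟩ := (hmem B').1 hB'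
    rcases (hord.mem hξ).mem_trichotomous (hord.mem hη) with h3 | h3 | h3
    · exact ⟨η, hη, (key η hη).2.2.1 ξ h3 h1, h2⟩
    · subst h3
      exact ⟨ξ, hξ, h1, h2⟩
    · exact ⟨ξ, hξ, h1, (key ξ hξ).2.2.1 η h3 h2⟩
  have hinter : ∀ A ∈ u, ∀ B ∈ u, A ∩ B ∈ u := by
    intro B hB B' hB'
    obtain ⟨ξ, hξ, h1, h2⟩ := hdir B hB B' hB'
    exact (hmem _).2 ⟨ξ, hξ, (key ξ hξ).1.inter B h1 B' h2⟩
  have hlg : ∀ B ∈ u, Lg V lam B := by
    intro B hB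
    obtain ⟨ξ, hξ, h1⟩ := (hmem B).1 hB
    exact (key ξ hξ).1.lg B h1
  have hempty : (∅ : ZFSet.{0}) ∉ u := by
    intro h1
    exact hlg _ h1 (t 0) (h.t_lam 0) (cov_id (t_memV h 0) fun x hx => absurd hx
      (ZFSet.notMem_empty x))
  have huf : UnifUF V lam u := by
    refine ⟨huV, ?_, ?_, hinter, ?_, ?_⟩
    · intro B hB
      obtain ⟨ξ, hξ, h1⟩ := (hmem B).1 hB
      exact (mem_pw.1 ((key ξ hξ).1.sub B h1)).2
    · intro B hB C hC hCl hBC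
      obtain ⟨ξ, hξ, h1⟩ := (hmem B).1 hB
      exact (hmem C).2 ⟨ξ, hξ, (key ξ hξ).1.up B h1 C (mem_pw.2 ⟨hC, hCl⟩) hBC⟩
    · intro B hB hBl
      obtain ⟨ξ, hξ, rfl⟩ := hAs B (mem_pw.2 ⟨hB, hBl⟩)
      constructor
      · intro h1 h2
        have h3 := hinter _ h1 _ h2
        have h4 : A ξ ∩ (lam \ A ξ) = ∅ := by
          ext x
          simp only [ZFSet.mem_inter, ZFSet.mem_sdiff, ZFSet.notMem_empty, iff_false]
          exact fun h => h.2.2 h.1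
        rw [h4] at h3
        exact hempty h3
      · intro h1
        rcases (key ξ hξ).2.2.2 with h2 | h2
        · exact (hmem _).2 ⟨ξ, hξ, h2⟩
        · exact absurd ((hmem _).2 ⟨ξ, hξ, h2⟩) h1
    · intro B hB d hd g hg hgd
      by_contra h1
      push Not at h1
      exact hlg B hB d hd ⟨g, hg, hgd, h1⟩
  refine ⟨u, huf, ?_⟩
  haveI : InE V u := ⟨huV⟩
  refine ⟨mkF (fun x => ZFSet.sep (fun y => A x ∈ u → y ∈ A x) lam) th, ?_, FunOn_mkF _ _, ?_, ?_⟩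
  · show mkF (fun x => ZFSet.sep (fun y => ap f x ∩ lam ∈ u → y ∈ ap f x ∩ lam) lam) th ∈ V
    exact mem_of (E := V) _
  · intro x hx B hB
    obtain ⟨_, rfl⟩ := pair_mem_mkF.1 hB
    by_cases h1 : A x ∈ u
    · have h2 : ZFSet.sep (fun y => A x ∈ u → y ∈ A x) lam = A x := by
        ext y
        rw [ZFSet.mem_sep]
        exact ⟨fun h => h.2 h1, fun h => ⟨(ZFSet.mem_inter.1 h).2, fun _ => h⟩⟩
      rw [h2]
      exact h1
    · have h2 : ZFSet.sep (fun y => A x ∈ u → y ∈ A x) lam = lam := by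
        ext y
        rw [ZFSet.mem_sep]
        exact ⟨fun h => h.1, fun h => ⟨h, fun h' => absurd h' h1⟩⟩
      rw [h2]
      obtain ⟨ξ, hξ⟩ : ∃ ξ, ξ ∈ th := ⟨lam, h.lam_mem⟩
      exact (hmem _).2 ⟨ξ, hξ, (key ξ hξ).1.lam_mem⟩
  · intro B hB
    obtain ⟨x, hx, hxB⟩ := hAs B (mem_pw.2 ⟨h.trans _ huV _ hB, huf.sub B hB⟩)
    refine ⟨x, hx, _, pair_mem_mkF.2 ⟨hx, rfl⟩, ?_⟩
    intro y hy
    have h1 := (ZFSet.mem_sep.1 hy).2 (by rw [hxB]; exact hB)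
    rwa [hxB] at h1

end Ex

end Pool.UT
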