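import Pool.Agent.Lib.MP_9fc97b_ut.Ops

/-!
# Functions of the model: `FunOn`, application `ap`, graphs `mkF`, separation as a term
-/

set_option autoImplicit false
set_option linter.unusedVariables false

open Set

namespace Pool.UT

open Pool.MP_3ade05_lc Pool.PC

variable {E : Set ZFSet.{0}} {n : ℕ}

/-- Fixing the last variables. -/
lemma Df.fix {P : (Fin (n + 1) → ZFSet.{0}) → Prop} (hP : Df E P) {v : Fin n → ZFSet.{0}}
    (hv : ∀ i, v i ∈ E) : Df E (fun u : Fin 1 → ZFSet.{0} => P (Fin.cons (u 0) v)) := by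
  obtain ⟨m, φ, w, hw, hφ⟩ := hP.out
  refine ⟨n + m, φ.rename (Fin.addCases (Fin.cases (Fin.castAdd (n + m) 0)
    (fun i => Fin.natAdd 1 (Fin.castAdd m i))) (fun i => Fin.natAdd 1 (Fin.natAdd n i))),
    Fin.append v w, ?_, fun u hu => ?_⟩
  · intro i
    refine Fin.addCases (fun i => ?_) (fun i => ?_) i
    · rw [Fin.append_left]; exact hv i
    · rw [Fin.append_right]; exact hw i
  · rw [Sat_rename, ← hφ (Fin.cons (u 0) v) (fun i => by
      refine Fin.cases ?_ (fun k => ?_) i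
      · exact hu 0
      · exact hv k)]
    have h1 : (fun j => Fin.append u (Fin.append v w) (Fin.addCases
        (Fin.cases (Fin.castAdd (n + m) 0) (fun i => Fin.natAdd 1 (Fin.castAdd m i)))
        (fun i => Fin.natAdd 1 (Fin.natAdd n i)) j)) =
        Fin.append (Fin.cons (u 0) v : Fin (n + 1) → ZFSet.{0}) w := by
      funext j
      refine Fin.addCases (fun i => ?_) (fun i => ?_) j
      · rw [Fin.addCases_left, Fin.append_left]
        refine Fin.cases ?_ (fun k => ?_) i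
        · rw [Fin.cases_zero, Fin.append_left, Fin.cons_zero]
        · rw [Fin.cases_succ, Fin.append_right, Fin.append_left, Fin.cons_succ]
      · rw [Fin.addCases_right, Fin.append_right, Fin.append_right, Fin.append_right]
    rw [h1]

/-- Fixing the last variables in a relation with two free variables. -/
lemma Df.fix2 {P : (Fin (n + 2) → ZFSet.{0}) → Prop} (hP : Df E P) {v : Fin n → ZFSet.{0}}
    (hv : ∀ i, v i ∈ E) :
    Df E (fun u : Fin 2 → ZFSet.{0} => P (Fin.cons (u 0) (Fin.cons (u 1) v))) := by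
  obtain ⟨m, φ, w, hw, hφ⟩ := hP.out
  refine ⟨n + m, φ.rename (Fin.addCases (Fin.cases (Fin.castAdd (n + m) 0)
    (Fin.cases (Fin.castAdd (n + m) 1)
    (fun i => Fin.natAdd 2 (Fin.castAdd m i)))) (fun i => Fin.natAdd 2 (Fin.natAdd n i))),
    Fin.append v w, ?_, fun u hu => ?_⟩
  · intro i
    refine Fin.addCases (fun i => ?_) (fun i => ?_) i
    · rw [Fin.append_left]; exact hv i
    · rw [Fin.append_right]; exact hw i
  · rw [Sat_rename, ← hφ (Fin.cons (u 0) (Fin.cons (u 1) v)) (fun i => by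
      refine Fin.cases ?_ (fun k => ?_) i
      · exact hu 0
      · refine Fin.cases ?_ (fun k => ?_) k
        · exact hu 1
        · exact hv k)]
    have h1 : (fun j => Fin.append u (Fin.append v w) (Fin.addCases
        (Fin.cases (Fin.castAdd (n + m) 0) (Fin.cases (Fin.castAdd (n + m) 1)
        (fun i => Fin.natAdd 2 (Fin.castAdd m i))))
        (fun i => Fin.natAdd 2 (Fin.natAdd n i)) j)) =
        Fin.append (Fin.cons (u 0) (Fin.cons (u 1) v) : Fin (n + 2) → ZFSet.{0}) w := by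
      funext j
      refine Fin.addCases (fun i => ?_) (fun i => ?_) j
      · rw [Fin.addCases_left, Fin.append_left]
        refine Fin.cases ?_ (fun k => ?_) i
        · rw [Fin.cases_zero, Fin.append_left, Fin.cons_zero]
        · rw [Fin.cases_succ, Fin.cons_succ]
          refine Fin.cases ?_ (fun k => ?_) k
          · rw [Fin.cases_zero, Fin.append_left, Fin.cons_zero]
          · rw [Fin.cases_succ, Fin.append_right, Fin.append_left, Fin.cons_succ]
      · rw [Fin.addCases_right, Fin.append_right, Fin.append_right, Fin.append_right]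
    rw [h1]

/-- A definable closed term is an element of `E`. -/
lemma mem_of (t : ZFSet.{0}) [h : DfT E (fun _ : Fin 0 → ZFSet.{0} => t)] : t ∈ E :=
  h.mem Fin.elim0 (fun i => i.elim0)

variable [hT : TZ E]

/-- Separation as a term. -/
instance DfT.instSep {P : ZFSet.{0} → (Fin n → ZFSet.{0}) → Prop}
    {t : (Fin n → ZFSet.{0}) → ZFSet.{0}}
    [hP : Df E (fun v : Fin (n + 1) → ZFSet.{0} => P (v 0) (fun i => v i.succ))]
    [ht : DfT E t] : DfT E (fun v => ZFSet.sep (fun x => P x v) (t v)) where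
  mem := fun v hv => by
    have h := hP.fix hv
    have h1 : Df E (fun u : Fin 1 → ZFSet.{0} => P (u 0) v) := h
    exact sep (E := E) (fun x => P x v) (ht.mem v hv)
  graph := by
    have h1 := ht.up
    have h2 : Df E (fun v : Fin (n + 2) → ZFSet.{0} => P (v 0) (fun i => v i.succ.succ)) :=
      hP.ren (Fin.cons 0 (fun i => i.succ.succ))
    have h3 : Df E (fun v : Fin (n + 1) → ZFSet.{0} => (∀ x ∈ v 0, P x (fun i => v i.succ))) :=
      Df.instBall (t := fun v : Fin (n + 1) → ZFSet.{0} => v 0)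
        (P := fun x v => P x (fun i => v i.succ))
    have h4 : Df E (fun v : Fin (n + 1) → ZFSet.{0} =>
        ∀ x ∈ t (fun i => v i.succ), P x (fun i => v i.succ) → x ∈ v 0) :=
      Df.instBall (t := fun v : Fin (n + 1) → ZFSet.{0} => t (fun i => v i.succ))
        (P := fun x v => P x (fun i => v i.succ) → x ∈ v 0)
    have h5 : Df E (fun v : Fin (n + 1) → ZFSet.{0} => v 0 ⊆ t (fun i => v i.succ)) :=
      inferInstance
    refine (Df.instAnd (hP := h5) (hQ := Df.instAnd (hP := h3) (hQ := h4))).congr fun v _ => ?_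
    constructor
    · rintro ⟨g5, g3, g4⟩
      ext x
      rw [ZFSet.mem_sep]
      exact ⟨fun hx => ⟨g5 hx, g3 x hx⟩, fun hx => g4 x hx.1 hx.2⟩
    · intro h
      refine ⟨?_, ?_, ?_⟩
      · intro x hx
        rw [h, ZFSet.mem_sep] at hx
        exact hx.1
      · intro x hx
        rw [h, ZFSet.mem_sep] at hx
        exact hx.2
      · intro x hx hP
        rw [h, ZFSet.mem_sep]
        exact ⟨hx, hP⟩

/-! ### Application -/

/-- The value of the function `f` at `x` (`∅` if `x` is not in the domain). -/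
noncomputable def ap (f x : ZFSet.{0}) : ZFSet.{0} :=
  ZFSet.sUnion (ZFSet.sep (fun y => ZFSet.pair x y ∈ f) (ZFSet.sUnion (ZFSet.sUnion f)))

omit hT in
lemma mem_uu {f x y : ZFSet.{0}} (h : ZFSet.pair x y ∈ f) :
    x ∈ ZFSet.sUnion (ZFSet.sUnion f) ∧ y ∈ ZFSet.sUnion (ZFSet.sUnion f) := by
  have h1 : ({x, y} : ZFSet.{0}) ∈ ZFSet.sUnion f := ZFSet.mem_sUnion.2 ⟨_, h, by
    unfold ZFSet.pair; simp⟩
  exact ⟨ZFSet.mem_sUnion.2 ⟨_, h1, by simp⟩, ZFSet.mem_sUnion.2 ⟨_, h1, by simp⟩⟩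

omit hT in
lemma ap_eq_of {f x y : ZFSet.{0}} (h : ZFSet.pair x y ∈ f)
    (hu : ∀ y', ZFSet.pair x y' ∈ f → y' = y) : ap f x = y := by
  unfold ap
  have h1 : ZFSet.sep (fun y => ZFSet.pair x y ∈ f) (ZFSet.sUnion (ZFSet.sUnion f)) = {y} := by
    ext z
    rw [ZFSet.mem_sep, ZFSet.mem_singleton]
    constructor
    · rintro ⟨_, h2⟩
      exact hu z h2
    · rintro rfl
      exact ⟨(mem_uu h).2, h⟩
  rw [h1, ZFSet.sUnion_singleton]

omit hT in
lemma FunOn.ap_mem {f a x : ZFSet.{0}} (hf : FunOn f a) (hx : x ∈ a) :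
    ZFSet.pair x (ap f x) ∈ f := by
  obtain ⟨y, hy, hu⟩ := hf.2 x hx
  rw [ap_eq_of hy hu]
  exact hy

omit hT in
lemma FunOn.ap_eq {f a x y : ZFSet.{0}} (hf : FunOn f a) (hx : x ∈ a) :
    ZFSet.pair x y ∈ f ↔ ap f x = y := by
  constructor
  · intro h
    exact (hf.2 x hx).unique (FunOn.ap_mem hf hx) h
  · rintro rfl
    exact FunOn.ap_mem hf hx

omit hT in
lemma FunOn.dom {f a x y : ZFSet.{0}} (hf : FunOn f a) (h : ZFSet.pair x y ∈ f) : x ∈ a := by
  obtain ⟨x', hx', y', he⟩ := hf.1 _ h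
  rw [(ZFSet.pair_injective he).1]
  exact hx'

omit hT in
lemma FunOn.ext {f g a : ZFSet.{0}} (hf : FunOn f a) (hg : FunOn g a)
    (h : ∀ x ∈ a, ap f x = ap g x) : f = g := by
  ext z
  constructor
  · intro hz
    obtain ⟨x, hx, y, rfl⟩ := hf.1 z hz
    rw [FunOn.ap_eq hg hx, ← h x hx, ← FunOn.ap_eq hf hx]
    exact hz
  · intro hz
    obtain ⟨x, hx, y, rfl⟩ := hg.1 z hz
    rw [FunOn.ap_eq hf hx, h x hx, ← FunOn.ap_eq hg hx]
    exact hz

instance DfT.instAp {f x : (Fin n → ZFSet.{0}) → ZFSet.{0}} [hf : DfT E f] [hx : DfT E x] :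
    DfT E (fun v => ap (f v) (x v)) := by
  have hf1 := hf.up
  have hx1 := hx.up
  have h : DfT E (fun v => ZFSet.sUnion (ZFSet.sep (fun y => ZFSet.pair (x v) y ∈ f v)
      (ZFSet.sUnion (ZFSet.sUnion (f v))))) := inferInstance
  exact h

lemma ap_memE {f x : ZFSet.{0}} (hf : f ∈ E) (hx : x ∈ E) : ap f x ∈ E := by
  haveI : InE E f := ⟨hf⟩
  haveI : InE E x := ⟨hx⟩
  exact mem_of (E := E) (ap f x)

instance Df.instFunOn {f a : (Fin n → ZFSet.{0}) → ZFSet.{0}} [hf : DfT E f] [ha : DfT E a] :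
    Df E (fun v => FunOn (f v) (a v)) := by
  refine Df.comp2 (P := fun x y => FunOn x y) ?_ hf ha
  have h : Df E (fun v : Fin 2 → ZFSet.{0} => (∀ z ∈ v 0, ∃ x ∈ v 1, ∃ y ∈ E, z = ZFSet.pair x y) ∧
    ∀ x ∈ v 1, ∃ y ∈ E, ZFSet.pair x y ∈ v 0 ∧ ∀ y' ∈ E, ZFSet.pair x y' ∈ v 0 → y' = y) :=
    inferInstance
  refine h.congr fun v hv => ?_
  have hp : ∀ x y, ZFSet.pair x y ∈ v 0 → y ∈ E := by
    intro x y hxy
    obtain ⟨z, hz, hyz⟩ := ZFSet.mem_sUnion.1 (mem_uu hxy).2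
    exact hT.trans _ (hT.trans _ (sUnion_mem (hv 0)) z hz) y hyz
  constructor
  · rintro ⟨h1, h2⟩
    refine ⟨fun z hz => ?_, fun x hx => ?_⟩
    · obtain ⟨x, hx, y, _, he⟩ := h1 z hz
      exact ⟨x, hx, y, he⟩
    · obtain ⟨y, _, hy, hu⟩ := h2 x hx
      exact ⟨y, hy, fun y' hy' => hu y' (hp x y' hy') hy'⟩
  · rintro ⟨h1, h2⟩
    refine ⟨fun z hz => ?_, fun x hx => ?_⟩
    · obtain ⟨x, hx, y, rfl⟩ := h1 z hz
      exact ⟨x, hx, y, hp x y hz, rfl⟩
    · obtain ⟨y, hy, hu⟩ := h2 x hx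
      exact ⟨y, hp x y hy, hy, fun y' _ hy' => hu y' hy'⟩

/-! ### Graphs -/

/-- The graph of the Lean function `F` on the set `a`. -/
noncomputable def mkF (F : ZFSet.{0} → ZFSet.{0}) (a : ZFSet.{0}) : ZFSet.{0} :=
  ZFSet.range (fun x : {x : ZFSet.{0} // x ∈ a} => ZFSet.pair x.1 (F x.1))

omit hT in
lemma mem_mkF {F : ZFSet.{0} → ZFSet.{0}} {a z : ZFSet.{0}} :
    z ∈ mkF F a ↔ ∃ x ∈ a, z = ZFSet.pair x (F x) := by
  unfold mkF
  rw [ZFSet.mem_range]
  constructor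
  · rintro ⟨⟨x, hx⟩, rfl⟩
    exact ⟨x, hx, rfl⟩
  · rintro ⟨x, hx, rfl⟩
    exact ⟨⟨x, hx⟩, rfl⟩

omit hT in
lemma pair_mem_mkF {F : ZFSet.{0} → ZFSet.{0}} {a x y : ZFSet.{0}} :
    ZFSet.pair x y ∈ mkF F a ↔ x ∈ a ∧ y = F x := by
  rw [mem_mkF]
  constructor
  · rintro ⟨x', hx', he⟩
    obtain ⟨rfl, rfl⟩ := ZFSet.pair_injective he
    exact ⟨hx', rfl⟩
  · rintro ⟨hx, rfl⟩
    exact ⟨x, hx, rfl⟩

omit hT in
lemma FunOn_mkF (F : ZFSet.{0} → ZFSet.{0}) (a : ZFSet.{0}) : FunOn (mkF F a) a := by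
  refine ⟨fun z hz => ?_, fun x hx => ⟨F x, pair_mem_mkF.2 ⟨hx, rfl⟩, fun y hy =>
    (pair_mem_mkF.1 hy).2⟩⟩
  obtain ⟨x, hx, rfl⟩ := mem_mkF.1 hz
  exact ⟨x, hx, _, rfl⟩

omit hT in
lemma ap_mkF {F : ZFSet.{0} → ZFSet.{0}} {a x : ZFSet.{0}} (hx : x ∈ a) :
    ap (mkF F a) x = F x :=
  (FunOn.ap_eq (FunOn_mkF F a) hx).1 (pair_mem_mkF.2 ⟨hx, rfl⟩)

/-- The graph of a definable function is in `E`. -/
lemma mkF_mem (F : ZFSet.{0} → ZFSet.{0}) [hF : Df E (fun v : Fin 2 → ZFSet.{0} => v 0 = F (v 1))]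
    {a : ZFSet.{0}} (ha : a ∈ E) (hE : ∀ x ∈ a, F x ∈ E) : mkF F a ∈ E := by
  have h1 : Df E (fun v : Fin 2 → ZFSet.{0} => ∃ y ∈ E, y = F (v 1) ∧ v 0 = ZFSet.pair (v 1) y) := by
    have h2 : Df E (fun v : Fin 3 → ZFSet.{0} => v 0 = F (v 2)) := hF.ren ![0, 2]
    exact Df.instEx (P := fun y (v : Fin 2 → ZFSet.{0}) => y = F (v 1) ∧ v 0 = ZFSet.pair (v 1) y)
      (hP := Df.instAnd (hP := h2) (hQ := inferInstance))
  have h2 : Df E (fun v : Fin 2 → ZFSet.{0} => (F (v 1) ∈ E → v 0 = ZFSet.pair (v 1) (F (v 1))) ∧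
      (F (v 1) ∉ E → v 0 = ∅)) := by
    have h0 : (∅ : ZFSet.{0}) ∈ E := by
      have h3 := sep (E := E) (fun _ => False) ha
      rwa [show ZFSet.sep (fun _ => False) a = ∅ by
        ext z; simp] at h3
    haveI : InE E (∅ : ZFSet.{0}) := ⟨h0⟩
    have h4 : Df E (fun v : Fin 2 → ZFSet.{0} => ∃ y ∈ E, y = F (v 1)) := by
      have h2 : Df E (fun v : Fin 3 → ZFSet.{0} => v 0 = F (v 2)) := hF.ren ![0, 2]
      exact Df.instEx (P := fun y (v : Fin 2 → ZFSet.{0}) => y = F (v 1)) (hP := h2)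
    have h5 : Df E (fun v : Fin 2 → ZFSet.{0} => (∃ y ∈ E, y = F (v 1)) →
      ∃ y ∈ E, y = F (v 1) ∧ v 0 = ZFSet.pair (v 1) y) := Df.imp h4 h1
    have h6 : Df E (fun v : Fin 2 → ZFSet.{0} => (¬ (∃ y ∈ E, y = F (v 1))) → v 0 = ∅) :=
      Df.imp (Df.instNot (hP := h4)) inferInstance
    refine (Df.instAnd (hP := h5) (hQ := h6)).congr fun v hv => ?_
    constructor
    · rintro ⟨g1, g2⟩
      refine ⟨fun h => ?_, fun h => g2 ?_⟩
      · obtain ⟨y, _, rfl, hy⟩ := g1 ⟨_, h, rfl⟩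
        exact hy
      · rintro ⟨y, hy, rfl⟩
        exact h hy
    · rintro ⟨g1, g2⟩
      refine ⟨?_, fun h => g2 ?_⟩
      · rintro ⟨y, hy, rfl⟩
        exact ⟨_, hy, rfl, g1 hy⟩
      · intro h'
        exact h ⟨_, h', rfl⟩
  classical
  have h3 : Df E (fun v : Fin 2 → ZFSet.{0} => v 0 =
      (fun x => if F x ∈ E then ZFSet.pair x (F x) else ∅) (v 1)) := by
    refine h2.congr fun v _ => ?_
    by_cases h : F (v 1) ∈ E
    · simp [h]
    · simp [h]
  obtain ⟨b, hb, hb'⟩ := repl (E := E) (fun x => if F x ∈ E then ZFSet.pair x (F x) else ∅) ha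
    (fun x hx => by
      show (if F x ∈ E then ZFSet.pair x (F x) else ∅) ∈ E
      rw [if_pos (hE x hx)]
      exact pair_mem (hT.trans a ha x hx) (hE x hx))
  have h4 : mkF F a = b := by
    ext z
    rw [mem_mkF, hb']
    refine exists_congr fun x => and_congr_right fun hx => ?_
    show _ ↔ z = (if F x ∈ E then ZFSet.pair x (F x) else ∅)
    rw [if_pos (hE x hx)]
  rw [h4]
  exact hb

/-- The graph as a term. -/
instance DfT.instMkF {F : ZFSet.{0} → (Fin n → ZFSet.{0}) → ZFSet.{0}}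
    {t : (Fin n → ZFSet.{0}) → ZFSet.{0}}
    [hF : DfT E (fun v : Fin (n + 1) → ZFSet.{0} => F (v 0) (fun i => v i.succ))]
    [ht : DfT E t] : DfT E (fun v => mkF (fun x => F x v) (t v)) where
  mem := fun v hv => by
    have h := hF.graph.fix2 hv
    have h1 : Df E (fun u : Fin 2 → ZFSet.{0} => u 0 = F (u 1) v) := h
    refine mkF_mem (E := E) (fun x => F x v) (ht.mem v hv) (fun x hx => ?_)
    exact hF.mem (Fin.cons x v) (fun i => by
      refine Fin.cases ?_ (fun k => ?_) i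
      · exact hT.trans _ (ht.mem v hv) x hx
      · exact hv k)
  graph := by
    have h1 := ht.up
    have h2 : DfT E (fun v : Fin (n + 2) → ZFSet.{0} => F (v 0) (fun i => v i.succ.succ)) :=
      ⟨fun v hv => hF.mem (Fin.cons (v 0) (fun i => v i.succ.succ)) (fun i => by
        refine Fin.cases ?_ (fun k => ?_) i
        · exact hv 0
        · exact hv k.succ.succ), hF.graph.ren (Fin.cons 0 (Fin.cons 1 (fun i => i.succ.succ.succ)))⟩
    have h3 : Df E (fun v : Fin (n + 1) → ZFSet.{0} => FunOn (v 0) (t (fun i => v i.succ)) ∧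
        ∀ x ∈ t (fun i => v i.succ), ZFSet.pair x (F x (fun i => v i.succ)) ∈ v 0) :=
      Df.instAnd (hP := inferInstance)
        (hQ := Df.instBall (t := fun v : Fin (n + 1) → ZFSet.{0} => t (fun i => v i.succ))
          (P := fun x v => ZFSet.pair x (F x (fun i => v i.succ)) ∈ v 0))
    refine h3.congr fun v hv => ?_
    constructor
    · rintro ⟨g1, g2⟩
      refine FunOn.ext g1 (FunOn_mkF _ _) fun x hx => ?_
      rw [ap_mkF hx]
      exact (FunOn.ap_eq g1 hx).1 (g2 x hx)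
    · intro h
      rw [h]
      exact ⟨FunOn_mkF _ _, fun x hx => pair_mem_mkF.2 ⟨hx, rfl⟩⟩

/-! ### Images, ranges, restrictions -/

/-- The image of `a` under the function `f`. -/
noncomputable def im (f a : ZFSet.{0}) : ZFSet.{0} :=
  ZFSet.sep (fun y => ∃ x ∈ a, ZFSet.pair x y ∈ f) (ZFSet.sUnion (ZFSet.sUnion f))

omit hT in
lemma mem_im {f a y : ZFSet.{0}} : y ∈ im f a ↔ ∃ x ∈ a, ZFSet.pair x y ∈ f := by
  unfold im
  rw [ZFSet.mem_sep]
  constructor
  · exact fun h => h.2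
  · rintro ⟨x, hx, h⟩
    exact ⟨(mem_uu h).2, x, hx, h⟩

omit hT in
lemma FunOn.mem_im {f a b y : ZFSet.{0}} (hf : FunOn f a) (hb : b ⊆ a) :
    y ∈ im f b ↔ ∃ x ∈ b, ap f x = y := by
  rw [UT.mem_im]
  exact exists_congr fun x => and_congr_right fun hx => FunOn.ap_eq hf (hb hx)

instance DfT.instIm {f a : (Fin n → ZFSet.{0}) → ZFSet.{0}} [hf : DfT E f] [ha : DfT E a] :
    DfT E (fun v => im (f v) (a v)) := by
  have hf1 := hf.up
  have ha1 := ha.up
  have hf2 := hf1.up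
  have ha2 := ha1.up
  have h : DfT E (fun v => ZFSet.sep (fun y => ∃ x ∈ a v, ZFSet.pair x y ∈ f v)
      (ZFSet.sUnion (ZFSet.sUnion (f v)))) := inferInstance
  exact h

end Pool.UT
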