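import Pool.Agent.Lib.MP_9fc97b_ut.Cho
import Pool.Agent.Lib.MP_9fc97b_ut.Setting

/-!
# Coverings: monotonicity, unions, power sets, Cantor
-/

set_option autoImplicit false
set_option linter.unusedVariables false

open Set

namespace Pool.UT

open Pool.MP_3ade05_lc Pool.PC Pool.UL

variable {E : Set ZFSet.{0}} {n : ℕ}

/-- Coverings are inherited by subsets. -/
lemma cov_sub {a C C' : ZFSet.{0}} (h : Cov E a C) (hs : C' ⊆ C) : Cov E a C' := by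
  obtain ⟨f, hf, h1, h2⟩ := h
  exact ⟨f, hf, h1, fun y hy => h2 y (hs hy)⟩

/-- The identity covers every subset. -/
lemma cov_id [hT : TZ E] {a C : ZFSet.{0}} (ha : a ∈ E) (hs : C ⊆ a) : Cov E a C := by
  haveI : InE E a := ⟨ha⟩
  refine ⟨mkF (fun x => x) a, mem_of (E := E) (mkF (fun x => x) a), FunOn_mkF _ _,
    fun y hy => ⟨y, hs hy, pair_mem_mkF.2 ⟨hs hy, rfl⟩⟩⟩

/-- Composition of coverings. -/
lemma cov_trans [hT : TZ E] {a b C : ZFSet.{0}} (ha : a ∈ E) (h : Cov E b C) (h' : Cov E a b) :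
    Cov E a C := by
  obtain ⟨f, hf, h1, h2⟩ := h
  obtain ⟨g, hg, h3, h4⟩ := h'
  haveI : InE E a := ⟨ha⟩
  haveI : InE E f := ⟨hf⟩
  haveI : InE E g := ⟨hg⟩
  refine ⟨mkF (fun x => ap f (ap g x)) a, mem_of (E := E) (mkF (fun x => ap f (ap g x)) a),
    FunOn_mkF _ _, fun y hy => ?_⟩
  obtain ⟨z, hz, hzy⟩ := h2 y hy
  obtain ⟨x, hx, hxz⟩ := h4 z hz
  refine ⟨x, hx, pair_mem_mkF.2 ⟨hx, ?_⟩⟩
  rw [(FunOn.ap_eq h3 hx).1 hxz, (FunOn.ap_eq h1 hz).1 hzy]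

/-- A larger index set covers as well. -/
lemma cov_mono [hT : TZ E] {a b C : ZFSet.{0}} (hb : b ∈ E) (hs : a ⊆ b) (h : Cov E a C) :
    Cov E b C := cov_trans hb h (cov_id hb hs)

/-- The union of the sets `C i`, `i ∈ r`, which are covered by `r`, is covered by `r`, if `r × r`
is covered by `r`. -/
theorem cov_union [hT : TC E] {r : ZFSet.{0}} (hr : r ∈ E) (hsq : Sq E r)
    (C : ZFSet.{0} → ZFSet.{0}) [hC : DfT E (fun v : Fin 1 → ZFSet.{0} => C (v 0))]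
    (h : ∀ i ∈ r, Cov E r (C i)) {D : ZFSet.{0}} (hD : ∀ y ∈ D, ∃ i ∈ r, y ∈ C i) : Cov E r D := by
  haveI : InE E r := ⟨hr⟩
  set Un : ZFSet.{0} := ZFSet.sUnion (img C r) with hUn
  have hUnE : Un ∈ E := by
    have h1 : DfT E (fun _ : Fin 0 → ZFSet.{0} => img C r) :=
      DfT.instImg (F := fun x (_ : Fin 0 → ZFSet.{0}) => C x) (t := fun _ => r) (hF := hC)
    exact sUnion_mem (mem_of (E := E) (img C r) (h := h1))
  haveI : InE E Un := ⟨hUnE⟩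
  have hmU : ∀ i ∈ r, ∀ y ∈ C i, y ∈ Un := by
    intro i hi y hy
    rw [hUn, ZFSet.mem_sUnion]
    exact ⟨C i, mem_img.2 ⟨i, hi, rfl⟩, hy⟩
  -- choice of the partial functions
  have hPU : pw E (prd r Un) ∈ E := mem_of (E := E) (pw E (prd r Un))
  have hC1 : DfT E (fun v : Fin 2 → ZFSet.{0} => C (v 0)) :=
    ⟨fun v hv => hC.mem (fun _ => v 0) (fun _ => hv 0), hC.graph.ren ![0, 1]⟩
  obtain ⟨G, hG, hG1, hG2⟩ := choose_fun (E := E) (fun i z =>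
    (∀ x ∈ r, ∀ y ∈ Un, ∀ y' ∈ Un, ZFSet.pair x y ∈ z → ZFSet.pair x y' ∈ z → y = y') ∧
      ∀ y ∈ C i, ∃ x ∈ r, ZFSet.pair x y ∈ z) (hR := by
        have g1 : Df E (fun v : Fin 2 → ZFSet.{0} => ∀ x ∈ r, ∀ y ∈ Un, ∀ y' ∈ Un,
          ZFSet.pair x y ∈ v 1 → ZFSet.pair x y' ∈ v 1 → y = y') := inferInstance
        have g2 : Df E (fun v : Fin 2 → ZFSet.{0} => ∀ y ∈ C (v 0), ∃ x ∈ r,
          ZFSet.pair x y ∈ v 1) := inferInstance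
        exact Df.instAnd (hP := g1) (hQ := g2)) hr hPU (by
    intro i hi
    obtain ⟨g, hg, hg1, hg2⟩ := h i hi
    haveI : InE E g := ⟨hg⟩
    refine ⟨g ∩ prd r Un, mem_pw.2 ⟨mem_of (E := E) (g ∩ prd r Un), ?_⟩, ?_, ?_⟩
    · intro z hz
      exact (ZFSet.mem_inter.1 hz).2
    · intro x hx y _ y' _ h1 h2
      exact (hg1.2 x hx).unique (ZFSet.mem_inter.1 h1).1 (ZFSet.mem_inter.1 h2).1
    · intro y hy
      obtain ⟨x, hx, hxy⟩ := hg2 y hy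
      exact ⟨x, hx, ZFSet.mem_inter.2 ⟨hxy, pair_mem_prd.2 ⟨hx, hmU i hi y hy⟩⟩⟩)
  haveI : InE E G := ⟨hG⟩
  obtain ⟨f, hf, hf1, hf2⟩ := hsq
  haveI : InE E f := ⟨hf⟩
  set F : ZFSet.{0} → ZFSet.{0} := fun x => ZFSet.sUnion (ZFSet.sep (fun y => ∃ i ∈ r, ∃ x' ∈ r,
    ZFSet.pair x (ZFSet.pair i x') ∈ f ∧ ZFSet.pair x' y ∈ ap G i) Un) with hF
  have hFE : mkF F r ∈ E := by
    have h1 : DfT E (fun v : Fin 1 → ZFSet.{0} => F (v 0)) := by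
      have h2 : DfT E (fun v : Fin 1 → ZFSet.{0} => ZFSet.sUnion (ZFSet.sep (fun y => ∃ i ∈ r,
        ∃ x' ∈ r, ZFSet.pair (v 0) (ZFSet.pair i x') ∈ f ∧ ZFSet.pair x' y ∈ ap G i) Un)) :=
        inferInstance
      exact h2
    exact mem_of (E := E) (mkF F r) (h := DfT.instMkF (F := fun x (_ : Fin 0 → ZFSet.{0}) => F x)
      (t := fun _ => r) (hF := h1))
  refine ⟨mkF F r, hFE, FunOn_mkF _ _, fun y hy => ?_⟩
  obtain ⟨i, hi, hyi⟩ := hD y hy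
  obtain ⟨g1, g2⟩ := hG2 i hi
  obtain ⟨x', hx', hxy⟩ := g2.2 y hyi
  obtain ⟨x, hx, hxi⟩ := hf2 i hi x' hx'
  refine ⟨x, hx, pair_mem_mkF.2 ⟨hx, ?_⟩⟩
  rw [hF]
  have h1 : ZFSet.sep (fun y => ∃ i ∈ r, ∃ x' ∈ r,
    ZFSet.pair x (ZFSet.pair i x') ∈ f ∧ ZFSet.pair x' y ∈ ap G i) Un = {y} := by
    ext z
    rw [ZFSet.mem_sep, ZFSet.mem_singleton]
    constructor
    · rintro ⟨hz, i2, hi2, x2, hx2, h3, h4⟩
      have h5 := (hf1.2 x hx).unique hxi h3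
      obtain ⟨e1, e2⟩ := ZFSet.pair_injective h5
      subst e1
      subst e2
      exact g2.1 x' hx' z hz y (hmU i hi y hyi) h4 hxy
    · rintro rfl
      exact ⟨hmU i hi _ hyi, i, hi, x', hx', hxi, hxy⟩
  show y = ZFSet.sUnion _
  rw [h1, ZFSet.sUnion_singleton]

/-- The image of a covered set is covered. -/
lemma cov_img [hT : TZ E] {r a : ZFSet.{0}} (hr : r ∈ E) (h : Cov E r a)
    (F : ZFSet.{0} → ZFSet.{0}) [hF : DfT E (fun v : Fin 1 → ZFSet.{0} => F (v 0))] :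
    Cov E r (img F a) := by
  obtain ⟨f, hf, h1, h2⟩ := h
  haveI : InE E r := ⟨hr⟩
  haveI : InE E f := ⟨hf⟩
  have hE : mkF (fun x => F (ap f x)) r ∈ E := by
    have g1 : DfT E (fun v : Fin 1 → ZFSet.{0} => F (ap f (v 0))) :=
      DfT.mk1 (F := F) (fun x hx => hF.mem (fun _ => x) (fun _ => hx)) hF.graph inferInstance
    exact mem_of (E := E) (mkF (fun x => F (ap f x)) r)
      (h := DfT.instMkF (F := fun x (_ : Fin 0 → ZFSet.{0}) => F (ap f x)) (t := fun _ => r)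
        (hF := g1))
  refine ⟨mkF (fun x => F (ap f x)) r, hE, FunOn_mkF _ _, fun y hy => ?_⟩
  obtain ⟨z, hz, rfl⟩ := mem_img.1 hy
  obtain ⟨x, hx, hxz⟩ := h2 z hz
  refine ⟨x, hx, pair_mem_mkF.2 ⟨hx, ?_⟩⟩
  rw [(FunOn.ap_eq h1 hx).1 hxz]

/-- If `b` is covered by `a` then the subsets of `b` are covered by everything which covers the
subsets of `a`. -/
lemma powLe_cov [hT : TZ E] {a b d : ZFSet.{0}} (hd : d ∈ E) (ha : a ∈ E) (hb : b ∈ E)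
    (h : Cov E a b) (hP : PowLe E a d) : PowLe E b d := by
  obtain ⟨f, hf, h1, h2⟩ := h
  obtain ⟨g, hg, h3, h4⟩ := hP
  haveI : InE E a := ⟨ha⟩
  haveI : InE E b := ⟨hb⟩
  haveI : InE E d := ⟨hd⟩
  haveI : InE E f := ⟨hf⟩
  haveI : InE E g := ⟨hg⟩
  refine ⟨mkF (fun x => im f (ap g x ∩ a)) d, mem_of (E := E) (mkF (fun x => im f (ap g x ∩ a)) d),
    FunOn_mkF _ _, fun y hy hyb => ?_⟩
  haveI : InE E y := ⟨hy⟩
  obtain ⟨x, hx, hxy⟩ := h4 (ZFSet.sep (fun z => ap f z ∈ y) a)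
    (mem_of (E := E) (ZFSet.sep (fun z => ap f z ∈ y) a)) (fun z hz => (ZFSet.mem_sep.1 hz).1)
  refine ⟨x, hx, pair_mem_mkF.2 ⟨hx, ?_⟩⟩
  rw [(FunOn.ap_eq h3 hx).1 hxy]
  ext z
  rw [mem_im]
  constructor
  · intro hz
    obtain ⟨w, hw, hwz⟩ := h2 z (hyb hz)
    have h5 := (FunOn.ap_eq h1 hw).1 hwz
    refine ⟨w, ZFSet.mem_inter.2 ⟨ZFSet.mem_sep.2 ⟨hw, ?_⟩, hw⟩, hwz⟩
    rw [h5]
    exact hz
  · rintro ⟨w, hw, hwz⟩
    obtain ⟨h5, h6⟩ := ZFSet.mem_inter.1 hw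
    have h7 := (ZFSet.mem_sep.1 h5).2
    rwa [(FunOn.ap_eq h1 h6).1 hwz] at h7

/-- Products of covered sets. -/
lemma cov_prd [hT : TZ E] {r a b : ZFSet.{0}} (hr : r ∈ E) (hsq : Sq E r) (ha : Cov E r a)
    (hb : Cov E r b) : Cov E r (prd a b) := by
  obtain ⟨f, hf, h1, h2⟩ := ha
  obtain ⟨g, hg, h3, h4⟩ := hb
  obtain ⟨k, hk, h5, h6⟩ := hsq
  haveI : InE E r := ⟨hr⟩
  haveI : InE E f := ⟨hf⟩
  haveI : InE E g := ⟨hg⟩
  haveI : InE E k := ⟨hk⟩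
  have h7 : Cov E r (prd r r) := ⟨k, hk, h5, fun y hy => by
    obtain ⟨u, hu, v, hv, rfl⟩ := mem_prd.1 hy
    exact h6 u hu v hv⟩
  refine cov_trans hr ?_ h7
  set F : ZFSet.{0} → ZFSet.{0} := fun p => ZFSet.sUnion (ZFSet.sep (fun z => ∃ u ∈ r, ∃ v ∈ r,
    p = ZFSet.pair u v ∧ z = ZFSet.pair (ap f u) (ap g v)) (prd (im f r) (im g r))) with hF
  have hFE : mkF F (prd r r) ∈ E := by
    have h1 : DfT E (fun v : Fin 1 → ZFSet.{0} => F (v 0)) := by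
      have h2 : DfT E (fun p : Fin 1 → ZFSet.{0} => ZFSet.sUnion (ZFSet.sep (fun z => ∃ u ∈ r,
        ∃ v ∈ r, p 0 = ZFSet.pair u v ∧ z = ZFSet.pair (ap f u) (ap g v))
        (prd (im f r) (im g r)))) := inferInstance
      exact h2
    exact mem_of (E := E) (mkF F (prd r r))
      (h := DfT.instMkF (F := fun x (_ : Fin 0 → ZFSet.{0}) => F x) (t := fun _ => prd r r)
        (hF := h1))
  refine ⟨mkF F (prd r r), hFE, FunOn_mkF _ _, fun y hy => ?_⟩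
  obtain ⟨y1, hy1, y2, hy2, rfl⟩ := mem_prd.1 hy
  obtain ⟨u, hu, hu'⟩ := h2 y1 hy1
  obtain ⟨v, hv, hv'⟩ := h4 y2 hy2
  have e1 := (FunOn.ap_eq h1 hu).1 hu'
  have e2 := (FunOn.ap_eq h3 hv).1 hv'
  refine ⟨ZFSet.pair u v, pair_mem_prd.2 ⟨hu, hv⟩, pair_mem_mkF.2 ⟨pair_mem_prd.2 ⟨hu, hv⟩, ?_⟩⟩
  have h8 : ZFSet.sep (fun z => ∃ u' ∈ r, ∃ v' ∈ r, ZFSet.pair u v = ZFSet.pair u' v' ∧
      z = ZFSet.pair (ap f u') (ap g v')) (prd (im f r) (im g r)) = {ZFSet.pair y1 y2} := by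
    ext z
    rw [ZFSet.mem_sep, ZFSet.mem_singleton]
    constructor
    · rintro ⟨_, u', _, v', _, h9, h10⟩
      obtain ⟨rfl, rfl⟩ := ZFSet.pair_injective h9
      rw [h10, e1, e2]
    · rintro rfl
      refine ⟨pair_mem_prd.2 ⟨mem_im.2 ⟨u, hu, hu'⟩, mem_im.2 ⟨v, hv, hv'⟩⟩, u, hu, v, hv, rfl, ?_⟩
      rw [e1, e2]
  show _ = ZFSet.sUnion _
  rw [h8, ZFSet.sUnion_singleton]

/-- The functions from `a` to `b` are covered by `d` if `P(a)` is covered by `d`, and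
`a × b` is covered by `a`. -/
lemma fun_cov [hT : TZ E] {a b d : ZFSet.{0}} (hd : d ∈ E) (ha : a ∈ E) (hb : b ∈ E)
    (h : Cov E a (prd a b)) (hP : PowLe E a d) : ∃ F ∈ E, FunOn F d ∧
      ∀ w ∈ E, FunOn w a → (∀ x ∈ a, ap w x ∈ b) → ∃ i ∈ d, ap F i = w := by
  haveI : InE E a := ⟨ha⟩
  haveI : InE E b := ⟨hb⟩
  obtain ⟨F, hF, h1, h2⟩ := powLe_cov hd ha (mem_of (E := E) (prd a b)) h hP
  refine ⟨F, hF, h1, fun w hw hwa hwb => ?_⟩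
  obtain ⟨x, hx, hxw⟩ := h2 w hw (fun z hz => by
    obtain ⟨x, hx, y, rfl⟩ := hwa.1 z hz
    have h3 := (FunOn.ap_eq hwa hx).1 hz
    rw [← h3]
    exact pair_mem_prd.2 ⟨hx, hwb x hx⟩)
  exact ⟨x, hx, (FunOn.ap_eq h1 hx).1 hxw⟩

/-- CANTOR. -/
theorem cantor [hT : TZ E] {a : ZFSet.{0}} (ha : a ∈ E) : ¬ PowLe E a a := by
  rintro ⟨f, hf, h1, h2⟩
  haveI : InE E a := ⟨ha⟩
  haveI : InE E f := ⟨hf⟩
  obtain ⟨x, hx, hxy⟩ := h2 (ZFSet.sep (fun z => z ∉ ap f z) a)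
    (mem_of (E := E) (ZFSet.sep (fun z => z ∉ ap f z) a)) (fun z hz => (ZFSet.mem_sep.1 hz).1)
  have h3 := (FunOn.ap_eq h1 hx).1 hxy
  by_cases h4 : x ∈ ap f x
  · have h5 := h4
    rw [h3] at h5
    exact (ZFSet.mem_sep.1 h5).2 h4
  · have h5 : x ∈ ZFSet.sep (fun z => z ∉ ap f z) a := ZFSet.mem_sep.2 ⟨hx, h4⟩
    rw [← h3] at h5
    exact h4 h5

/-- CANTOR, with an intermediate set. -/
theorem cantor' [hT : TZ E] {a b : ZFSet.{0}} (ha : a ∈ E) (hb : b ∈ E) (h : PowLe E a b) :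
    ¬ Cov E a b := by
  rintro ⟨g, hg, h3, h4⟩
  obtain ⟨f, hf, h1, h2⟩ := h
  haveI : InE E a := ⟨ha⟩
  haveI : InE E f := ⟨hf⟩
  haveI : InE E g := ⟨hg⟩
  refine cantor ha ⟨mkF (fun x => ap f (ap g x)) a,
    mem_of (E := E) (mkF (fun x => ap f (ap g x)) a), FunOn_mkF _ _, fun y hy hya => ?_⟩
  obtain ⟨z, hz, hzy⟩ := h2 y hy hya
  obtain ⟨x, hx, hxz⟩ := h4 z hz
  refine ⟨x, hx, pair_mem_mkF.2 ⟨hx, ?_⟩⟩
  rw [(FunOn.ap_eq h3 hx).1 hxz, (FunOn.ap_eq h1 hz).1 hzy]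

end Pool.UT
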