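import Pool.Agent.Lib.MP_9fc97b_ut.Dfn

/-!
# Basic operations and relations of set theory are definable; separation for Lean predicates
-/

set_option autoImplicit false
set_option linter.unusedVariables false

open Set

namespace Pool.UT

open Pool.MP_3ade05_lc Pool.PC

variable {E : Set ZFSet.{0}} {n : ℕ} [hT : TZ E]

/-! ### Bounded quantifiers -/

instance Df.instBall {t : (Fin n → ZFSet.{0}) → ZFSet.{0}}
    {P : ZFSet.{0} → (Fin n → ZFSet.{0}) → Prop} [ht : DfT E t]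
    [hP : Df E (fun v : Fin (n + 1) → ZFSet.{0} => P (v 0) (fun i => v i.succ))] :
    Df E (fun v => ∀ x ∈ t v, P x v) := by
  have h1 := ht.up
  refine (Df.all (P := fun x v => x ∈ t v → P x v)
    (Df.imp (Df.instMem (s := fun v : Fin (n + 1) → ZFSet.{0} => v 0)) hP)).congr fun v hv => ?_
  constructor
  · intro h x hx
    exact h x (hT.trans _ (ht.mem v hv) x hx) hx
  · intro h x _ hx
    exact h x hx

instance Df.instBex {t : (Fin n → ZFSet.{0}) → ZFSet.{0}}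
    {P : ZFSet.{0} → (Fin n → ZFSet.{0}) → Prop} [ht : DfT E t]
    [hP : Df E (fun v : Fin (n + 1) → ZFSet.{0} => P (v 0) (fun i => v i.succ))] :
    Df E (fun v => ∃ x ∈ t v, P x v) := by
  have h1 := ht.up
  refine (Df.ex (P := fun x v => x ∈ t v ∧ P x v)
    (Df.instAnd (hP := (Df.instMem (s := fun v : Fin (n + 1) → ZFSet.{0} => v 0)))
      (hQ := hP))).congr fun v hv => ?_
  constructor
  · rintro ⟨x, _, hx, h⟩
    exact ⟨x, hx, h⟩
  · rintro ⟨x, hx, h⟩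
    exact ⟨x, hT.trans _ (ht.mem v hv) x hx, hx, h⟩

instance Df.instSub {s t : (Fin n → ZFSet.{0}) → ZFSet.{0}} [hs : DfT E s] [ht : DfT E t] :
    Df E (fun v => s v ⊆ t v) := by
  refine Df.comp2 (P := fun x y => x ⊆ y) ?_ hs ht
  have h : Df E (fun v : Fin 2 → ZFSet.{0} => ∀ x ∈ v 0, x ∈ v 1) := inferInstance
  exact h.congr fun v _ => Iff.rfl

/-! ### Separation and replacement -/

omit hT in
lemma cons0 (P : ZFSet.{0} → Prop) {m : ℕ} {φ : Fml (1 + m)} {w : Fin m → ZFSet.{0}}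
    (h : ∀ v : Fin 1 → ZFSet.{0}, (∀ i, v i ∈ E) → (Sat E φ (Fin.append v w) ↔ P (v 0))) :
    ∃ ψ : Fml (m + 1), ∀ x ∈ E, (Sat E ψ (Fin.cons x w) ↔ P x) := by
  refine ⟨φ.rename (Fin.addCases (fun _ => 0) Fin.succ), fun x hx => ?_⟩
  rw [Sat_rename, ← h (fun _ => x) (fun _ => hx)]
  have h1 : (fun j => (Fin.cons x w : Fin (m + 1) → ZFSet.{0})
      (Fin.addCases (m := 1) (fun _ => 0) Fin.succ j)) = Fin.append (fun _ => x) w := by
    funext j
    refine Fin.addCases (fun i => ?_) (fun i => ?_) j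
    · rw [Fin.addCases_left, Fin.append_left, Fin.cons_zero]
    · rw [Fin.addCases_right, Fin.append_right, Fin.cons_succ]
  rw [h1]

/-- Separation for Lean predicates: the class of `x` satisfying `P`, cut down to `a`, is a set. -/
theorem sep (P : ZFSet.{0} → Prop) [hP : Df E (fun v : Fin 1 → ZFSet.{0} => P (v 0))]
    {a : ZFSet.{0}} (ha : a ∈ E) : ZFSet.sep P a ∈ E := by
  obtain ⟨m, φ, w, hw, hφ⟩ := hP.out
  obtain ⟨ψ, hψ⟩ := cons0 P hφ
  obtain ⟨b, hb, h⟩ := hT.zf.separation m ψ w hw a ha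
  have h1 : ZFSet.sep P a = b := by
    ext x
    rw [ZFSet.mem_sep]
    constructor
    · rintro ⟨h2, h3⟩
      have hx := hT.trans a ha x h2
      exact (h x hx).2 ⟨h2, (hψ x hx).2 h3⟩
    · intro h2
      have hx := hT.trans b hb x h2
      obtain ⟨h3, h4⟩ := (h x hx).1 h2
      exact ⟨h3, (hψ x hx).1 h4⟩
  rw [h1]
  exact hb

/-- Replacement for Lean functions. -/
theorem repl (F : ZFSet.{0} → ZFSet.{0})
    [hF : Df E (fun v : Fin 2 → ZFSet.{0} => v 0 = F (v 1))] {a : ZFSet.{0}} (ha : a ∈ E)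
    (hE : ∀ x ∈ a, F x ∈ E) : ∃ b ∈ E, ∀ y, y ∈ b ↔ ∃ x ∈ a, y = F x := by
  obtain ⟨m, φ, w, hw, hφ⟩ := hF.out
  have h1 : ∃ ψ : Fml (m + 2), ∀ x ∈ E, ∀ y ∈ E,
      (Sat E ψ (Fin.cons x (Fin.cons y w)) ↔ y = F x) := by
    refine ⟨φ.rename (Fin.addCases ![1, 0] (fun i => i.succ.succ)), fun x hx y hy => ?_⟩
    rw [Sat_rename]
    have h2 := hφ ![y, x] (by intro i; fin_cases i; exacts [hy, hx])
    have h3 : (fun j => (Fin.cons x (Fin.cons y w) : Fin (m + 2) → ZFSet.{0})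
        (Fin.addCases (m := 2) ![1, 0] (fun i => i.succ.succ) j)) = Fin.append ![y, x] w := by
      funext j
      refine Fin.addCases (fun i => ?_) (fun i => ?_) j
      · rw [Fin.addCases_left, Fin.append_left]
        fin_cases i <;> rfl
      · rw [Fin.addCases_right, Fin.append_right, Fin.cons_succ, Fin.cons_succ]
    rw [h3, h2]
    rfl
  obtain ⟨ψ, hψ⟩ := h1
  obtain ⟨b, hb, h⟩ := hT.zf.replacement m ψ w hw a ha (fun x hx hxa =>
    ⟨F x, ⟨hE x hxa, (hψ x hx _ (hE x hxa)).2 rfl⟩, fun y hy => (hψ x hx y hy.1).1 hy.2⟩)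
  refine ⟨b, hb, fun y => ⟨fun hy => ?_, ?_⟩⟩
  · have hyE := hT.trans b hb y hy
    obtain ⟨x, hx, hxa, hs⟩ := (h y hyE).1 hy
    exact ⟨x, hxa, (hψ x hx y hyE).1 hs⟩
  · rintro ⟨x, hx, rfl⟩
    have hxE := hT.trans a ha x hx
    exact (h _ (hE x hx)).2 ⟨x, hxE, hx, (hψ x hxE _ (hE x hx)).2 rfl⟩

/-! ### Operations -/

lemma upair_mem {x y : ZFSet.{0}} (hx : x ∈ E) (hy : y ∈ E) : ({x, y} : ZFSet.{0}) ∈ E := by
  obtain ⟨z, hz, h⟩ := hT.zf.pairing x hx y hy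
  have : ({x, y} : ZFSet.{0}) = z := by
    ext w
    rw [ZFSet.mem_pair]
    constructor
    · intro h1
      have hw : w ∈ E := by
        rcases h1 with rfl | rfl
        · exact hx
        · exact hy
      exact (h w hw).2 h1
    · intro h1
      exact (h w (hT.trans z hz w h1)).1 h1
  rw [this]
  exact hz

lemma sing_mem {x : ZFSet.{0}} (hx : x ∈ E) : ({x} : ZFSet.{0}) ∈ E := by
  have h := upair_mem hx hx
  rwa [show ({x, x} : ZFSet.{0}) = {x} by ext w; simp] at h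

lemma pair_mem {x y : ZFSet.{0}} (hx : x ∈ E) (hy : y ∈ E) : ZFSet.pair x y ∈ E :=
  upair_mem (sing_mem hx) (upair_mem hx hy)

lemma sUnion_mem {x : ZFSet.{0}} (hx : x ∈ E) : ZFSet.sUnion x ∈ E := by
  obtain ⟨u, hu, h⟩ := hT.zf.union x hx
  have : ZFSet.sUnion x = u := by
    ext w
    rw [ZFSet.mem_sUnion]
    constructor
    · rintro ⟨y, hy, hw⟩
      have hyE := hT.trans x hx y hy
      exact (h w (hT.trans y hyE w hw)).2 ⟨y, hyE, hy, hw⟩
    · intro hw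
      obtain ⟨y, _, hy, hw'⟩ := (h w (hT.trans u hu w hw)).1 hw
      exact ⟨y, hy, hw'⟩
  rw [this]
  exact hu

lemma union_mem {x y : ZFSet.{0}} (hx : x ∈ E) (hy : y ∈ E) : x ∪ y ∈ E := by
  have h := sUnion_mem (upair_mem hx hy)
  rwa [show ZFSet.sUnion ({x, y} : ZFSet.{0}) = x ∪ y by ext w; simp] at h

lemma insert_mem {x y : ZFSet.{0}} (hx : x ∈ E) (hy : y ∈ E) :
    (insert x y : ZFSet.{0}) ∈ E := by
  have h := union_mem (sing_mem hx) hy
  rwa [show ({x} : ZFSet.{0}) ∪ y = insert x y by ext w; simp] at h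

lemma InE.of_mem {a x : ZFSet.{0}} (ha : a ∈ E) (hx : x ∈ a) : InE E x := ⟨hT.trans a ha x hx⟩

instance DfT.instUpair {s t : (Fin n → ZFSet.{0}) → ZFSet.{0}} [hs : DfT E s] [ht : DfT E t] :
    DfT E (fun v => ({s v, t v} : ZFSet.{0})) := by
  refine DfT.mk2 (F := fun x y => ({x, y} : ZFSet.{0})) (fun x hx y hy => upair_mem hx hy) ?_ hs ht
  have h : Df E (fun v : Fin 3 → ZFSet.{0} => (∀ z ∈ v 0, z = v 1 ∨ z = v 2) ∧ v 1 ∈ v 0 ∧
    v 2 ∈ v 0) := inferInstance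
  refine h.congr fun v _ => ?_
  constructor
  · rintro ⟨h1, h2, h3⟩
    ext z
    rw [ZFSet.mem_pair]
    refine ⟨h1 z, ?_⟩
    rintro (rfl | rfl)
    · exact h2
    · exact h3
  · intro h1
    rw [h1]
    simp

instance DfT.instSing {s : (Fin n → ZFSet.{0}) → ZFSet.{0}} [hs : DfT E s] :
    DfT E (fun v => ({s v} : ZFSet.{0})) := by
  refine DfT.mk1 (F := fun x => ({x} : ZFSet.{0})) (fun x hx => sing_mem hx) ?_ hs
  have h : Df E (fun v : Fin 2 → ZFSet.{0} => (∀ z ∈ v 0, z = v 1) ∧ v 1 ∈ v 0) := inferInstance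
  refine h.congr fun v _ => ?_
  constructor
  · rintro ⟨h1, h2⟩
    ext z
    rw [ZFSet.mem_singleton]
    refine ⟨h1 z, ?_⟩
    rintro rfl
    exact h2
  · intro h1
    rw [h1]
    simp

instance DfT.instPair {s t : (Fin n → ZFSet.{0}) → ZFSet.{0}} [hs : DfT E s] [ht : DfT E t] :
    DfT E (fun v => ZFSet.pair (s v) (t v)) := by
  have h : DfT E (fun v => ({{s v}, {s v, t v}} : ZFSet.{0})) := inferInstance
  exact h

instance DfT.instSUnion {s : (Fin n → ZFSet.{0}) → ZFSet.{0}} [hs : DfT E s] :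
    DfT E (fun v => ZFSet.sUnion (s v)) := by
  refine DfT.mk1 (F := fun x => ZFSet.sUnion x) (fun x hx => sUnion_mem hx) ?_ hs
  have h : Df E (fun v : Fin 2 → ZFSet.{0} => (∀ z ∈ v 0, ∃ y ∈ v 1, z ∈ y) ∧
    ∀ y ∈ v 1, ∀ z ∈ y, z ∈ v 0) := inferInstance
  refine h.congr fun v _ => ?_
  constructor
  · rintro ⟨h1, h2⟩
    ext z
    rw [ZFSet.mem_sUnion]
    refine ⟨h1 z, ?_⟩
    rintro ⟨y, hy, hz⟩
    exact h2 y hy z hz
  · intro h1
    rw [h1]
    simp only [ZFSet.mem_sUnion, imp_self, implies_true, true_and]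
    exact fun y hy z hz => ⟨y, hy, hz⟩

instance DfT.instUnion {s t : (Fin n → ZFSet.{0}) → ZFSet.{0}} [hs : DfT E s] [ht : DfT E t] :
    DfT E (fun v => s v ∪ t v) := by
  have h : DfT E (fun v => ZFSet.sUnion ({s v, t v} : ZFSet.{0})) := inferInstance
  have h1 : (fun v => s v ∪ t v) = (fun v => ZFSet.sUnion ({s v, t v} : ZFSet.{0})) := by
    funext v
    ext w
    simp
  rw [h1]
  exact h

instance DfT.instInsert {s t : (Fin n → ZFSet.{0}) → ZFSet.{0}} [hs : DfT E s] [ht : DfT E t] :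
    DfT E (fun v => (insert (s v) (t v) : ZFSet.{0})) := by
  have h : DfT E (fun v => ({s v} : ZFSet.{0}) ∪ t v) := inferInstance
  have h1 : (fun v => (insert (s v) (t v) : ZFSet.{0})) = (fun v => ({s v} : ZFSet.{0}) ∪ t v) := by
    funext v
    ext w
    simp
  rw [h1]
  exact h

lemma diff_mem {x y : ZFSet.{0}} (hx : x ∈ E) (hy : y ∈ E) : x \ y ∈ E := by
  haveI : InE E y := ⟨hy⟩
  have h := sep (E := E) (fun z => z ∉ y) hx
  rwa [show ZFSet.sep (fun z => z ∉ y) x = x \ y by ext w; simp] at h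

lemma inter_mem {x y : ZFSet.{0}} (hx : x ∈ E) (hy : y ∈ E) : x ∩ y ∈ E := by
  haveI : InE E y := ⟨hy⟩
  have h := sep (E := E) (fun z => z ∈ y) hx
  rwa [show ZFSet.sep (fun z => z ∈ y) x = x ∩ y by ext w; simp] at h

instance DfT.instDiff {s t : (Fin n → ZFSet.{0}) → ZFSet.{0}} [hs : DfT E s] [ht : DfT E t] :
    DfT E (fun v => s v \ t v) := by
  refine DfT.mk2 (F := fun x y => x \ y) (fun x hx y hy => diff_mem hx hy) ?_ hs ht
  have h : Df E (fun v : Fin 3 → ZFSet.{0} => (∀ z ∈ v 0, z ∈ v 1 ∧ z ∉ v 2) ∧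
    ∀ z ∈ v 1, z ∉ v 2 → z ∈ v 0) := inferInstance
  refine h.congr fun v _ => ?_
  constructor
  · rintro ⟨h1, h2⟩
    ext z
    rw [ZFSet.mem_sdiff]
    exact ⟨h1 z, fun h => h2 z h.1 h.2⟩
  · intro h1
    rw [h1]
    simp only [ZFSet.mem_sdiff]
    exact ⟨fun z hz => hz, fun z hz hz' => ⟨hz, hz'⟩⟩

instance DfT.instInter {s t : (Fin n → ZFSet.{0}) → ZFSet.{0}} [hs : DfT E s] [ht : DfT E t] :
    DfT E (fun v => s v ∩ t v) := by
  refine DfT.mk2 (F := fun x y => x ∩ y) (fun x hx y hy => inter_mem hx hy) ?_ hs ht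
  have h : Df E (fun v : Fin 3 → ZFSet.{0} => (∀ z ∈ v 0, z ∈ v 1 ∧ z ∈ v 2) ∧
    ∀ z ∈ v 1, z ∈ v 2 → z ∈ v 0) := inferInstance
  refine h.congr fun v _ => ?_
  constructor
  · rintro ⟨h1, h2⟩
    ext z
    rw [ZFSet.mem_inter]
    exact ⟨h1 z, fun h => h2 z h.1 h.2⟩
  · intro h1
    rw [h1]
    simp only [ZFSet.mem_inter]
    exact ⟨fun z hz => hz, fun z hz hz' => ⟨hz, hz'⟩⟩

end Pool.UT
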