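import Pool.Agent.Lib.MP_ad72f3_pc.Pat

/-!
# The definitions used in the final statement of UL

Everything is about a transitive model `V` of `ZFC`; `FunOn`, `InfCard` are those of
`Pool/Agent/Lib/MP_ad72f3_pc/Pat.lean`.
-/

set_option autoImplicit false

open Set

namespace Pool.UL

open Pool.MP_3ade05_lc Pool.PC

/-- `c` is a singular cardinal of `V`: there is in `V` a cofinal function from a smaller ordinal. -/
def Singular (V : Set ZFSet.{0}) (c : ZFSet.{0}) : Prop :=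
  InfCard V c ∧ ∃ d ∈ c, ∃ f ∈ V, FunOn f d ∧ (∀ x ∈ d, ∀ y, ZFSet.pair x y ∈ f → y ∈ c) ∧
    ∀ z ∈ c, ∃ x ∈ d, ∃ y, ZFSet.pair x y ∈ f ∧ z ⊆ y

/-- In `V` there is a function with domain `d` whose range contains all subsets of `a`. -/
def PowLe (V : Set ZFSet.{0}) (a d : ZFSet.{0}) : Prop :=
  ∃ f ∈ V, FunOn f d ∧ ∀ y ∈ V, y ⊆ a → ∃ x ∈ d, ZFSet.pair x y ∈ f

/-- `c` is a strong limit cardinal of `V`. -/
def StrongLimit (V : Set ZFSet.{0}) (c : ZFSet.{0}) : Prop :=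
  InfCard V c ∧ ∀ a ∈ c, ∃ d ∈ c, PowLe V a d

/-- `V` satisfies: `2 ^ lam` is the cardinal `c`. -/
def PowIs (V : Set ZFSet.{0}) (lam c : ZFSet.{0}) : Prop :=
  InfCard V c ∧ PowLe V lam c ∧ ∀ d ∈ c, ¬ PowLe V lam d

/-- `V` satisfies: `u` is a uniform ultrafilter on the cardinal `lam`. -/
structure UnifUF (V : Set ZFSet.{0}) (lam u : ZFSet.{0}) : Prop where
  mem : u ∈ V
  sub : ∀ A ∈ u, A ⊆ lam
  up : ∀ A ∈ u, ∀ B ∈ V, B ⊆ lam → A ⊆ B → B ∈ u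
  inter : ∀ A ∈ u, ∀ B ∈ u, A ∩ B ∈ u
  ultra : ∀ A ∈ V, A ⊆ lam → (A ∈ u ↔ lam \ A ∉ u)
  unif : ∀ A ∈ u, ∀ d ∈ lam, ∀ f ∈ V, FunOn f d → ∃ x ∈ A, ∀ y ∈ d, ZFSet.pair y x ∉ f

/-- In `V` there is a family indexed by `d` which is a base of `u`. -/
def HasBase (V : Set ZFSet.{0}) (u d : ZFSet.{0}) : Prop :=
  ∃ F ∈ V, FunOn F d ∧ (∀ x ∈ d, ∀ B, ZFSet.pair x B ∈ F → B ∈ u) ∧
    ∀ A ∈ u, ∃ x ∈ d, ∃ B, ZFSet.pair x B ∈ F ∧ B ⊆ A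

/-- `V` satisfies: the ultrafilter number at `lam` is the cardinal `c`. -/
def UNumIs (V : Set ZFSet.{0}) (lam c : ZFSet.{0}) : Prop :=
  InfCard V c ∧ (∃ u, UnifUF V lam u ∧ HasBase V u c) ∧
    ∀ d ∈ c, ∀ u, UnifUF V lam u → ¬ HasBase V u d

end Pool.UL
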