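import Pool.Agent.Lib.MP_9fc97b_ut.TDef
import Pool.Agent.Lib.MP_9fc97b_ut.Hv
import Pool.Agent.Lib.MP_9fc97b_ut.Rec

/-!
# UL, theorem T, row TA0: omega
-/

set_option autoImplicit false
set_option linter.unusedVariables false

open Set

namespace Pool.UT

open Pool.MP_3ade05_lc Pool.PC Pool.UL

variable {E : Set ZFSet.{0}} [hT : TZ E] {n : ℕ}

lemma mem_omega {x : ZFSet.{0}} : x ∈ ZFSet.omega ↔ ∃ n, x = num n := by
  have key : ∀ n, num n = ZFSet.mk (PSet.ofNat n) := by
    intro n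
    induction n with
    | zero => rfl
    | succ n ih =>
      show insert (num n) (num n) = _
      rw [ih]
      rfl
  constructor
  · refine Quotient.inductionOn x fun y => ?_
    rintro ⟨⟨n⟩, hn⟩
    exact ⟨n, (ZFSet.sound hn).trans (key n).symm⟩
  · rintro ⟨n, rfl⟩
    induction n with
    | zero => exact ZFSet.omega_zero
    | succ n ih => exact ZFSet.omega_succ ih

/-- Row TA0.  `x ∈ E` inductive (axiom of infinity); `w` = the set of the `n ∈ x` which belong to
all inductive `y ∈ E` (`sep`).  `w` is inductive, and every `n ∈ w` is empty or `insert m m` with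
`m ∈ w` (otherwise `w \ {n}` is inductive); so every element of `w` is some `num k` (induction on
membership). -/
lemma omega_memE : ZFSet.omega ∈ E := by
  obtain ⟨a, ha, ⟨e, he, hea, he0⟩, hs⟩ := hT.zf.infinity
  have hemp : e = ∅ := by
    rw [ZFSet.eq_empty]
    exact fun z hz => he0 z (hT.trans e he z hz) hz
  have ha0 : (∅ : ZFSet.{0}) ∈ a := hemp ▸ hea
  have haS : ∀ y ∈ a, insert y y ∈ a := by
    intro y hy
    obtain ⟨z, hz, hza, h⟩ := hs y (hT.trans a ha y hy) hy
    have h1 : insert y y = z := by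
      ext w
      rw [ZFSet.mem_insert_iff]
      constructor
      · intro hw
        have hwE : w ∈ E := by
          rcases hw with rfl | hw
          · exact hT.trans a ha w hy
          · exact hT.trans y (hT.trans a ha y hy) w hw
        exact (h w hwE).2 hw.symm
      · intro hw
        exact ((h w (hT.trans z hz w hw)).1 hw).symm
    rw [h1]
    exact hza
  haveI : InE E a := ⟨ha⟩
  haveI hemE : InE E ∅ := ⟨hemp ▸ he⟩
  have hw : ZFSet.sep (fun n => ∀ y ∈ E, (∅ ∈ y ∧ ∀ m ∈ y, insert m m ∈ y) → n ∈ y) a ∈ E :=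
    sep (E := E) _ ha
  set w := ZFSet.sep (fun n => ∀ y ∈ E, (∅ ∈ y ∧ ∀ m ∈ y, insert m m ∈ y) → n ∈ y) a with hwdef
  have hw0 : (∅ : ZFSet.{0}) ∈ w := ZFSet.mem_sep.2 ⟨ha0, fun y _ h => h.1⟩
  have hwS : ∀ m ∈ w, insert m m ∈ w := fun m hm => by
    obtain ⟨h1, h2⟩ := ZFSet.mem_sep.1 hm
    exact ZFSet.mem_sep.2 ⟨haS m h1, fun y hy h => h.2 m (h2 y hy h)⟩
  have hnum : ∀ k, num k ∈ w := by
    intro k
    induction k with
    | zero => exact hw0
    | succ k ih => exact hwS _ ih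
  have hall : ∀ z ∈ w, ∃ k, z = num k := by
    intro z
    refine ZFSet.inductionOn z ?_
    intro z ih hz
    by_contra hne
    have hzE : z ∈ E := hT.trans w hw z hz
    have h1 : z ∈ w \ {z} := by
      refine (ZFSet.mem_sep.1 hz).2 _ (diff_mem hw (sing_mem hzE)) ⟨?_, ?_⟩
      · rw [ZFSet.mem_sdiff, ZFSet.mem_singleton]
        exact ⟨hw0, fun h => hne ⟨0, h.symm⟩⟩
      · intro m hm
        rw [ZFSet.mem_sdiff, ZFSet.mem_singleton] at hm ⊢
        refine ⟨hwS m hm.1, fun h => ?_⟩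
        obtain ⟨k, hk⟩ := ih m (by rw [← h]; simp) hm.1
        exact hne ⟨k + 1, by rw [← h, hk]; rfl⟩
    rw [ZFSet.mem_sdiff, ZFSet.mem_singleton] at h1
    exact h1.2 rfl
  have : ZFSet.omega = w := by
    ext x
    rw [mem_omega]
    exact ⟨fun ⟨k, hk⟩ => hk ▸ hnum k, fun h => hall x h⟩
  rw [this]
  exact hw

instance instOmega : InE E ZFSet.omega := ⟨omega_memE⟩

/-! ### Instances for the predicates of `TDef` -/

instance Df.instOF {lam : ZFSet.{0}} [hl : InE E lam] {z : (Fin n → ZFSet.{0}) → ZFSet.{0}}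
    [hz : DfT E z] : Df E (fun v => OF E lam (z v)) := by
  have hz1 := hz.up
  have h : Df E (fun v => FunOn (z v) lam ∧ ∀ x ∈ lam, ap (z v) x ∈ ZFSet.omega) := inferInstance
  exact h.congr fun v hv => ⟨fun h => ⟨hz.mem v hv, h.1, h.2⟩, fun h => ⟨h.fn, h.val⟩⟩

instance Df.instThin {lam tF : ZFSet.{0}} [hl : InE E lam] [ht : InE E tF]
    {z : (Fin n → ZFSet.{0}) → ZFSet.{0}} [hz : DfT E z] :
    Df E (fun v => Thin E lam tF (z v)) := by
  have hz1 := hz.up
  have hz2 := hz1.up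
  have h : Df E (fun v => ∀ n ∈ ZFSet.omega,
    Cov E (tS tF n) (ZFSet.sep (fun x => ap (z v) x ⊆ n) lam)) := inferInstance
  exact h

instance Df.instEqU {lam u : ZFSet.{0}} [hl : InE E lam] [hu : InE E u]
    {z z' : (Fin n → ZFSet.{0}) → ZFSet.{0}} [hz : DfT E z] [hz' : DfT E z'] :
    Df E (fun v => EqU lam u (z v) (z' v)) := by
  have hz1 := hz.up
  have hz1' := hz'.up
  have h : Df E (fun v => ZFSet.sep (fun x => ap (z v) x = ap (z' v) x) lam ∈ u) := inferInstance
  exact h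

instance Df.instLeU {lam u : ZFSet.{0}} [hl : InE E lam] [hu : InE E u]
    {z z' : (Fin n → ZFSet.{0}) → ZFSet.{0}} [hz : DfT E z] [hz' : DfT E z'] :
    Df E (fun v => LeU lam u (z v) (z' v)) := by
  have hz1 := hz.up
  have hz1' := hz'.up
  have h : Df E (fun v => ZFSet.sep (fun x => ap (z v) x ⊆ ap (z' v) x) lam ∈ u) := inferInstance
  exact h

instance Df.instLtU {lam u : ZFSet.{0}} [hl : InE E lam] [hu : InE E u]
    {z z' : (Fin n → ZFSet.{0}) → ZFSet.{0}} [hz : DfT E z] [hz' : DfT E z'] :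
    Df E (fun v => LtU lam u (z v) (z' v)) := by
  have hz1 := hz.up
  have hz1' := hz'.up
  have h : Df E (fun v => ZFSet.sep (fun x => ap (z v) x ∈ ap (z' v) x) lam ∈ u) := inferInstance
  exact h

end Pool.UT
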