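import Pool.Agent.Lib.MP_9fc97b_ut.TB4

/-!
# UL, theorem T, row TB2: unions of families of covered sets
-/

set_option autoImplicit false
set_option linter.unusedVariables false

open Set

namespace Pool.UT

open Pool.MP_3ade05_lc Pool.PC Pool.UL

variable {E : Set ZFSet.{0}} [hT : TC E]

/-- Row TB2: unions.  If `D` is empty this is trivial (`Cov.of_sub`).  Otherwise fix `d₀ ∈ D`; by
`choose_fun` (values in the power set of `r × D`) choose for `i ∈ s` a function `f_i : r → D` of `E`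
whose range contains `C i ∩ D`; compose with `r → r × r` and `r → s`. -/
theorem _root_.Pool.UL.Cov.unionF {r s D : ZFSet.{0}} (hr : r ∈ E) (hs : s ∈ E) (hD : D ∈ E)
    (hsq : Sq E r) (hsr : Cov E r s) (C : ZFSet.{0} → ZFSet.{0})
    [hC : DfT E (fun v : Fin 1 → ZFSet.{0} => C (v 0))] (h : ∀ i ∈ s, Cov E r (C i))
    (hU : ∀ y ∈ D, ∃ i ∈ s, y ∈ C i) : Cov E r D := by
  obtain ⟨g, hg, hg1, hg2⟩ := hsr
  haveI : InE E r := ⟨hr⟩
  haveI : InE E s := ⟨hs⟩
  haveI : InE E g := ⟨hg⟩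
  have g1 : DfT E (fun v : Fin 1 → ZFSet.{0} => C (ap g (v 0))) :=
    DfT.mk1 (F := C) (fun x hx => hC.mem (fun _ => x) (fun _ => hx)) hC.graph inferInstance
  have g2 : Df E (fun v : Fin 2 → ZFSet.{0} => ap g (v 1) ∈ s) := inferInstance
  have g3 : DfT E (fun v : Fin 1 → ZFSet.{0} =>
      ZFSet.sep (fun _ => ap g (v 0) ∈ s) (C (ap g (v 0)))) :=
    DfT.instSep (P := fun _ (v : Fin 1 → ZFSet.{0}) => ap g (v 0) ∈ s)
      (t := fun v => C (ap g (v 0))) (hP := g2) (ht := g1)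
  refine cov_union hr hsq (fun x => ZFSet.sep (fun _ => ap g x ∈ s) (C (ap g x))) (hC := g3) ?_ ?_
  · intro x hx
    by_cases hxs : ap g x ∈ s
    · exact cov_sub (h _ hxs) (fun y hy => (ZFSet.mem_sep.1 hy).1)
    · refine cov_id hr ?_
      intro y hy
      exact absurd (ZFSet.mem_sep.1 hy).2 hxs
  · intro y hy
    obtain ⟨i, hi, hyi⟩ := hU y hy
    obtain ⟨x, hx, hxi⟩ := hg2 i hi
    have e1 := (FunOn.ap_eq hg1 hx).1 hxi
    refine ⟨x, hx, ZFSet.mem_sep.2 ⟨?_, ?_⟩⟩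
    · rw [e1]
      exact hyi
    · rw [e1]
      exact hi

end Pool.UT
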