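import Pool.Agent.Lib.MP_9fc97b_ut.TB1

/-!
# UL, theorem T, row TB3: Cantor and power sets
-/

set_option autoImplicit false
set_option linter.unusedVariables false

open Set

namespace Pool.UT

open Pool.MP_3ade05_lc Pool.PC Pool.UL

variable {E : Set ZFSet.{0}} [hT : TC E]

/-- Row TB3. -/
lemma _root_.Pool.UL.PowLe.enl {a b b' : ZFSet.{0}} (hb : b ∈ E) (hb' : b' ∈ E) (h : PowLe E a b)
    (hc : Cov E b' b) : PowLe E a b' := by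
  obtain ⟨f, hf, h1, h2⟩ := h
  obtain ⟨g, hg, h3, h4⟩ := hc
  haveI : InE E b' := ⟨hb'⟩
  haveI : InE E f := ⟨hf⟩
  haveI : InE E g := ⟨hg⟩
  refine ⟨mkF (fun x => ap f (ap g x)) b', mem_of (E := E) (mkF (fun x => ap f (ap g x)) b'),
    FunOn_mkF _ _, fun y hy hya => ?_⟩
  obtain ⟨z, hz, hzy⟩ := h2 y hy hya
  obtain ⟨x, hx, hxz⟩ := h4 z hz
  refine ⟨x, hx, pair_mem_mkF.2 ⟨hx, ?_⟩⟩
  rw [(FunOn.ap_eq h3 hx).1 hxz, (FunOn.ap_eq h1 hz).1 hzy]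

end Pool.UT
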