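import Pool.Agent.Lib.MP_9fc97b_ut.TB1

/-!
# UL, theorem T, row TB4: products and unions
-/

set_option autoImplicit false
set_option linter.unusedVariables false

open Set

namespace Pool.UT

open Pool.MP_3ade05_lc Pool.PC Pool.UL

variable {E : Set ZFSet.{0}} [hT : TC E]

/-- Row TB4: a nonempty covered set in `E` is the range of a function of `E` with values in it. -/
lemma _root_.Pool.UL.Cov.onto {a C : ZFSet.{0}} (ha : a ∈ E) (hC : C ∈ E) (hne : ∃ y, y ∈ C) (h : Cov E a C) :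
    ∃ f ∈ E, FunOn f a ∧ (∀ x ∈ a, ap f x ∈ C) ∧ ∀ y ∈ C, ∃ x ∈ a, ap f x = y := by
  obtain ⟨f, hf, h1, h2⟩ := h
  haveI : InE E f := ⟨hf⟩
  haveI : InE E C := ⟨hC⟩
  obtain ⟨g, hg, g1, g2⟩ := choose_fun (E := E) (fun x y => ap f x ∈ C → y = ap f x) ha hC (by
    intro x hx
    by_cases hc : ap f x ∈ C
    · exact ⟨_, hc, fun _ => rfl⟩
    · obtain ⟨y0, hy0⟩ := hne
      exact ⟨y0, hy0, fun h => absurd h hc⟩)
  refine ⟨g, hg, g1, fun x hx => (g2 x hx).1, fun y hy => ?_⟩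
  obtain ⟨x, hx, hxy⟩ := h2 y hy
  have e : ap f x = y := (FunOn.ap_eq h1 hx).1 hxy
  refine ⟨x, hx, ?_⟩
  rw [(g2 x hx).2 (by rw [e]; exact hy), e]

/-- Row TB4: the product of two covered sets. -/
lemma _root_.Pool.UL.Cov.prod {a C C' : ZFSet.{0}} (ha : a ∈ E) (hs : Sq E a) (h : Cov E a C) (h' : Cov E a C') :
    Cov E a (prd C C') := cov_prd ha hs h h'

/-- Row TB4: the union of two covered sets; `a` has two elements. -/
lemma _root_.Pool.UL.Cov.union {a C C' : ZFSet.{0}} (ha : a ∈ E) (hs : Sq E a) (h2 : ∃ x ∈ a, ∃ y ∈ a, x ≠ y)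
    (h : Cov E a C) (h' : Cov E a C') : Cov E a (C ∪ C') := by
  obtain ⟨f, hf, f1, f2⟩ := h
  obtain ⟨g, hg, g1, g2⟩ := h'
  obtain ⟨x0, hx0, y0, hy0, hne⟩ := h2
  haveI : InE E a := ⟨ha⟩
  haveI : InE E f := ⟨hf⟩
  haveI : InE E g := ⟨hg⟩
  haveI : InE E x0 := ⟨hT.trans a ha x0 hx0⟩
  haveI iD : DfT E (fun v : Fin 1 → ZFSet.{0} => ZFSet.sep
      (fun y => (v 0 = x0 ∧ y ∈ im f a) ∨ (¬ v 0 = x0 ∧ y ∈ im g a)) (im f a ∪ im g a)) :=
    inferInstance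
  refine cov_union (E := E) ha hs (fun i => ZFSet.sep
      (fun y => (i = x0 ∧ y ∈ im f a) ∨ (¬ i = x0 ∧ y ∈ im g a)) (im f a ∪ im g a)) (hC := iD)
      ?_ ?_
  · intro i hi
    by_cases hix : i = x0
    · refine ⟨f, hf, f1, fun y hy => ?_⟩
      rcases (ZFSet.mem_sep.1 hy).2 with h3 | h3
      · exact mem_im.1 h3.2
      · exact absurd hix h3.1
    · refine ⟨g, hg, g1, fun y hy => ?_⟩
      rcases (ZFSet.mem_sep.1 hy).2 with h3 | h3
      · exact absurd h3.1 hix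
      · exact mem_im.1 h3.2
  · intro y hy
    rcases ZFSet.mem_union.1 hy with h3 | h3
    · have h4 : y ∈ im f a := mem_im.2 (f2 y h3)
      exact ⟨x0, hx0, ZFSet.mem_sep.2 ⟨ZFSet.mem_union.2 (Or.inl h4), Or.inl ⟨rfl, h4⟩⟩⟩
    · have h4 : y ∈ im g a := mem_im.2 (g2 y h3)
      exact ⟨y0, hy0, ZFSet.mem_sep.2 ⟨ZFSet.mem_union.2 (Or.inr h4),
        Or.inr ⟨fun h5 => hne h5.symm, h4⟩⟩⟩

end Pool.UT
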