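import Pool.Agent.Lib.MP_9fc97b_ut.TB3

/-!
# UL, theorem T, row TB5: sets of functions
-/

set_option autoImplicit false
set_option linter.unusedVariables false

open Set

namespace Pool.UT

open Pool.MP_3ade05_lc Pool.PC Pool.UL

variable {E : Set ZFSet.{0}} [hT : TC E]

/-- Row TB5: the set of the functions from `a` to `b` which belong to `E`. -/
noncomputable def fns (E : Set ZFSet.{0}) (a b : ZFSet.{0}) : ZFSet.{0} :=
  ZFSet.sep (fun f => FunOn f a ∧ ∀ x ∈ a, ap f x ∈ b) (pw E (prd a b))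

omit hT in
/-- Row TB5. -/
lemma mem_fns {a b f : ZFSet.{0}} :
    f ∈ fns E a b ↔ f ∈ E ∧ FunOn f a ∧ ∀ x ∈ a, ap f x ∈ b := by
  unfold fns
  rw [ZFSet.mem_sep, mem_pw]
  constructor
  · rintro ⟨⟨h1, _⟩, h2, h3⟩
    exact ⟨h1, h2, h3⟩
  · rintro ⟨h1, h2, h3⟩
    refine ⟨⟨h1, fun z hz => ?_⟩, h2, h3⟩
    obtain ⟨x, hx, y, rfl⟩ := h2.1 z hz
    rw [pair_mem_prd]
    refine ⟨hx, ?_⟩
    rw [← (FunOn.ap_eq h2 hx).1 hz]
    exact h3 x hx

/-- Row TB5. -/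
instance DfT.instFns {n : ℕ} {s t : (Fin n → ZFSet.{0}) → ZFSet.{0}} [hs : DfT E s]
    [ht : DfT E t] : DfT E (fun v => fns E (s v) (t v)) := by
  have hs1 := hs.up
  have ht1 := ht.up
  have hs2 := hs1.up
  have ht2 := ht1.up
  have h : DfT E (fun v => ZFSet.sep (fun f => FunOn f (s v) ∧ ∀ x ∈ s v, ap f x ∈ t v)
      (pw E (prd (s v) (t v)))) := inferInstance
  exact h

/-- Row TB5: functions from `a` to `b ⊆ a` are covered by `c` if `P(a)` is: a subset of `a × a` is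
the image of a subset of `a` under the surjection of `Sq E a`. -/
lemma fns_cov {a b c : ZFSet.{0}} (ha : a ∈ E) (hb : b ∈ E) (hc : c ∈ E) (hba : b ⊆ a)
    (hsq : Sq E a) (h : PowLe E a c) : Cov E c (fns E a b) := by
  have hp : Cov E a (prd a b) := by
    obtain ⟨k, hk, h1, h2⟩ := hsq
    refine ⟨k, hk, h1, fun y hy => ?_⟩
    obtain ⟨x, hx, z, hz, rfl⟩ := mem_prd.1 hy
    exact h2 x hx z (hba hz)
  obtain ⟨F, hF, h1, h2⟩ := fun_cov hc ha hb hp h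
  refine ⟨F, hF, h1, fun y hy => ?_⟩
  obtain ⟨h3, h4, h5⟩ := mem_fns.1 hy
  obtain ⟨i, hi, hiy⟩ := h2 y h3 h4 h5
  exact ⟨i, hi, (FunOn.ap_eq h1 hi).2 hiy⟩

end Pool.UT
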