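import Pool.Agent.Lib.MP_9fc97b_ut.TB2
import Pool.Agent.Lib.MP_9fc97b_ut.TB5

/-!
# UL, theorem T, row TC1: first consequences of the setting
-/

set_option autoImplicit false
set_option linter.unusedVariables false

open Set

namespace Pool.UT

open Pool.MP_3ade05_lc Pool.PC Pool.UL

variable {E : Set ZFSet.{0}} {lam th : ZFSet.{0}} {t : ℕ → ZFSet.{0}} {tF X e : ZFSet.{0}}

/-- Row TC1: the instance. -/
lemma _root_.Pool.UL.Setting.tc (S : Setting E lam th t tF X e) : TC E :=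
  { trans := S.trans, zf := S.zfc.toZFModel, choice := S.zfc.choice }

/-- Row TC1. -/
lemma _root_.Pool.UL.Setting.tt_num (S : Setting E lam th t tF X e) (n : ℕ) : tt tF (num n) = t n :=
  (FunOn.ap_eq S.tF_fun (mem_omega.2 ⟨n, rfl⟩)).1 (S.tF_eq n)

/-- Row TC1. -/
lemma _root_.Pool.UL.Setting.tS_num (S : Setting E lam th t tF X e) (n : ℕ) : tS tF (num n) = t (n + 1) :=
  S.tt_num (n + 1)

/-- Row TC1. -/
lemma _root_.Pool.UL.Setting.t_sub (S : Setting E lam th t tF X e) {m n : ℕ} (h : m ≤ n) : t m ⊆ t n := by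
  induction n, h using Nat.le_induction with
  | base => exact fun x hx => hx
  | succ n _ ih =>
    exact fun x hx => (S.lam_card.ord.mem (S.t_lam (n + 1))).subset_of_mem (S.t_mem n) (ih hx)

/-- Row TC1. -/
lemma _root_.Pool.UL.Setting.t_sub_lam (S : Setting E lam th t tF X e) (n : ℕ) : t n ⊆ lam :=
  S.lam_card.ord.subset_of_mem (S.t_lam n)

/-- Row TC1. -/
lemma _root_.Pool.UL.Setting.t_E (S : Setting E lam th t tF X e) (n : ℕ) : t n ∈ E :=
  S.trans _ S.lam_card.mem _ (S.t_lam n)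

/-- Row TC1: `t_n` has two elements. -/
lemma _root_.Pool.UL.Setting.t_two (S : Setting E lam th t tF X e) (n : ℕ) : ∃ x ∈ t n, ∃ y ∈ t n, x ≠ y := by
  have h : ∀ k : ℕ, num k ∈ t n := fun k => S.t_sub (Nat.zero_le n)
    ((S.lam_card.ord.mem (S.t_lam 0)).subset_of_mem S.t_inf (mem_omega.2 ⟨k, rfl⟩))
  refine ⟨num 0, h 0, num 1, h 1, fun he => ?_⟩
  have h1 : num 0 ∈ num 1 := ZFSet.mem_insert _ _
  rw [← he] at h1
  exact ZFSet.notMem_empty _ h1

/-- Row TC1: small implies small at larger indices. -/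
lemma _root_.Pool.UL.Setting.cov_le (S : Setting E lam th t tF X e) {m n : ℕ} (h : m ≤ n) {C : ZFSet.{0}}
    (hC : Cov E (t m) C) : Cov E (t n) C := by
  have := S.tc
  exact hC.enl (S.t_E m) (S.t_E n) (S.t_sub h)

lemma TC1_mem_num {n : ℕ} {x : ZFSet.{0}} : x ∈ num n ↔ ∃ j < n, x = num j := by
  induction n with
  | zero =>
    constructor
    · intro h
      exact absurd h (ZFSet.notMem_empty x)
    · rintro ⟨j, hj, _⟩
      exact absurd hj (Nat.not_lt_zero j)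
  | succ n ih =>
    show x ∈ insert (num n) (num n) ↔ _
    rw [ZFSet.mem_insert_iff, ih]
    constructor
    · rintro (rfl | ⟨j, hj, rfl⟩)
      · exact ⟨n, Nat.lt_succ_self n, rfl⟩
      · exact ⟨j, Nat.lt_succ_of_lt hj, rfl⟩
    · rintro ⟨j, hj, rfl⟩
      rcases Nat.lt_succ_iff_lt_or_eq.1 hj with h | rfl
      · exact Or.inr ⟨j, h, rfl⟩
      · exact Or.inl rfl

/-- Row TC1: naturals: `num m ⊆ num n ↔ m ≤ n`, `num m ∈ num n ↔ m < n`. -/
lemma num_sub {m n : ℕ} : num m ⊆ num n ↔ m ≤ n := by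
  constructor
  · intro h
    by_contra hn
    have h1 : num n ∈ num m := TC1_mem_num.2 ⟨n, by omega, rfl⟩
    exact ZFSet.mem_irrefl _ (h h1)
  · intro h x hx
    obtain ⟨j, hj, rfl⟩ := TC1_mem_num.1 hx
    exact TC1_mem_num.2 ⟨j, by omega, rfl⟩

/-- Row TC1. -/
lemma num_mem {m n : ℕ} : num m ∈ num n ↔ m < n := by
  constructor
  · intro h
    obtain ⟨j, hj, e⟩ := TC1_mem_num.1 h
    have h1 : m ≤ j := num_sub.1 (by rw [e])
    omega
  · intro h
    exact TC1_mem_num.2 ⟨m, h, rfl⟩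

/-- Row TC1. -/
lemma num_succ (n : ℕ) : (insert (num n) (num n) : ZFSet.{0}) = num (n + 1) := rfl

/-- Row TC1: the values of `e`. -/
lemma _root_.Pool.UL.Setting.ee_spec (S : Setting E lam th t tF X e) {η : ZFSet.{0}} (hη : η ∈ th) (n : ℕ) :
    ZFSet.pair (ZFSet.pair η (num n)) (ee e η (num n)) ∈ e ∧ ee e η (num n) ∈ t (n + 1) := by
  obtain ⟨ξ, h1, h2⟩ := S.e_fun η hη n
  have h3 : ee e η (num n) = ξ := ap_eq_of h1 h2
  rw [h3]
  exact ⟨h1, S.e_lt η hη n ξ h1⟩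

end Pool.UT
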