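import Pool.Agent.Lib.MP_9fc97b_ut.TC1

/-!
# UL, theorem T, row TC2: uniform ultrafilters
-/

set_option autoImplicit false
set_option linter.unusedVariables false

open Set

namespace Pool.UT

open Pool.MP_3ade05_lc Pool.PC Pool.UL

variable {E : Set ZFSet.{0}} {lam th : ZFSet.{0}} {t : ℕ → ZFSet.{0}} {tF X e u : ZFSet.{0}}

lemma TC2_ne (S : Setting E lam th t tF X e) (hu : UnifUF E lam u) : ∅ ∉ u := by
  have := S.tc
  intro h
  have h0 : InE E (t 0) := ⟨S.t_E 0⟩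
  obtain ⟨x, hx, -⟩ := hu.unif ∅ h (t 0) (S.t_lam 0) (mkF (fun x => x) (t 0))
    (mem_of (E := E) (mkF (fun x => x) (t 0))) (FunOn_mkF _ _)
  exact ZFSet.notMem_empty _ hx

/-- Row TC2. -/
lemma uf_lam (S : Setting E lam th t tF X e) (hu : UnifUF E lam u) : lam ∈ u := by
  rw [hu.ultra lam S.lam_card.mem (fun x hx => hx)]
  have h : lam \ lam = ∅ := by
    ext x
    simp [ZFSet.mem_sdiff]
  rw [h]
  exact TC2_ne S hu

/-- Row TC2: a covered set is not in `u`; its complement is. -/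
lemma uf_small (S : Setting E lam th t tF X e) (hu : UnifUF E lam u) {C : ZFSet.{0}} (hC : C ∈ E)
    (hCl : C ⊆ lam) {n : ℕ} (h : Cov E (t n) C) : C ∉ u ∧ lam \ C ∈ u := by
  have := S.tc
  have h1 : C ∉ u := by
    intro hCu
    obtain ⟨f, hf, hf1, hf2⟩ := h
    obtain ⟨x, hx, hx'⟩ := hu.unif C hCu (t n) (S.t_lam n) f hf hf1
    obtain ⟨y, hy, hy'⟩ := hf2 x hx
    exact hx' y hy hy'
  refine ⟨h1, ?_⟩
  by_contra h2
  exact h1 ((hu.ultra C hC hCl).2 h2)

/-- Row TC2: finite intersections. -/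
lemma uf_fin (S : Setting E lam th t tF X e) (hu : UnifUF E lam u) (P : ZFSet.{0} → ZFSet.{0} → Prop)
    [hP : Df E (fun v : Fin 2 → ZFSet.{0} => P (v 0) (v 1))] (k : ℕ)
    (h : ∀ n < k, ZFSet.sep (fun x => P (num n) x) lam ∈ u) :
    ZFSet.sep (fun x => ∀ n ∈ num k, P n x) lam ∈ u := by
  induction k with
  | zero =>
    have h1 : ZFSet.sep (fun x => ∀ n ∈ num 0, P n x) lam = lam := by
      ext x
      rw [ZFSet.mem_sep]
      exact ⟨fun hx => hx.1, fun hx => ⟨hx, fun n hn => absurd hn (ZFSet.notMem_empty _)⟩⟩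
    rw [h1]
    exact uf_lam S hu
  | succ k ih =>
    have h1 := hu.inter _ (ih fun n hn => h n (by omega)) _ (h k (by omega))
    have h2 : ZFSet.sep (fun x => ∀ n ∈ num (k + 1), P n x) lam =
        ZFSet.sep (fun x => ∀ n ∈ num k, P n x) lam ∩ ZFSet.sep (fun x => P (num k) x) lam := by
      ext x
      rw [ZFSet.mem_inter, ZFSet.mem_sep, ZFSet.mem_sep, ZFSet.mem_sep]
      constructor
      · rintro ⟨hx, h3⟩
        exact ⟨⟨hx, fun n hn => h3 n (ZFSet.mem_insert_of_mem _ hn)⟩, hx,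
          h3 _ (ZFSet.mem_insert _ _)⟩
      · rintro ⟨⟨hx, h3⟩, _, h4⟩
        refine ⟨hx, fun n hn => ?_⟩
        rcases ZFSet.mem_insert_iff.1 (show n ∈ insert (num k) (num k) from hn) with rfl | hn
        · exact h4
        · exact h3 n hn
    rw [h2]
    exact h1

/-- Row TC2: exactly one of a definable property and its negation holds modulo `u`. -/
lemma uf_dec (S : Setting E lam th t tF X e) (hu : UnifUF E lam u) (P : ZFSet.{0} → Prop)
    [hP : Df E (fun v : Fin 1 → ZFSet.{0} => P (v 0))] :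
    (ZFSet.sep P lam ∈ u ↔ ¬ ZFSet.sep (fun x => ¬ P x) lam ∈ u) := by
  have := S.tc
  have h1 : lam \ ZFSet.sep P lam = ZFSet.sep (fun x => ¬ P x) lam := by
    ext x
    rw [ZFSet.mem_sdiff, ZFSet.mem_sep, ZFSet.mem_sep]
    tauto
  rw [hu.ultra _ (sep (E := E) P S.lam_card.mem) (fun x hx => (ZFSet.mem_sep.1 hx).1), h1]

/-- Row TC2: monotonicity and conjunction for definable properties. -/
lemma uf_mp (S : Setting E lam th t tF X e) (hu : UnifUF E lam u) (P Q : ZFSet.{0} → Prop)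
    [hQ : Df E (fun v : Fin 1 → ZFSet.{0} => Q (v 0))] (h : ∀ x ∈ lam, P x → Q x)
    (hP : ZFSet.sep P lam ∈ u) : ZFSet.sep Q lam ∈ u := by
  have := S.tc
  refine hu.up _ hP _ (sep (E := E) Q S.lam_card.mem) (fun x hx => (ZFSet.mem_sep.1 hx).1)
    fun x hx => ?_
  rw [ZFSet.mem_sep] at hx ⊢
  exact ⟨hx.1, h x hx.1 hx.2⟩

/-- Row TC2. -/
lemma uf_and (S : Setting E lam th t tF X e) (hu : UnifUF E lam u) (P Q : ZFSet.{0} → Prop)
    (hP : ZFSet.sep P lam ∈ u) (hQ : ZFSet.sep Q lam ∈ u) :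
    ZFSet.sep (fun x => P x ∧ Q x) lam ∈ u := by
  have h1 : ZFSet.sep (fun x => P x ∧ Q x) lam = ZFSet.sep P lam ∩ ZFSet.sep Q lam := by
    ext x
    rw [ZFSet.mem_inter, ZFSet.mem_sep, ZFSet.mem_sep, ZFSet.mem_sep]
    tauto
  rw [h1]
  exact hu.inter _ hP _ hQ

/-- Row TC2: some element has the property. -/
lemma uf_ex (S : Setting E lam th t tF X e) (hu : UnifUF E lam u) {B : ZFSet.{0}} (hB : B ∈ u) :
    ∃ x ∈ B, x ∈ lam := by
  by_contra h
  push Not at h
  have h1 : B = ∅ := by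
    ext x
    constructor
    · intro hx
      exact absurd (hu.sub B hB hx) (h x hx)
    · intro hx
      exact absurd hx (ZFSet.notMem_empty x)
  rw [h1] at hB
  exact TC2_ne S hu hB

end Pool.UT
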