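import Pool.Agent.Lib.MP_9fc97b_ut.TC1

/-!
# UL, theorem T, row TC3: (LC) in terms of `Bad`
-/

set_option autoImplicit false
set_option linter.unusedVariables false

open Set

namespace Pool.UT

open Pool.MP_3ade05_lc Pool.PC Pool.UL

variable {E : Set ZFSet.{0}} {lam th : ZFSet.{0}} {t : ℕ → ZFSet.{0}} {tF X e : ZFSet.{0}}

/-- Row TC3: (LC) in terms of `Bad`. -/
lemma _root_.Pool.UL.Setting.cov_bad (S : Setting E lam th t tF X e) {A : ZFSet.{0}} (hA : A ∈ E)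
    (hfn : FunOn A ZFSet.omega) : Cov E lam (Bad E th tF X e A) := by
  haveI := S.tc
  obtain ⟨g, hg, hgf, h⟩ := S.LC A hA hfn
  refine ⟨g, hg, hgf, fun η hη => ?_⟩
  obtain ⟨hηth, hbad⟩ := ZFSet.mem_sep.1 hη
  by_contra hcon
  have hcon' : ∀ x ∈ lam, ZFSet.pair x η ∉ g := fun x hx hxg => hcon ⟨x, hx, hxg⟩
  obtain ⟨k, hk⟩ := h η hηth hcon'
  refine hbad ⟨num k, mem_omega.2 ⟨k, rfl⟩, fun n hn hkn hsub hcov => ?_⟩
  obtain ⟨m, rfl⟩ := mem_omega.1 hn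
  have hkm : k ≤ m := num_sub.1 hkn
  have hAm : ZFSet.pair (num m) (ap A (num m)) ∈ A := (FunOn.ap_eq hfn hn).2 rfl
  rw [S.tS_num] at hsub
  rw [S.tt_num] at hcov
  exact hk m hkm (ap A (num m)) hAm hsub hcov (ee e η (num m)) (S.ee_spec hηth m).1

end Pool.UT
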