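import Pool.Agent.Lib.MP_9fc97b_ut.TC2

/-!
# UL, theorem T, row TC4: the function `z0`, thin functions
-/

set_option autoImplicit false
set_option linter.unusedVariables false

open Set

namespace Pool.UT

open Pool.MP_3ade05_lc Pool.PC Pool.UL

variable {E : Set ZFSet.{0}} {lam th : ZFSet.{0}} {t : ℕ → ZFSet.{0}} {tF X e u : ZFSet.{0}}

instance instZ0 [hT : TC E] [hl : InE E lam] [ht : InE E tF] : InE E (z0 lam tF) := by
  have h : DfT E (fun _ : Fin 0 → ZFSet.{0} => mkF (fun x => ZFSet.sep (fun n => x ∉ tS tF n)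
    ZFSet.omega) lam) := inferInstance
  exact ⟨h.mem Fin.elim0 (fun i => i.elim0)⟩

lemma TC4_el {m : ℕ} {y : ZFSet.{0}} : y ∈ num m ↔ ∃ k < m, y = num k := by
  induction m with
  | zero =>
    show y ∈ (∅ : ZFSet.{0}) ↔ _
    simp
  | succ m ih =>
    show y ∈ insert (num m) (num m) ↔ _
    rw [ZFSet.mem_insert_iff, ih]
    constructor
    · rintro (rfl | ⟨k, hk, rfl⟩)
      · exact ⟨m, by omega, rfl⟩
      · exact ⟨k, by omega, rfl⟩
    · rintro ⟨k, hk, rfl⟩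
      rcases Nat.lt_succ_iff_lt_or_eq.1 hk with h | rfl
      · exact Or.inr ⟨k, h, rfl⟩
      · exact Or.inl rfl

/-- The value of `z_0`. -/
lemma TC4_val (S : Setting E lam th t tF X e) {x : ZFSet.{0}} (hx : x ∈ lam) :
    ∃ m, ap (z0 lam tF) x = num m ∧ x ∈ t (m + 1) ∧ ∀ k < m, x ∉ t (k + 1) := by
  haveI := S.tc
  classical
  have h1 : ∃ n, x ∈ t (n + 1) := by
    obtain ⟨n, hn⟩ := S.t_union x hx
    exact ⟨n, S.t_sub (Nat.le_succ n) hn⟩
  refine ⟨Nat.find h1, ?_, Nat.find_spec h1, fun k hk => Nat.find_min h1 hk⟩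
  have h2 : ap (z0 lam tF) x = ZFSet.sep (fun n => x ∉ tS tF n) ZFSet.omega := ap_mkF hx
  rw [h2]
  ext y
  rw [ZFSet.mem_sep, TC4_el, mem_omega]
  constructor
  · rintro ⟨⟨k, rfl⟩, hk⟩
    rw [S.tS_num] at hk
    refine ⟨k, ?_, rfl⟩
    by_contra hlt
    exact hk (S.t_sub (by omega) (Nat.find_spec h1))
  · rintro ⟨k, hk, rfl⟩
    refine ⟨⟨k, rfl⟩, ?_⟩
    rw [S.tS_num]
    exact Nat.find_min h1 hk

/-- Row TC4: the function `z_0`. -/
lemma z0_OF (S : Setting E lam th t tF X e) : OF E lam (z0 lam tF) := by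
  haveI := S.tc
  haveI : InE E lam := ⟨S.lam_card.mem⟩
  haveI : InE E tF := ⟨S.tF_mem⟩
  refine ⟨InE.mem, FunOn_mkF _ _, fun x hx => ?_⟩
  obtain ⟨m, hm, -, -⟩ := TC4_val S hx
  rw [hm]
  exact mem_omega.2 ⟨m, rfl⟩

/-- Row TC4: `x ∈ t_{z_0(x) + 1}` and `x ∉ t_{n+1}` for `n < z_0(x)`. -/
lemma z0_spec (S : Setting E lam th t tF X e) {x : ZFSet.{0}} (hx : x ∈ lam) :
    x ∈ tS tF (ap (z0 lam tF) x) ∧ ∀ n ∈ ap (z0 lam tF) x, x ∉ tS tF n := by
  obtain ⟨m, hm, h1, h2⟩ := TC4_val S hx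
  rw [hm]
  refine ⟨by rw [S.tS_num]; exact h1, fun n hn => ?_⟩
  obtain ⟨k, hk, rfl⟩ := TC4_el.1 hn
  rw [S.tS_num]
  exact h2 k hk

/-- Row TC4: `{z_0 ≤ n} = t_{n+1}`. -/
lemma z0_thin (S : Setting E lam th t tF X e) : Thin E lam tF (z0 lam tF) := by
  haveI := S.tc
  intro n hn
  obtain ⟨k, rfl⟩ := mem_omega.1 hn
  rw [S.tS_num]
  refine cov_id (S.t_E _) fun x hx => ?_
  rw [ZFSet.mem_sep] at hx
  obtain ⟨m, hm, h1, -⟩ := TC4_val S hx.1
  have h2 := hx.2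
  rw [hm, num_sub] at h2
  exact S.t_sub (by omega) h1

/-- Row TC4: thin functions are nonstandard: `{z ≤ m}` is `(m + 1)`-small. -/
lemma Thin.ns (S : Setting E lam th t tF X e) (hu : UnifUF E lam u) {z : ZFSet.{0}}
    (hz : OF E lam z) (h : Thin E lam tF z) : NS lam u z := by
  haveI := S.tc
  haveI : InE E lam := ⟨S.lam_card.mem⟩
  haveI : InE E z := ⟨hz.mem⟩
  intro k hk
  obtain ⟨m, rfl⟩ := mem_omega.1 hk
  cases m with
  | zero =>
    have h1 : ZFSet.sep (fun x => num 0 ⊆ ap z x) lam = lam := by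
      ext x
      rw [ZFSet.mem_sep]
      refine ⟨fun h => h.1, fun h => ⟨h, fun y hy => ?_⟩⟩
      obtain ⟨k, hk, _⟩ := TC4_el.1 hy
      omega
    rw [h1]
    exact uf_lam S hu
  | succ m =>
    have h1 := h (num m) (mem_omega.2 ⟨m, rfl⟩)
    rw [S.tS_num] at h1
    haveI : InE E (num m) := ⟨S.trans _ omega_memE _ (mem_omega.2 ⟨m, rfl⟩)⟩
    have h2 := (uf_small S hu (C := ZFSet.sep (fun x => ap z x ⊆ num m) lam)
      (mem_of (E := E) _) (fun x hx => (ZFSet.mem_sep.1 hx).1) h1).2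
    have h3 : lam \ ZFSet.sep (fun x => ap z x ⊆ num m) lam =
        ZFSet.sep (fun x => num (m + 1) ⊆ ap z x) lam := by
      ext x
      rw [ZFSet.mem_sdiff, ZFSet.mem_sep, ZFSet.mem_sep]
      constructor
      · rintro ⟨hx, h4⟩
        refine ⟨hx, ?_⟩
        obtain ⟨j, hj⟩ := mem_omega.1 (hz.val x hx)
        rw [hj, num_sub]
        by_contra h5
        refine h4 ⟨hx, ?_⟩
        rw [hj, num_sub]
        omega
      · rintro ⟨hx, h4⟩
        refine ⟨hx, fun h5 => ?_⟩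
        obtain ⟨j, hj⟩ := mem_omega.1 (hz.val x hx)
        have h6 := h5.2
        rw [hj, num_sub] at h4 h6
        omega
    rw [← h3]
    exact h2

end Pool.UT
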