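import Pool.Agent.Lib.MP_9fc97b_ut.TC3
import Pool.Agent.Lib.MP_9fc97b_ut.TC4

/-!
# UL, theorem T, row TD1: one `η` good for a family of sequences
-/

set_option autoImplicit false
set_option linter.unusedVariables false

open Set

namespace Pool.UT

open Pool.MP_3ade05_lc Pool.PC Pool.UL

variable {E : Set ZFSet.{0}} {lam th : ZFSet.{0}} {t : ℕ → ZFSet.{0}} {tF X e u d F : ZFSet.{0}}

/-- Row TD1: for a definable family of sequences indexed by `d ∈ th` there is one `η ∈ th` which is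
good for all of them; more precisely the set of the bad `η` is covered by any `r₀` as in (CA). -/
theorem exists_good (S : Setting E lam th t tF X e) (A : ZFSet.{0} → ZFSet.{0})
    [hA : DfT E (fun v : Fin 1 → ZFSet.{0} => A (v 0))] {r : ZFSet.{0}} (hd : d ∈ th)
    (hr : r ∈ th) (hdr : d ⊆ r) (hlr : lam ⊆ r) (hsq : Sq E r)
    (hfn : ∀ i ∈ d, FunOn (A i) ZFSet.omega) {D : ZFSet.{0}} (hD : D ∈ E) (hDth : D ⊆ th)
    (hDb : ∀ η ∈ D, ∃ i ∈ d, η ∈ Bad E th tF X e (A i)) : Cov E r D := by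
  haveI := S.tc
  haveI : InE E th := ⟨S.th_card.mem⟩
  haveI : InE E tF := ⟨S.tF_mem⟩
  haveI : InE E X := ⟨S.X_mem⟩
  haveI : InE E e := ⟨S.e_mem⟩
  have hrE : r ∈ E := S.trans th S.th_card.mem r hr
  have hdE : d ∈ E := S.trans th S.th_card.mem d hd
  have hC : DfT E (fun v : Fin 1 → ZFSet.{0} => Bad E th tF X e (A (v 0))) := by
    have h1 := hA.up
    have h2 := h1.up
    have h3 := h2.up
    have h4 := h3.up
    infer_instance
  refine Pool.UL.Cov.unionF hrE hdE hD hsq (cov_id hrE hdr)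
    (fun i => Bad E th tF X e (A i)) (hC := hC) (fun i hi => ?_) hDb
  have hiE : i ∈ E := S.trans d hdE i hi
  have hAi : A i ∈ E := hA.mem (fun _ => i) (fun _ => hiE)
  exact cov_mono hrE hlr (S.cov_bad hAi (hfn i hi))

end Pool.UT
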