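import Pool.Agent.Lib.MP_9fc97b_ut.TD1

/-!
# UL, theorem T, row TD2: Lemma 2, definitions and `D_{η,n}`
-/

set_option autoImplicit false
set_option linter.unusedVariables false

open Set

namespace Pool.UT

open Pool.MP_3ade05_lc Pool.PC Pool.UL

variable {E : Set ZFSet.{0}} {lam th : ZFSet.{0}} {t : ℕ → ZFSet.{0}} {tF X e u d F : ZFSet.{0}}

/-- `x` belongs to `D_{η,n}`: the value `X^n(e_η(n), f_n(x))` is the one chosen by `u`. -/
def Dn (lam X e u f η n x : ZFSet.{0}) : Prop :=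
  (XX X e η n (ap (ap f n) x) ↔ ZFSet.sep (fun y => XX X e η n (ap (ap f n) y)) lam ∈ u)

instance Df.instDn {m : ℕ} [hT : TC E] [hl : InE E lam] [hX : InE E X] [he : InE E e]
    [hu : InE E u] {f η n x : (Fin m → ZFSet.{0}) → ZFSet.{0}} [hf : DfT E f] [hη : DfT E η]
    [hn : DfT E n] [hx : DfT E x] :
    Df E (fun v => Dn lam X e u (f v) (η v) (n v) (x v)) := by
  have hf1 := hf.up
  have hη1 := hη.up
  have hn1 := hn.up
  have h : Df E (fun v => (XX X e (η v) (n v) (ap (ap (f v) (n v)) (x v)) ↔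
    ZFSet.sep (fun y => XX X e (η v) (n v) (ap (ap (f v) (n v)) y)) lam ∈ u)) := inferInstance
  exact h

/-- `D_η^z`. -/
noncomputable def Dz (lam X e u I f η z : ZFSet.{0}) : ZFSet.{0} :=
  ZFSet.sep (fun x => ∀ n ∈ I, n ⊆ ap z x → Dn lam X e u f η n x) lam

instance DfT.instDz {m : ℕ} [hT : TC E] [hl : InE E lam] [hX : InE E X] [he : InE E e]
    [hu : InE E u] {I f η z : (Fin m → ZFSet.{0}) → ZFSet.{0}} [hI : DfT E I] [hf : DfT E f]
    [hη : DfT E η] [hz : DfT E z] :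
    DfT E (fun v => Dz lam X e u (I v) (f v) (η v) (z v)) := by
  have hI1 := hI.up
  have hf1 := hf.up
  have hη1 := hη.up
  have hz1 := hz.up
  have hI2 := hI1.up
  have hf2 := hf1.up
  have hη2 := hη1.up
  have hz2 := hz1.up
  have h : DfT E (fun v => ZFSet.sep (fun x => ∀ n ∈ I v, n ⊆ ap (z v) x →
    Dn lam X e u (f v) (η v) n x) lam) := inferInstance
  exact h

/-- The hypotheses of Lemma 2 (to be refuted). -/
structure LCtx (E : Set ZFSet.{0}) (lam tF u I f : ZFSet.{0}) : Prop where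
  I_mem : I ∈ E
  f_mem : f ∈ E
  I_sub : I ⊆ ZFSet.omega
  I_unb : ∀ k ∈ ZFSet.omega, ∃ n ∈ I, k ⊆ n
  f_fn : ∀ n ∈ ZFSet.omega, FunOn (ap f n) lam ∧ ∀ x ∈ lam, ap (ap f n) x ∈ tS tF n
  big : ∀ n ∈ I, ∀ B ∈ u, ¬ Cov E (tt tF n) (im (ap f n) B)

/-- Row TD2: `D_{η,n}` belongs to `u`. -/
lemma dn_mem (S : Setting E lam th t tF X e) (hu : UnifUF E lam u) {I f : ZFSet.{0}}
    (L : LCtx E lam tF u I f) {η n : ZFSet.{0}} (hη : η ∈ th) (hn : n ∈ ZFSet.omega) :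
    ZFSet.sep (fun x => Dn lam X e u f η n x) lam ∈ u := by
  haveI := S.tc
  haveI : InE E lam := ⟨S.lam_card.mem⟩
  haveI : InE E X := ⟨S.X_mem⟩
  haveI : InE E e := ⟨S.e_mem⟩
  haveI : InE E u := ⟨hu.mem⟩
  haveI : InE E f := ⟨L.f_mem⟩
  haveI : InE E η := ⟨S.trans _ S.th_card.mem η hη⟩
  haveI : InE E n := ⟨S.trans _ (S.trans _ (S.t_E 0) _ S.t_inf) n hn⟩
  by_cases h : ZFSet.sep (fun y => XX X e η n (ap (ap f n) y)) lam ∈ u
  · refine uf_mp S hu (fun y => XX X e η n (ap (ap f n) y)) (fun x => Dn lam X e u f η n x) ?_ h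
    intro x _ hx'
    exact iff_of_true hx' h
  · have h2 : ZFSet.sep (fun y => ¬ XX X e η n (ap (ap f n) y)) lam ∈ u := by
      by_contra h3
      exact h ((uf_dec S hu (fun y => XX X e η n (ap (ap f n) y))).2 h3)
    refine uf_mp S hu (fun y => ¬ XX X e η n (ap (ap f n) y)) (fun x => Dn lam X e u f η n x) ?_ h2
    intro x _ hx'
    exact iff_of_false hx' h

end Pool.UT
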