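import Pool.Agent.Lib.MP_9fc97b_ut.TD2

/-!
# UL, theorem T, row TD3: Lemma 2, the functions `w_η`
-/

set_option autoImplicit false
set_option linter.unusedVariables false

open Set

namespace Pool.UT

open Pool.MP_3ade05_lc Pool.PC Pool.UL

variable {E : Set ZFSet.{0}} {lam th : ZFSet.{0}} {t : ℕ → ZFSet.{0}} {tF X e u d F : ZFSet.{0}}

/-- `w_η(x) = {j < z_0(x) : x ∈ D_{η,n} for all n ∈ I, n ≤ j}`, a natural number. -/
noncomputable def wη (lam tF X e u I f η : ZFSet.{0}) : ZFSet.{0} :=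
  mkF (fun x => ZFSet.sep (fun j => ∀ n ∈ I, n ⊆ j → Dn lam X e u f η n x)
    (ap (z0 lam tF) x)) lam

instance DfT.instWη {m : ℕ} [hT : TC E] [hl : InE E lam] [ht : InE E tF] [hX : InE E X]
    [he : InE E e] [hu : InE E u] {I f η : (Fin m → ZFSet.{0}) → ZFSet.{0}} [hI : DfT E I]
    [hf : DfT E f] [hη : DfT E η] : DfT E (fun v => wη lam tF X e u (I v) (f v) (η v)) := by
  have hI1 := hI.up
  have hf1 := hf.up
  have hη1 := hη.up
  have hI2 := hI1.up
  have hf2 := hf1.up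
  have hη2 := hη1.up
  have hI3 := hI2.up
  have hf3 := hf2.up
  have hη3 := hη2.up
  have h : DfT E (fun v => mkF (fun x => ZFSet.sep (fun j => ∀ n ∈ I v, n ⊆ j →
    Dn lam X e u (f v) (η v) n x) (ap (z0 lam tF) x)) lam) := inferInstance
  exact h

/-- Auxiliary: the part of `num m` given by a downward closed property is a natural number. -/
lemma TD3_sep_num (P : ZFSet.{0} → Prop) (hP : ∀ i j : ℕ, i ≤ j → P (num j) → P (num i)) (m : ℕ) :
    ∃ k, ZFSet.sep P (num m) = num k := by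
  induction m with
  | zero =>
    refine ⟨0, ?_⟩
    ext x
    rw [ZFSet.mem_sep]
    constructor
    · intro h
      exact h.1
    · intro h
      exact absurd h (ZFSet.notMem_empty x)
  | succ m ih =>
    obtain ⟨k, hk⟩ := ih
    by_cases h : P (num m)
    · refine ⟨m + 1, ?_⟩
      ext x
      rw [ZFSet.mem_sep]
      constructor
      · intro h
        exact h.1
      · intro hx
        refine ⟨hx, ?_⟩
        obtain ⟨i, rfl⟩ : ∃ i, x = num i := by
          have h1 : x ∈ insert (num m) (num m) := hx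
          have h2 : insert (num m) (num m) ∈ ZFSet.omega := mem_omega.2 ⟨m + 1, rfl⟩
          have : ∀ (j : ℕ) (y : ZFSet.{0}), y ∈ num j → ∃ i, y = num i := by
            intro j
            induction j with
            | zero => exact fun y hy => absurd hy (ZFSet.notMem_empty y)
            | succ j ihj =>
              intro y hy
              rcases ZFSet.mem_insert_iff.1 hy with h | h
              · exact ⟨j, h⟩
              · exact ihj y h
          exact this _ _ hx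
        exact hP i m (Nat.lt_succ_iff.1 (num_mem.1 hx)) h
    · refine ⟨k, ?_⟩
      rw [← hk]
      ext x
      rw [ZFSet.mem_sep, ZFSet.mem_sep]
      constructor
      · rintro ⟨h1, h2⟩
        rcases ZFSet.mem_insert_iff.1 h1 with h3 | h3
        · subst h3
          exact absurd h2 h
        · exact ⟨h3, h2⟩
      · rintro ⟨h1, h2⟩
        exact ⟨ZFSet.mem_insert_iff.2 (Or.inr h1), h2⟩

/-- Auxiliary: the value of `w_η`. -/
lemma TD3_mem_w {I f η x j : ZFSet.{0}} (hx : x ∈ lam) :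
    j ∈ ap (wη lam tF X e u I f η) x ↔ j ∈ ap (z0 lam tF) x ∧
      ∀ n ∈ I, n ⊆ j → Dn lam X e u f η n x := by
  rw [wη, ap_mkF hx, ZFSet.mem_sep]

/-- Row TD3. -/
lemma w_OF (S : Setting E lam th t tF X e) (hu : UnifUF E lam u) {I f : ZFSet.{0}}
    (L : LCtx E lam tF u I f) {η : ZFSet.{0}} (hη : η ∈ th) :
    OF E lam (wη lam tF X e u I f η) := by
  haveI := S.tc
  haveI : InE E lam := ⟨S.lam_card.mem⟩
  haveI : InE E tF := ⟨S.tF_mem⟩
  haveI : InE E X := ⟨S.X_mem⟩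
  haveI : InE E e := ⟨S.e_mem⟩
  haveI : InE E u := ⟨hu.mem⟩
  haveI : InE E I := ⟨L.I_mem⟩
  haveI : InE E f := ⟨L.f_mem⟩
  haveI : InE E η := ⟨S.trans _ S.th_card.mem _ hη⟩
  refine ⟨mem_of (E := E) (wη lam tF X e u I f η), FunOn_mkF _ _, fun x hx => ?_⟩
  rw [wη, ap_mkF hx]
  obtain ⟨m, hm⟩ := mem_omega.1 ((z0_OF S).val x hx)
  rw [hm]
  obtain ⟨k, hk⟩ := TD3_sep_num (fun j => ∀ n ∈ I, n ⊆ j → Dn lam X e u f η n x)
    (fun i j hij h n hn hni => h n hn (fun y hy => num_sub.2 hij (hni hy))) m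
  rw [hk]
  exact mem_omega.2 ⟨k, rfl⟩

/-- Row TD3: `k ⊆ w_η(x)` if `k ⊆ z_0(x)` and `x ∈ D_{η,n}` for `n < k` (`uf_fin`, `dn_mem`). -/
lemma w_NS (S : Setting E lam th t tF X e) (hu : UnifUF E lam u) {I f : ZFSet.{0}}
    (L : LCtx E lam tF u I f) {η : ZFSet.{0}} (hη : η ∈ th) :
    NS lam u (wη lam tF X e u I f η) := by
  haveI := S.tc
  haveI : InE E lam := ⟨S.lam_card.mem⟩
  haveI : InE E tF := ⟨S.tF_mem⟩
  haveI : InE E X := ⟨S.X_mem⟩
  haveI : InE E e := ⟨S.e_mem⟩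
  haveI : InE E u := ⟨hu.mem⟩
  haveI : InE E I := ⟨L.I_mem⟩
  haveI : InE E f := ⟨L.f_mem⟩
  haveI : InE E η := ⟨S.trans _ S.th_card.mem _ hη⟩
  intro k hk
  obtain ⟨m, rfl⟩ := mem_omega.1 hk
  haveI : InE E (num m) := ⟨S.trans _ omega_memE _ hk⟩
  have h1 := Thin.ns S hu (z0_OF S) (z0_thin S) (num m) hk
  have h2 := uf_fin S hu (fun n x => Dn lam X e u f η n x) m
    (fun n _ => dn_mem S hu L hη (mem_omega.2 ⟨n, rfl⟩))
  have h3 := uf_and S hu _ _ h1 h2
  refine uf_mp S hu _ (fun x => num m ⊆ ap (wη lam tF X e u I f η) x) (hQ := by infer_instance) ?_ h3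
  rintro x hx ⟨h4, h5⟩ j hj
  rw [TD3_mem_w hx]
  refine ⟨h4 hj, fun n hn hnj => h5 n ?_⟩
  obtain ⟨n', rfl⟩ := mem_omega.1 (L.I_sub hn)
  obtain ⟨i, rfl⟩ : ∃ i, j = num i := by
    have h6 : j ∈ ap (z0 lam tF) x := h4 hj
    have : ∀ (j : ℕ) (y : ZFSet.{0}), y ∈ num j → ∃ i, y = num i := by
      intro j
      induction j with
      | zero => exact fun y hy => absurd hy (ZFSet.notMem_empty y)
      | succ j ihj =>
        intro y hy
        rcases ZFSet.mem_insert_iff.1 hy with h | h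
        · exact ⟨j, h⟩
        · exact ihj y h
    exact this _ _ hj
  exact num_mem.2 (lt_of_le_of_lt (num_sub.1 hnj) (num_mem.1 hj))

/-- Row TD3: if `z < w_η` modulo `u` then `D_η^z ∈ u`. -/
lemma w_Dz (S : Setting E lam th t tF X e) (hu : UnifUF E lam u) {I f : ZFSet.{0}}
    (L : LCtx E lam tF u I f) {η : ZFSet.{0}} (hη : η ∈ th) {z : ZFSet.{0}} (hz : OF E lam z)
    (h : LtU lam u z (wη lam tF X e u I f η)) : Dz lam X e u I f η z ∈ u := by
  haveI := S.tc
  haveI : InE E lam := ⟨S.lam_card.mem⟩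
  haveI : InE E tF := ⟨S.tF_mem⟩
  haveI : InE E X := ⟨S.X_mem⟩
  haveI : InE E e := ⟨S.e_mem⟩
  haveI : InE E u := ⟨hu.mem⟩
  haveI : InE E I := ⟨L.I_mem⟩
  haveI : InE E f := ⟨L.f_mem⟩
  haveI : InE E z := ⟨hz.mem⟩
  haveI : InE E η := ⟨S.trans _ S.th_card.mem _ hη⟩
  refine uf_mp S hu _ (fun x => ∀ n ∈ I, n ⊆ ap z x → Dn lam X e u f η n x)
    (hQ := by infer_instance) ?_ h
  intro x hx hzx
  exact ((TD3_mem_w hx).1 hzx).2

end Pool.UT
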