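import Pool.Agent.Lib.MP_9fc97b_ut.TD2

/-!
# UL, theorem T, row TD8: Lemma 2, the counting statement
-/

set_option autoImplicit false
set_option linter.unusedVariables false

open Set

namespace Pool.UT

open Pool.MP_3ade05_lc Pool.PC Pool.UL

variable {E : Set ZFSet.{0}} {lam th : ZFSet.{0}} {t : ℕ → ZFSet.{0}} {tF X e u d F : ZFSet.{0}}

/-- Row TD8: for nonstandard `z` the set of the `η` with `D_η^z ∈ u` is covered by `r₀`.
`exists_good` with `A i = mkF (fun n => sep (fun _ => n ∈ I) (im (ap f n) {x ∈ F i | n ⊆ z x})) ω`: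
if `F i ⊆ D_η^z` then `η` is bad for `A i`. -/
theorem star (C : BCtx E lam th t tF X e u d F) {I f : ZFSet.{0}} (L : LCtx E lam tF u I f)
    {z : ZFSet.{0}} (hz : OF E lam z) (hns : NS lam u z) {r : ZFSet.{0}}
    (hr : r ∈ th) (hdr : d ⊆ r) (hlr : lam ⊆ r) (hsq : Sq E r) :
    Cov E r (ZFSet.sep (fun η => Dz lam X e u I f η z ∈ u) th) := by
  have S := C.S
  haveI := S.tc
  haveI : InE E lam := ⟨S.lam_card.mem⟩
  haveI : InE E th := ⟨S.th_card.mem⟩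
  haveI : InE E tF := ⟨S.tF_mem⟩
  haveI : InE E X := ⟨S.X_mem⟩
  haveI : InE E e := ⟨S.e_mem⟩
  haveI : InE E u := ⟨C.uf.mem⟩
  haveI : InE E F := ⟨C.hF⟩
  haveI : InE E I := ⟨L.I_mem⟩
  haveI : InE E f := ⟨L.f_mem⟩
  haveI : InE E z := ⟨hz.mem⟩
  have hA : DfT E (fun v : Fin 1 → ZFSet.{0} => mkF (fun n => ZFSet.sep (fun _ => n ∈ I)
      (im (ap f n) (ZFSet.sep (fun x => n ⊆ ap z x) (ap F (v 0))))) ZFSet.omega) := by
    infer_instance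
  refine exists_good S (fun i => mkF (fun n => ZFSet.sep (fun _ => n ∈ I)
    (im (ap f n) (ZFSet.sep (fun x => n ⊆ ap z x) (ap F i)))) ZFSet.omega) (hA := hA)
    C.hd hr hdr hlr hsq (fun i _ => FunOn_mkF _ _) (mem_of (E := E) _)
    (fun x hx => (ZFSet.mem_sep.1 hx).1) ?_
  intro η hη
  obtain ⟨hηth, hηu⟩ := ZFSet.mem_sep.1 hη
  obtain ⟨i, hi, hFi⟩ := C.base _ hηu
  refine ⟨i, hi, ZFSet.mem_sep.2 ⟨hηth, ?_⟩⟩
  rintro ⟨k, hk, hgood⟩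
  obtain ⟨n, hnI, hkn⟩ := L.I_unb k hk
  have hnω : n ∈ ZFSet.omega := L.I_sub hnI
  obtain ⟨hfn, hfv⟩ := L.f_fn n hnω
  set B : ZFSet.{0} := ZFSet.sep (fun x => n ⊆ ap z x) (ap F i) with hB
  have hFl : ap F i ⊆ lam := C.uf.sub _ (C.mem i hi)
  have hBl : B ⊆ lam := fun x hx => hFl (ZFSet.mem_sep.1 hx).1
  have hBu : B ∈ u := by
    have h1 := C.uf.inter _ (C.mem i hi) _ (hns n hnω)
    have h2 : ap F i ∩ ZFSet.sep (fun x => n ⊆ ap z x) lam = B := by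
      ext x
      rw [ZFSet.mem_inter, hB, ZFSet.mem_sep, ZFSet.mem_sep]
      exact ⟨fun h => ⟨h.1, h.2.2⟩, fun h => ⟨h.1, hFl h.1, h.2⟩⟩
    rwa [h2] at h1
  have hAn : ap (mkF (fun n => ZFSet.sep (fun _ => n ∈ I)
      (im (ap f n) (ZFSet.sep (fun x => n ⊆ ap z x) (ap F i)))) ZFSet.omega) n =
      im (ap f n) B := by
    rw [ap_mkF hnω]
    ext y
    rw [ZFSet.mem_sep]
    exact ⟨fun h => h.1, fun h => ⟨h, hnI⟩⟩
  have h3 := hgood n hnω hkn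
  rw [hAn] at h3
  obtain ⟨⟨a, ha, hXa⟩, ⟨b, hb, hXb⟩⟩ := h3 (by
    intro y hy
    obtain ⟨x, hx, rfl⟩ := (FunOn.mem_im hfn hBl).1 hy
    exact hfv x (hBl hx)) (L.big n hnI B hBu)
  obtain ⟨x, hx, rfl⟩ := (FunOn.mem_im hfn hBl).1 ha
  obtain ⟨y, hy, rfl⟩ := (FunOn.mem_im hfn hBl).1 hb
  have hx1 := ZFSet.mem_sep.1 hx
  have hy1 := ZFSet.mem_sep.1 hy
  have hx2 := (ZFSet.mem_sep.1 (hFi hx1.1)).2 n hnI hx1.2
  have hy2 := (ZFSet.mem_sep.1 (hFi hy1.1)).2 n hnI hy1.2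
  exact hXb (hy2.2 (hx2.1 hXa))

end Pool.UT
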