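import Pool.Agent.Lib.MP_9fc97b_ut.TC4

/-!
# UL, theorem T, row TD9: predecessors
-/

set_option autoImplicit false
set_option linter.unusedVariables false

open Set

namespace Pool.UT

open Pool.MP_3ade05_lc Pool.PC Pool.UL

variable {E : Set ZFSet.{0}} {lam th : ZFSet.{0}} {t : ℕ → ZFSet.{0}} {tF X e u d F : ZFSet.{0}}

lemma TD9_pred (n : ℕ) : ZFSet.sUnion (num (n + 1)) = num n := by
  ext y
  rw [ZFSet.mem_sUnion]
  constructor
  · rintro ⟨z, hz, hy⟩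
    obtain ⟨k, hk, rfl⟩ := TC4_el.1 hz
    obtain ⟨j, hj, rfl⟩ := TC4_el.1 hy
    exact TC4_el.2 ⟨j, by omega, rfl⟩
  · intro hy
    exact ⟨num n, TC4_el.2 ⟨n, by omega, rfl⟩, hy⟩

/-- Row TD9: the predecessor of a nonstandard function. -/
lemma exists_pred (S : Setting E lam th t tF X e) (hu : UnifUF E lam u) {w : ZFSet.{0}}
    (hw : OF E lam w) (hns : NS lam u w) :
    ∃ z, OF E lam z ∧ NS lam u z ∧ ∀ x ∈ lam, ap w x ≠ ∅ → ap z x ∈ ap w x := by
  haveI := S.tc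
  haveI : InE E lam := ⟨S.lam_card.mem⟩
  haveI : InE E w := ⟨hw.mem⟩
  have hval : ∀ x ∈ lam, ∃ n, ap w x = num n ∧
      ap (mkF (fun x => ZFSet.sUnion (ap w x)) lam) x = num (n - 1) := by
    intro x hx
    obtain ⟨n, hn⟩ := mem_omega.1 (hw.val x hx)
    refine ⟨n, hn, ?_⟩
    rw [ap_mkF hx, hn]
    cases n with
    | zero =>
      show ZFSet.sUnion (∅ : ZFSet.{0}) = ∅
      ext y
      simp
    | succ n => exact TD9_pred n
  have hOF : OF E lam (mkF (fun x => ZFSet.sUnion (ap w x)) lam) := by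
    refine ⟨mem_of (E := E) _, FunOn_mkF _ _, fun x hx => ?_⟩
    obtain ⟨n, -, h2⟩ := hval x hx
    rw [h2]
    exact mem_omega.2 ⟨_, rfl⟩
  haveI : InE E (mkF (fun x => ZFSet.sUnion (ap w x)) lam) := ⟨hOF.mem⟩
  refine ⟨_, hOF, ?_, ?_⟩
  · intro k hk
    obtain ⟨m, rfl⟩ := mem_omega.1 hk
    haveI : InE E (num m) := ⟨S.trans _ omega_memE _ (mem_omega.2 ⟨m, rfl⟩)⟩
    refine uf_mp S hu (fun x => num (m + 1) ⊆ ap w x) _ ?_ (hns _ (mem_omega.2 ⟨m + 1, rfl⟩))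
    intro x hx h
    obtain ⟨n, h1, h2⟩ := hval x hx
    rw [h2, num_sub]
    rw [h1, num_sub] at h
    omega
  · intro x hx h
    obtain ⟨n, h1, h2⟩ := hval x hx
    rw [h2, h1, num_mem]
    rcases Nat.eq_zero_or_pos n with rfl | hn
    · exact absurd h1 h
    · omega

end Pool.UT
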