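import Pool.Agent.Lib.MP_9fc97b_ut.TD3
import Pool.Agent.Lib.MP_9fc97b_ut.TD8
import Pool.Agent.Lib.MP_9fc97b_ut.TD9

/-!
# UL, theorem T, row TD4: Lemma 2
-/

set_option autoImplicit false
set_option linter.unusedVariables false

open Set

namespace Pool.UT

open Pool.MP_3ade05_lc Pool.PC Pool.UL

variable {E : Set ZFSet.{0}} {lam th : ZFSet.{0}} {t : ℕ → ZFSet.{0}} {tF X e u d F : ZFSet.{0}}

/-- natural numbers: `n ∉ m` implies `m ⊆ n`. -/
lemma td4_nat {n m : ZFSet.{0}} (hn : n ∈ ZFSet.omega) (hm : m ∈ ZFSet.omega) (h : n ∉ m) :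
    m ⊆ n := by
  obtain ⟨k, rfl⟩ := mem_omega.1 hn
  obtain ⟨l, rfl⟩ := mem_omega.1 hm
  rw [num_mem] at h
  exact num_sub.2 (Nat.le_of_not_lt h)

/-- Row TD4: LEMMA 2.  (CA) for `r = d` gives `r₀ ∈ r₁ ∈ th`.  For `η ∈ th` there is `ζ ∈ r₁` with
`w_ζ < w_η` modulo `u` (otherwise `w_η ≤ w_ζ` for all `ζ ∈ r₁`; with the predecessor `z` of `w_η`,
`D_ζ^z ∈ u` for all `ζ ∈ r₁`, so `r₁` is covered by `r₀` by `star`, contradiction to
`InfCard.card`).  So `th` is the union over `ζ ∈ r₁` of the sets `{η | D_η^{w_ζ} ∈ u}`, covered by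
`r₀`, so by `r₁`; `Cov.unionF` with `r = s = r₁`: contradiction to `th_card`. -/
theorem lemma2_aux (C : BCtx E lam th t tF X e u d F) {I f : ZFSet.{0}}
    (L : LCtx E lam tF u I f) : False := by
  have S := C.S
  have hu := C.uf
  have := S.tc
  have : InE E lam := ⟨S.lam_card.mem⟩
  have : InE E th := ⟨S.th_card.mem⟩
  have : InE E tF := ⟨S.tF_mem⟩
  have : InE E X := ⟨S.X_mem⟩
  have : InE E e := ⟨S.e_mem⟩
  have : InE E u := ⟨hu.mem⟩
  have : InE E I := ⟨L.I_mem⟩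
  have : InE E f := ⟨L.f_mem⟩
  obtain ⟨r₀, r₁, hd0, hl0, h01, h1th, hc1, hs0, hs1⟩ := S.CA d C.hd
  have ho1 := hc1.ord
  have h0th : r₀ ∈ th := S.th_card.ord.subset_of_mem h1th h01
  have h1sub : r₁ ⊆ th := S.th_card.ord.subset_of_mem h1th
  have h0sub : r₀ ⊆ r₁ := ho1.subset_of_mem h01
  have hr1E : r₁ ∈ E := hc1.mem
  have key : ∀ η ∈ th, ∃ ζ ∈ r₁,
      LtU lam u (wη lam tF X e u I f ζ) (wη lam tF X e u I f η) := by
    intro η hη
    by_contra hcon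
    push Not at hcon
    have : InE E η := ⟨S.trans _ S.th_card.mem _ hη⟩
    have hwη := w_OF S hu L hη
    have hnη := w_NS S hu L hη
    obtain ⟨z, hz, hzn, hzp⟩ := exists_pred S hu hwη hnη
    have : InE E z := ⟨hz.mem⟩
    have hcov := star C L hz hzn h0th hd0 hl0 hs0
    have hall : ∀ ζ ∈ r₁, ζ ∈ ZFSet.sep (fun η => Dz lam X e u I f η z ∈ u) th := by
      intro ζ hζ
      have hζth := h1sub hζ
      have : InE E ζ := ⟨S.trans _ S.th_card.mem _ hζth⟩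
      refine ZFSet.mem_sep.2 ⟨hζth, w_Dz S hu L hζth hz ?_⟩
      have hwζ := w_OF S hu L hζth
      have : InE E (wη lam tF X e u I f ζ) := ⟨hwζ.mem⟩
      have : InE E (wη lam tF X e u I f η) := ⟨hwη.mem⟩
      have h1 : ¬ ZFSet.sep (fun x => ap (wη lam tF X e u I f ζ) x ∈
          ap (wη lam tF X e u I f η) x) lam ∈ u := hcon ζ hζ
      have h2 : ZFSet.sep (fun x => ¬ (ap (wη lam tF X e u I f ζ) x ∈
          ap (wη lam tF X e u I f η) x)) lam ∈ u := by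
        by_contra h3
        exact h1 ((uf_dec S hu (fun x => ap (wη lam tF X e u I f ζ) x ∈
          ap (wη lam tF X e u I f η) x)).2 h3)
      have h3 : ZFSet.sep (fun x => num 1 ⊆ ap (wη lam tF X e u I f η) x) lam ∈ u :=
        hnη (num 1) (mem_omega.2 ⟨1, rfl⟩)
      have h4 := uf_and S hu _ _ h2 h3
      refine uf_mp S hu (fun x => (¬ (ap (wη lam tF X e u I f ζ) x ∈
          ap (wη lam tF X e u I f η) x)) ∧ num 1 ⊆ ap (wη lam tF X e u I f η) x)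
        (fun x => ap z x ∈ ap (wη lam tF X e u I f ζ) x) ?_ h4
      rintro x hx ⟨h5, h6⟩
      refine td4_nat (hwζ.val x hx) (hwη.val x hx) h5 (hzp x hx ?_)
      intro h7
      rw [h7] at h6
      have h8 : (∅ : ZFSet.{0}) ∈ (num 1 : ZFSet.{0}) := by
        have := (num_mem (m := 0) (n := 1)).2 Nat.zero_lt_one
        exact this
      exact ZFSet.notMem_empty _ (h6 h8)
    have hcov1 : Cov E r₀ r₁ := hcov.mono (fun ζ hζ => hall ζ hζ)
    obtain ⟨g, hg, hg1, hg2⟩ := hcov1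
    obtain ⟨y, hy, hy2⟩ := hc1.card r₀ h01 g hg hg1
    obtain ⟨x, hx, hxy⟩ := hg2 y hy
    exact hy2 x hx hxy
  have hd1 : d ⊆ r₁ := fun x hx => h0sub (hd0 hx)
  have hl1 : lam ⊆ r₁ := fun x hx => h0sub (hl0 hx)
  have hdf : DfT E (fun v : Fin 1 → ZFSet.{0} =>
      ZFSet.sep (fun η => Dz lam X e u I f η (wη lam tF X e u I f (v 0)) ∈ u) th) := by
    infer_instance
  have hcth : Cov E r₁ th := by
    refine Cov.unionF (hC := hdf) hr1E hr1E S.th_card.mem hs1 (Cov.of_sub hr1E fun x hx => hx)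
      (fun ζ => ZFSet.sep (fun η => Dz lam X e u I f η (wη lam tF X e u I f ζ) ∈ u) th) ?_ ?_
    · intro ζ hζ
      exact star C L (w_OF S hu L (h1sub hζ)) (w_NS S hu L (h1sub hζ)) h1th hd1 hl1 hs1
    · intro η hη
      obtain ⟨ζ, hζ, hlt⟩ := key η hη
      exact ⟨ζ, hζ, ZFSet.mem_sep.2 ⟨hη, w_Dz S hu L hη (w_OF S hu L (h1sub hζ)) hlt⟩⟩
  obtain ⟨g, hg, hg1, hg2⟩ := hcth
  obtain ⟨y, hy, hy2⟩ := S.th_card.card r₁ h1th g hg hg1
  obtain ⟨x, hx, hxy⟩ := hg2 y hy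
  exact hy2 x hx hxy

end Pool.UT
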