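import Pool.Agent.Lib.MP_9fc97b_ut.TD4

/-!
# UL, theorem T, row TD5: Lemma 2, final form
-/

set_option autoImplicit false
set_option linter.unusedVariables false

open Set

namespace Pool.UT

open Pool.MP_3ade05_lc Pool.PC Pool.UL

variable {E : Set ZFSet.{0}} {lam th : ZFSet.{0}} {t : ℕ → ZFSet.{0}} {tF X e u d F : ZFSet.{0}}

/-- Row TD5: LEMMA 2, positive form (`choose_fun` with values in `fns E lam lam`). -/
theorem lemma2 (C : BCtx E lam th t tF X e u d F) :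
    ∃ n₀ : ℕ, ∀ n ≥ n₀, ∀ f ∈ E, FunOn f lam → (∀ x ∈ lam, ap f x ∈ t (n + 1)) →
      ∃ B ∈ u, Cov E (t n) (im f B) := by
  by_contra hcon
  push Not at hcon
  have S := C.S
  have hu := C.uf
  have := S.tc
  have : InE E lam := ⟨S.lam_card.mem⟩
  have : InE E th := ⟨S.th_card.mem⟩
  have : InE E tF := ⟨S.tF_mem⟩
  have : InE E u := ⟨hu.mem⟩
  -- the bad relation
  set Q : ZFSet.{0} → ZFSet.{0} → Prop := fun n f =>
    (FunOn f lam ∧ ∀ x ∈ lam, ap f x ∈ tS tF n) ∧ ∀ B ∈ u, ¬ Cov E (tt tF n) (im f B) with hQ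
  have hQdf : Df E (fun v : Fin 2 → ZFSet.{0} => Q (v 0) (v 1)) := by
    have h : Df E (fun v : Fin 2 → ZFSet.{0} =>
      (FunOn (v 1) lam ∧ ∀ x ∈ lam, ap (v 1) x ∈ tS tF (v 0)) ∧
        ∀ B ∈ u, ¬ Cov E (tt tF (v 0)) (im (v 1) B)) := inferInstance
    exact h
  have hIdf : Df E (fun v : Fin 1 → ZFSet.{0} => ∃ f ∈ E, Q (v 0) f) := by
    have h : Df E (fun v : Fin 1 → ZFSet.{0} => ∃ f ∈ E,
      ((FunOn f lam ∧ ∀ x ∈ lam, ap f x ∈ tS tF (v 0)) ∧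
        ∀ B ∈ u, ¬ Cov E (tt tF (v 0)) (im f B))) := inferInstance
    exact h
  set I : ZFSet.{0} := ZFSet.sep (fun n => ∃ f ∈ E, Q n f) ZFSet.omega with hI
  have hIE : I ∈ E := sep (E := E) (fun n => ∃ f ∈ E, Q n f) omega_memE
  have : InE E I := ⟨hIE⟩
  have hfnsE : fns E lam lam ∈ E := mem_of (E := E) (fns E lam lam)
  have hmemfns : ∀ n : ℕ, ∀ f ∈ E, FunOn f lam → (∀ x ∈ lam, ap f x ∈ tS tF (num n)) →
      f ∈ fns E lam lam := by
    intro n f hf h1 h2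
    refine mem_fns.2 ⟨hf, h1, fun x hx => ?_⟩
    have h3 := h2 x hx
    rw [S.tS_num] at h3
    exact S.t_sub_lam _ h3
  obtain ⟨f, hf, hf1, hf2⟩ := choose_fun (E := E) (fun n g =>
    (FunOn g lam ∧ ∀ x ∈ lam, ap g x ∈ tS tF n) ∧
      (n ∈ I → ∀ B ∈ u, ¬ Cov E (tt tF n) (im g B))) (a := ZFSet.omega) (b := fns E lam lam)
    omega_memE hfnsE (by
      intro n hn
      obtain ⟨k, rfl⟩ := mem_omega.1 hn
      by_cases hnI : num k ∈ I
      · obtain ⟨-, g, hg, hg1, hg2⟩ := ZFSet.mem_sep.1 hnI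
        exact ⟨g, hmemfns k g hg hg1.1 hg1.2, hg1, fun _ => hg2⟩
      · obtain ⟨a, ha, -⟩ := S.t_two (k + 1)
        have haE : a ∈ E := S.trans _ (S.t_E (k + 1)) _ ha
        have : InE E a := ⟨haE⟩
        have hgE : mkF (fun _ => a) lam ∈ E := mem_of (E := E) (mkF (fun _ => a) lam)
        have hgv : ∀ x ∈ lam, ap (mkF (fun _ => a) lam) x ∈ tS tF (num k) := by
          intro x hx
          rw [ap_mkF hx, S.tS_num]
          exact ha
        exact ⟨_, hmemfns k _ hgE (FunOn_mkF _ _) hgv, ⟨FunOn_mkF _ _, hgv⟩,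
          fun h => absurd h hnI⟩)
  refine lemma2_aux C (I := I) (f := f) ⟨hIE, hf, fun n hn => (ZFSet.mem_sep.1 hn).1, ?_,
    fun n hn => (hf2 n hn).2.1, fun n hn => (hf2 n (ZFSet.mem_sep.1 hn).1).2.2 hn⟩
  intro k hk
  obtain ⟨m, rfl⟩ := mem_omega.1 hk
  obtain ⟨n, hmn, g, hg, hg1, hg2, hg3⟩ := hcon m
  refine ⟨num n, ZFSet.mem_sep.2 ⟨mem_omega.2 ⟨n, rfl⟩, g, hg, ⟨hg1, ?_⟩, ?_⟩, num_sub.2 hmn⟩
  · intro x hx
    rw [S.tS_num]
    exact hg2 x hx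
  · intro B hB
    rw [S.tt_num]
    exact hg3 B hB

end Pool.UT
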