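import Pool.Agent.Lib.MP_9fc97b_ut.TD4

/-!
# UL, theorem T, row TD6: Claim A
-/

set_option autoImplicit false
set_option linter.unusedVariables false

open Set

namespace Pool.UT

open Pool.MP_3ade05_lc Pool.PC Pool.UL

variable {E : Set ZFSet.{0}} {lam th : ZFSet.{0}} {t : ℕ → ZFSet.{0}} {tF X e u d F : ZFSet.{0}}

/-- composition of a covering of `im g' B'` with `s`. -/
lemma TD6_comp [hT : TZ E] {a s g g' B B' : ZFSet.{0}} (ha : a ∈ E) (hs : s ∈ E)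
    (h : Cov E a (im g' B')) (hgf : FunOn g lam) (hgf' : FunOn g' lam) (hB : B ⊆ lam)
    (hB' : B' ⊆ lam) (hBB : B ⊆ B') (heq : ∀ x ∈ B, ap s (ap g' x) = ap g x) :
    Cov E a (im g B) := by
  obtain ⟨s', hs', h1, h2⟩ := h
  haveI : InE E a := ⟨ha⟩
  haveI : InE E s := ⟨hs⟩
  haveI : InE E s' := ⟨hs'⟩
  refine ⟨mkF (fun k => ap s (ap s' k)) a, mem_of (E := E) (mkF (fun k => ap s (ap s' k)) a),
    FunOn_mkF _ _, fun y hy => ?_⟩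
  obtain ⟨x, hx, hxy⟩ := (FunOn.mem_im hgf hB).1 hy
  obtain ⟨k, hk, hkx⟩ := h2 (ap g' x) ((FunOn.mem_im hgf' hB').2 ⟨x, hBB hx, rfl⟩)
  refine ⟨k, hk, pair_mem_mkF.2 ⟨hk, ?_⟩⟩
  rw [(FunOn.ap_eq h1 hk).1 hkx, heq x hx, hxy]

/-- the choice of the codes. -/
lemma TD6_code [hT : TC E] {a s g B : ZFSet.{0}} (ha : a ∈ E) (hlam : lam ∈ E) (hs : s ∈ E)
    (hg : g ∈ E) (hB : B ∈ E) (hne : ∃ j, j ∈ a)
    (h : ∀ x ∈ lam, x ∈ B → ∃ j ∈ a, ap s j = ap g x) :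
    ∃ g' ∈ E, FunOn g' lam ∧ (∀ x ∈ lam, ap g' x ∈ a) ∧
      ∀ x ∈ lam, x ∈ B → ap s (ap g' x) = ap g x := by
  haveI : InE E B := ⟨hB⟩
  haveI : InE E s := ⟨hs⟩
  haveI : InE E g := ⟨hg⟩
  obtain ⟨g', hg', h1, h2⟩ := choose_fun (E := E) (fun x j => x ∈ B → ap s j = ap g x) hlam ha
    (by
      intro x hx
      by_cases hxB : x ∈ B
      · obtain ⟨j, hj, hj'⟩ := h x hx hxB
        exact ⟨j, hj, fun _ => hj'⟩
      · obtain ⟨j, hj⟩ := hne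
        exact ⟨j, hj, fun h => absurd h hxB⟩)
  exact ⟨g', hg', h1, fun x hx => (h2 x hx).1, fun x hx => (h2 x hx).2⟩

/-- Row TD6: CLAIM A: induction on `m ≥ n₀`.  Step: `B ∈ u` with `im g B` covered by `s` on `t_m`;
`choose_fun` (`a = lam`, `b = t m`, `R x j := x ∈ B → ap s j = ap g x`) gives `g'` with values in
`t m`; apply the induction hypothesis to `g'`, get `B'`; `B ∩ B'` works. -/
theorem claimA (C : BCtx E lam th t tF X e u d F) {n₀ : ℕ}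
    (h : ∀ n ≥ n₀, ∀ f ∈ E, FunOn f lam → (∀ x ∈ lam, ap f x ∈ t (n + 1)) →
      ∃ B ∈ u, Cov E (t n) (im f B)) (m : ℕ) (hm : n₀ ≤ m) {g : ZFSet.{0}} (hg : g ∈ E)
    (hgf : FunOn g lam) (hgv : ∀ x ∈ lam, ap g x ∈ t m) : ∃ B ∈ u, Cov E (t n₀) (im g B) := by
  haveI := C.S.tc
  have hlam : lam ∈ E := C.S.lam_card.mem
  induction m, hm using Nat.le_induction generalizing g with
  | base =>
    refine ⟨lam, uf_lam C.S C.uf, cov_id (C.S.t_E n₀) ?_⟩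
    intro y hy
    obtain ⟨x, hx, rfl⟩ := (FunOn.mem_im hgf (fun _ hz => hz)).1 hy
    exact hgv x hx
  | succ m hm ih =>
    obtain ⟨B, hB, s, hs, h1, h2⟩ := h m hm g hg hgf hgv
    have hBl := C.uf.sub B hB
    have hBE : B ∈ E := C.S.trans u C.uf.mem B hB
    obtain ⟨j₀, hj₀, _⟩ := C.S.t_two m
    obtain ⟨g', hg', h3, h4, h5⟩ := TD6_code (E := E) (C.S.t_E m) hlam hs hg hBE ⟨j₀, hj₀⟩
      (by
        intro x hx hxB
        obtain ⟨j, hj, hj'⟩ := h2 (ap g x) ((FunOn.mem_im hgf hBl).2 ⟨x, hxB, rfl⟩)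
        exact ⟨j, hj, (FunOn.ap_eq h1 hj).1 hj'⟩)
    obtain ⟨B', hB', hcov⟩ := ih hg' h3 h4
    refine ⟨B ∩ B', C.uf.inter B hB B' hB', ?_⟩
    refine TD6_comp (C.S.t_E n₀) hs hcov hgf h3 (fun x hx => hBl (ZFSet.mem_inter.1 hx).1)
      (C.uf.sub B' hB') (fun x hx => (ZFSet.mem_inter.1 hx).2) ?_
    intro x hx
    have hxB := (ZFSet.mem_inter.1 hx).1
    exact h5 x (hBl hxB) hxB

/-- Row TD6: CLAIM A for functions with values in a covered set (again `choose_fun`). -/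
theorem claimA' (C : BCtx E lam th t tF X e u d F) {n₀ : ℕ}
    (h : ∀ n ≥ n₀, ∀ f ∈ E, FunOn f lam → (∀ x ∈ lam, ap f x ∈ t (n + 1)) →
      ∃ B ∈ u, Cov E (t n) (im f B)) (m : ℕ) (hm : n₀ ≤ m) {c g : ZFSet.{0}} (hc : c ∈ E)
    (hcv : Cov E (t m) c) (hg : g ∈ E) (hgf : FunOn g lam) (hgv : ∀ x ∈ lam, ap g x ∈ c) :
    ∃ B ∈ u, Cov E (t n₀) (im g B) := by
  haveI := C.S.tc
  have hlam : lam ∈ E := C.S.lam_card.mem
  obtain ⟨s, hs, h1, h2⟩ := hcv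
  obtain ⟨j₀, hj₀, _⟩ := C.S.t_two m
  obtain ⟨g', hg', h3, h4, h5⟩ := TD6_code (E := E) (C.S.t_E m) hlam hs hg hlam ⟨j₀, hj₀⟩
    (by
      intro x hx _
      obtain ⟨j, hj, hj'⟩ := h2 (ap g x) (hgv x hx)
      exact ⟨j, hj, (FunOn.ap_eq h1 hj).1 hj'⟩)
  obtain ⟨B, hB, hcov⟩ := claimA C h m hm hg' h3 h4
  have hBl := C.uf.sub B hB
  exact ⟨B, hB, TD6_comp (C.S.t_E n₀) hs hcov hgf h3 hBl hBl (fun _ hx => hx)
    (fun x hx => h5 x (hBl hx) (hBl hx))⟩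

end Pool.UT
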