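import Pool.Agent.Lib.MP_9fc97b_ut.TD1

/-!
# UL, theorem T, row TD7: Lemma 1
-/

set_option autoImplicit false
set_option linter.unusedVariables false

open Set

namespace Pool.UT

open Pool.MP_3ade05_lc Pool.PC Pool.UL

variable {E : Set ZFSet.{0}} {lam th : ZFSet.{0}} {t : ℕ → ZFSet.{0}} {tF X e u d F : ZFSet.{0}}

/-- the sequence `n ↦ φ[B ∩ {z = n}]` -/
noncomputable abbrev td7A (z φ B : ZFSet.{0}) : ZFSet.{0} :=
  mkF (fun n => im φ (ZFSet.sep (fun x => ap z x = n) B)) ZFSet.omega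

/-- Row TD7: LEMMA 1: there is no good pair. -/
theorem lemma1 (C : BCtx E lam th t tF X e u d F) {z φ : ZFSet.{0}} (hz : OF E lam z)
    (hφ : φ ∈ E) (hφf : FunOn φ lam) (hφv : ∀ x ∈ lam, ap φ x ∈ tS tF (ap z x)) :
    ∃ B ∈ u, ∃ k ∈ ZFSet.omega, ∀ n ∈ ZFSet.omega, k ⊆ n →
      Cov E (tt tF n) (im φ (ZFSet.sep (fun x => ap z x = n) B)) := by
  have S := C.S
  haveI := S.tc
  haveI : InE E z := ⟨hz.mem⟩
  haveI : InE E φ := ⟨hφ⟩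
  haveI : InE E F := ⟨C.hF⟩
  haveI : InE E th := ⟨S.th_card.mem⟩
  haveI : InE E lam := ⟨S.lam_card.mem⟩
  haveI : InE E tF := ⟨S.tF_mem⟩
  haveI : InE E X := ⟨S.X_mem⟩
  haveI : InE E e := ⟨S.e_mem⟩
  haveI : InE E d := ⟨S.trans _ S.th_card.mem _ C.hd⟩
  by_contra hcon
  have hbad : ∀ B ∈ u, ∀ k ∈ ZFSet.omega, ∃ n ∈ ZFSet.omega, k ⊆ n ∧
      ¬ Cov E (tt tF n) (im φ (ZFSet.sep (fun x => ap z x = n) B)) := by
    intro B hB k hk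
    by_contra h1
    refine hcon ⟨B, hB, k, hk, fun n hn hkn => ?_⟩
    by_contra h2
    exact h1 ⟨n, hn, hkn, h2⟩
  obtain ⟨r₀, r₁, hdr, hlr, hr01, hr1, hr1c, hsq0, hsq1⟩ := S.CA d C.hd
  have hA : DfT E (fun v : Fin 1 → ZFSet.{0} => td7A z φ (ap F (v 0))) := inferInstance
  have hr0 : r₀ ∈ th := S.th_card.ord.isTransitive.mem_trans hr01 hr1
  have hA1 : DfT E (fun v : Fin 2 → ZFSet.{0} => td7A z φ (ap F (v 0))) := inferInstance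
  have hBad : DfT E (fun v : Fin 2 → ZFSet.{0} => Bad E th tF X e (td7A z φ (ap F (v 0)))) := by
    have hA2 := hA1.up
    have hA3 := hA2.up
    have hA4 := hA3.up
    have hA5 := hA4.up
    infer_instance
  have hEx : Df E (fun v : Fin 1 → ZFSet.{0} => ∃ i ∈ d,
      v 0 ∈ Bad E th tF X e (td7A z φ (ap F i))) :=
    Df.instBex (t := fun _ => d) (P := fun i v => v 0 ∈ Bad E th tF X e (td7A z φ (ap F i)))
      (hP := inferInstance)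
  have hD : ZFSet.sep (fun η => ∃ i ∈ d, η ∈ Bad E th tF X e (td7A z φ (ap F i))) th ∈ E :=
    sep (E := E) (hP := hEx) (fun η => ∃ i ∈ d, η ∈ Bad E th tF X e (td7A z φ (ap F i)))
      S.th_card.mem
  have hcov : Cov E r₀
      (ZFSet.sep (fun η => ∃ i ∈ d, η ∈ Bad E th tF X e (td7A z φ (ap F i))) th) :=
    exists_good S (fun i => td7A z φ (ap F i)) C.hd hr0 hdr hlr hsq0
      (fun i _ => FunOn_mkF _ _) hD (fun η hη => (ZFSet.mem_sep.1 hη).1)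
      (fun η hη => (ZFSet.mem_sep.1 hη).2)
  obtain ⟨g, hg, hgf, hgc⟩ := hcov
  obtain ⟨η, hη, hηg⟩ := S.th_card.card r₀ hr0 g hg hgf
  have hgood : ∀ i ∈ d, η ∉ Bad E th tF X e (td7A z φ (ap F i)) := by
    intro i hi hb
    obtain ⟨x, hx, hxη⟩ := hgc η (ZFSet.mem_sep.2 ⟨hη, i, hi, hb⟩)
    exact hηg x hx hxη
  haveI : InE E η := ⟨S.trans _ S.th_card.mem _ hη⟩
  -- the value at a pair
  have hval : ∀ i ∈ d, ∃ n ∈ ZFSet.omega,
      (∃ x ∈ ap F i, ap z x = n ∧ XX X e η (ap z x) (ap φ x)) ∧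
      (∃ x ∈ ap F i, ap z x = n ∧ ¬ XX X e η (ap z x) (ap φ x)) := by
    intro i hi
    have hFl : ap F i ⊆ lam := C.uf.sub _ (C.mem i hi)
    have h1 : ∃ k ∈ ZFSet.omega, ∀ n ∈ ZFSet.omega, k ⊆ n →
        ap (td7A z φ (ap F i)) n ⊆ tS tF n → ¬ Cov E (tt tF n) (ap (td7A z φ (ap F i)) n) →
        (∃ a ∈ ap (td7A z φ (ap F i)) n, XX X e η n a) ∧
        (∃ a ∈ ap (td7A z φ (ap F i)) n, ¬ XX X e η n a) := by
      by_contra h2
      exact hgood i hi (ZFSet.mem_sep.2 ⟨hη, h2⟩)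
    obtain ⟨k, hk, hk2⟩ := h1
    obtain ⟨n, hn, hkn, hnc⟩ := hbad (ap F i) (C.mem i hi) k hk
    have hap : ap (td7A z φ (ap F i)) n = im φ (ZFSet.sep (fun x => ap z x = n) (ap F i)) :=
      ap_mkF hn
    have hmem : ∀ a ∈ ap (td7A z φ (ap F i)) n, ∃ x ∈ ap F i, ap z x = n ∧ ap φ x = a := by
      intro a ha
      rw [hap] at ha
      obtain ⟨x, hx, hxa⟩ := (FunOn.mem_im hφf (fun y hy => hFl (ZFSet.mem_sep.1 hy).1)).1 ha
      obtain ⟨hx1, hx2⟩ := ZFSet.mem_sep.1 hx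
      exact ⟨x, hx1, hx2, hxa⟩
    obtain ⟨⟨a, ha, ha2⟩, ⟨b, hb, hb2⟩⟩ := hk2 n hn hkn (by
      intro a ha
      obtain ⟨x, hx, hxn, rfl⟩ := hmem a ha
      rw [← hxn]
      exact hφv x (hFl hx)) (by
      rw [hap]
      exact hnc)
    obtain ⟨x, hx, hxn, rfl⟩ := hmem a ha
    obtain ⟨y, hy, hyn, rfl⟩ := hmem b hb
    refine ⟨n, hn, ⟨x, hx, hxn, ?_⟩, ⟨y, hy, hyn, ?_⟩⟩
    · rw [hxn]
      exact ha2
    · rw [hyn]
      exact hb2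
  have hdec := uf_dec S C.uf (fun x => XX X e η (ap z x) (ap φ x))
  by_cases hD1 : ZFSet.sep (fun x => XX X e η (ap z x) (ap φ x)) lam ∈ u
  · obtain ⟨i, hi, hi2⟩ := C.base _ hD1
    obtain ⟨n, hn, -, ⟨y, hy, -, hy2⟩⟩ := hval i hi
    exact hy2 (ZFSet.mem_sep.1 (hi2 hy)).2
  · have hD2 : ZFSet.sep (fun x => ¬ XX X e η (ap z x) (ap φ x)) lam ∈ u := by
      by_contra h2
      exact hD1 (hdec.2 h2)
    obtain ⟨i, hi, hi2⟩ := C.base _ hD2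
    obtain ⟨n, hn, ⟨y, hy, -, hy2⟩, -⟩ := hval i hi
    exact (ZFSet.mem_sep.1 (hi2 hy)).2 hy2

end Pool.UT
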