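import Pool.Agent.Lib.MP_9fc97b_ut.Fun
import Pool.Agent.Lib.MP_9fc97b_ut.Setting

/-!
# UL, theorem T: definitions

`E` is a transitive model of ZFC; all objects are elements of `E`; the natural numbers are the
elements of `ZFSet.omega`, `insert n n` is `n + 1`, `k ⊆ n` is `k ≤ n`.
-/

set_option autoImplicit false
set_option linter.unusedVariables false

open Set

namespace Pool.UT

open Pool.MP_3ade05_lc Pool.PC Pool.UL

/-! ### Instances for `Cov` -/

section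

variable {E : Set ZFSet.{0}} [TZ E]

instance Df.instCov {n : ℕ} {f a : (Fin n → ZFSet.{0}) → ZFSet.{0}} [hf : DfT E f]
    [ha : DfT E a] : Df E (fun v => Cov E (f v) (a v)) := by
  have hf1 := hf.up
  have hf2 := hf1.up
  have hf3 := hf2.up
  have ha1 := ha.up
  have ha2 := ha1.up
  have ha3 := ha2.up
  have : Df E (fun v => ∃ g ∈ E, FunOn g (f v) ∧ ∀ y ∈ a v, ∃ x ∈ f v, ZFSet.pair x y ∈ g) :=
    inferInstance
  exact this

end

/-! ### The objects of the setting -/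

/-- `t_n`. -/
noncomputable abbrev tt (tF n : ZFSet.{0}) : ZFSet.{0} := ap tF n

/-- `t_{n+1}`. -/
noncomputable abbrev tS (tF n : ZFSet.{0}) : ZFSet.{0} := ap tF (insert n n)

/-- `e_η(n)`. -/
noncomputable abbrev ee (e η n : ZFSet.{0}) : ZFSet.{0} := ap e (ZFSet.pair η n)

/-- `X^n(e_η(n), a) = 1`. -/
abbrev XX (X e η n a : ZFSet.{0}) : Prop := ZFSet.pair n (ZFSet.pair (ee e η n) a) ∈ X

/-- The set of the `η` for which (LC) fails for the sequence `A`. -/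
noncomputable abbrev Bad (E : Set ZFSet.{0}) (th tF X e A : ZFSet.{0}) : ZFSet.{0} :=
  ZFSet.sep (fun η => ¬ ∃ k ∈ ZFSet.omega, ∀ n ∈ ZFSet.omega, k ⊆ n → ap A n ⊆ tS tF n →
    ¬ Cov E (tt tF n) (ap A n) →
      (∃ a ∈ ap A n, XX X e η n a) ∧ (∃ a ∈ ap A n, ¬ XX X e η n a)) th

/-- `z` is a function from `lam` to `ω` in `E`. -/
structure OF (E : Set ZFSet.{0}) (lam z : ZFSet.{0}) : Prop where
  mem : z ∈ E
  fn : FunOn z lam
  val : ∀ x ∈ lam, ap z x ∈ ZFSet.omega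

/-- `z` is thin: `{z ≤ n}` is `(n + 1)`-small. -/
def Thin (E : Set ZFSet.{0}) (lam tF z : ZFSet.{0}) : Prop :=
  ∀ n ∈ ZFSet.omega, Cov E (tS tF n) (ZFSet.sep (fun x => ap z x ⊆ n) lam)

/-- `z = z'` modulo `u`. -/
def EqU (lam u z z' : ZFSet.{0}) : Prop := ZFSet.sep (fun x => ap z x = ap z' x) lam ∈ u

/-- `z ≤ z'` modulo `u`. -/
def LeU (lam u z z' : ZFSet.{0}) : Prop := ZFSet.sep (fun x => ap z x ⊆ ap z' x) lam ∈ u

/-- `z < z'` modulo `u`. -/
def LtU (lam u z z' : ZFSet.{0}) : Prop := ZFSet.sep (fun x => ap z x ∈ ap z' x) lam ∈ u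

/-- `z` is nonstandard modulo `u`. -/
def NS (lam u z : ZFSet.{0}) : Prop := ∀ k ∈ ZFSet.omega, ZFSet.sep (fun x => k ⊆ ap z x) lam ∈ u

/-- `z_0(x)` is the least `n` with `x ∈ t_{n+1}`. -/
noncomputable def z0 (lam tF : ZFSet.{0}) : ZFSet.{0} :=
  mkF (fun x => ZFSet.sep (fun n => x ∉ tS tF n) ZFSet.omega) lam

/-- The setting together with a base `F` of the uniform ultrafilter `u` indexed by `d ∈ th`. -/
structure BCtx (E : Set ZFSet.{0}) (lam th : ZFSet.{0}) (t : ℕ → ZFSet.{0})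
    (tF X e u d F : ZFSet.{0}) : Prop where
  S : Setting E lam th t tF X e
  uf : UnifUF E lam u
  hd : d ∈ th
  hF : F ∈ E
  fn : FunOn F d
  mem : ∀ i ∈ d, ap F i ∈ u
  base : ∀ A ∈ u, ∃ i ∈ d, ap F i ⊆ A

end Pool.UT
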