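import Pool.Agent.Lib.MP_9fc97b_ut.TC1

/-!
# UL, theorem T, row TE1: sets of functions on `t_n`
-/

set_option autoImplicit false
set_option linter.unusedVariables false

open Set

namespace Pool.UT

open Pool.MP_3ade05_lc Pool.PC Pool.UL

variable {E : Set ZFSet.{0}} {lam th : ZFSet.{0}} {t : ℕ → ZFSet.{0}} {tF X e u d F : ZFSet.{0}}

/-- Row TE1: the set of the functions from `t_n` to `ω` is covered by some `t_k`. -/
lemma fns_small (S : Setting E lam th t tF X e) (n : ℕ) :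
    ∃ k ≥ n, Cov E (t k) (fns E (t n) ZFSet.omega) := by
  haveI := S.tc
  obtain ⟨k, hk⟩ := S.SL n
  have ho : (t n).IsOrdinal := S.lam_card.ord.mem (S.t_lam n)
  have hω : ZFSet.omega ⊆ t n := ho.isTransitive _ (S.t_sub (Nat.zero_le n) S.t_inf)
  refine ⟨max k n, le_max_right _ _, fns_cov (S.t_E n) (omega_memE (E := E)) (S.t_E _) hω (S.PA n) ?_⟩
  exact PowLe.enl (S.t_E k) (S.t_E _) hk (Cov.of_sub (S.t_E _) (S.t_sub (le_max_left _ _)))

/-- Row TE1: some `t_l` is not covered by `t_k`. -/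
lemma exists_big (S : Setting E lam th t tF X e) (k : ℕ) : ∃ l ≥ k, ¬ Cov E (t k) (t l) := by
  haveI := S.tc
  obtain ⟨l, hl⟩ := S.SL k
  refine ⟨max l k, le_max_right _ _, fun h => cantor' (S.t_E k) (S.t_E l) hl ?_⟩
  exact Cov.mono h (S.t_sub (le_max_left _ _))

end Pool.UT
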