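import Pool.Agent.Lib.MP_9fc97b_ut.TE6
import Pool.Agent.Lib.MP_9fc97b_ut.Ex

/-!
# UL, theorem T, row TE2: representatives of the thin functions
-/

set_option autoImplicit false
set_option linter.unusedVariables false

open Set

namespace Pool.UT

open Pool.MP_3ade05_lc Pool.PC Pool.UL

variable {E : Set ZFSet.{0}} {lam th : ZFSet.{0}} {t : ℕ → ZFSet.{0}} {tF X e u d F : ZFSet.{0}}

/-- A set of ordinals is covered by the ordinal `a` or contains an injective image of it. -/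
theorem te2_inj_or_cov [hT : TC E] {a th R : ZFSet.{0}} (ha : a ∈ E) (hao : a.IsOrdinal)
    (hth : th ∈ E) (hto : th.IsOrdinal) (hR : R ∈ E) (hRt : R ⊆ th) :
    Cov E a R ∨ ∃ w ∈ E, FunOn w a ∧ (∀ i ∈ a, ap w i ∈ R) ∧
      ∀ i ∈ a, ∀ j ∈ a, ap w i = ap w j → i = j := by
  have : InE E a := ⟨ha⟩
  have : InE E th := ⟨hth⟩
  have : InE E R := ⟨hR⟩
  set G : ZFSet.{0} → ZFSet.{0} := fun f =>
    ZFSet.sep (fun ζ => ∀ ξ ∈ R, ζ ∉ ξ → ∃ x ∈ E, ZFSet.pair x ξ ∈ f) th with hG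
  have hGdf : DfT E (fun v : Fin 1 → ZFSet.{0} => G (v 0)) := by
    have h : DfT E (fun v : Fin 1 → ZFSet.{0} =>
      ZFSet.sep (fun ζ => ∀ ξ ∈ R, ζ ∉ ξ → ∃ x ∈ E, ZFSet.pair x ξ ∈ v 0) th) := inferInstance
    exact h
  -- the value
  have hval : ∀ f ∈ E, (∃ ξ ∈ R, ∀ x ∈ E, ZFSet.pair x ξ ∉ f) →
      G f ∈ R ∧ ∀ x ∈ E, ZFSet.pair x (G f) ∉ f := by
    rintro f hf ⟨ξ₁, hξ₁, hξ₁'⟩
    -- a least one
    have hmin : ∃ ξ ∈ R, (∀ x ∈ E, ZFSet.pair x ξ ∉ f) ∧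
        ∀ ζ ∈ ξ, ζ ∈ R → ∃ x ∈ E, ZFSet.pair x ζ ∈ f := by
      induction ξ₁ using ZFSet.inductionOn with
      | h ξ₁ ih =>
        by_cases h : ∀ ζ ∈ ξ₁, ζ ∈ R → ∃ x ∈ E, ZFSet.pair x ζ ∈ f
        · exact ⟨ξ₁, hξ₁, hξ₁', h⟩
        · push Not at h
          obtain ⟨ζ, h1, h2, h3⟩ := h
          exact ih ζ h1 h2 h3
    obtain ⟨ξ, h1, h2, h3⟩ := hmin
    have hξo : ξ.IsOrdinal := hto.mem (hRt h1)
    have hGξ : G f = ξ := by
      ext ζ
      rw [hG]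
      simp only [ZFSet.mem_sep]
      constructor
      · rintro ⟨h4, h5⟩
        by_contra h6
        obtain ⟨x, hx, h7⟩ := h5 ξ h1 h6
        exact h2 x hx h7
      · intro h4
        refine ⟨hto.subset_of_mem (hRt h1) h4, fun ξ' h5 h6 => ?_⟩
        have hξo' : ξ'.IsOrdinal := hto.mem (hRt h5)
        rcases ZFSet.IsOrdinal.mem_trichotomous hξo' hξo with h7 | h7 | h7
        · exact h3 ξ' h7 h5
        · subst h7
          exact absurd h4 h6
        · exact absurd (hξo'.subset_of_mem h7 h4) h6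
    rw [hGξ]
    exact ⟨h1, h2⟩
  obtain ⟨F, hF, hF1, hF2⟩ := recB (E := E) G (nu := a) (b := pw E th) ha hao
    (mem_of (E := E) (pw E th)) (fun f hf => mem_pw.2 ⟨by
      have : InE E f := ⟨hf⟩
      have h : DfT E (fun v : Fin 0 → ZFSet.{0} =>
        ZFSet.sep (fun ζ => ∀ ξ ∈ R, ζ ∉ ξ → ∃ x ∈ E, ZFSet.pair x ξ ∈ f) th) := inferInstance
      exact h.mem Fin.elim0 (fun i => i.elim0), fun ζ hζ => (ZFSet.mem_sep.1 hζ).1⟩)
  by_cases h : ∃ i ∈ a, ∀ ξ ∈ R, ∃ x ∈ E, ZFSet.pair x ξ ∈ rs F i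
  · left
    obtain ⟨i, hi, h1⟩ := h
    obtain ⟨h2, h3, h4, h5, h6⟩ := hF2 i hi
    have h7 : Cov E i R := ⟨rs F i, h3, h4, fun ξ hξ => by
      obtain ⟨x, hx, h8⟩ := h1 ξ hξ
      exact ⟨x, FunOn.dom h4 h8, h8⟩⟩
    exact cov_mono ha (hao.subset_of_mem hi) h7
  · right
    push Not at h
    have key : ∀ i ∈ a, ap F i ∈ R ∧ ∀ j ∈ i, ap F j ≠ ap F i := by
      intro i hi
      obtain ⟨h2, h3, h4, h5, h6⟩ := hF2 i hi
      obtain ⟨ξ, hξ, h7⟩ := h i hi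
      obtain ⟨h8, h9⟩ := hval (rs F i) h3 ⟨ξ, hξ, h7⟩
      rw [← h6] at h8 h9
      refine ⟨h8, fun j hj he => ?_⟩
      have hjE : j ∈ E := hT.trans a ha j (hao.subset_of_mem hi hj)
      apply h9 j hjE
      rw [← he, ← h5 j hj]
      exact FunOn.ap_mem h4 hj
    refine ⟨F, hF, hF1, fun i hi => (key i hi).1, fun i hi j hj he => ?_⟩
    rcases ZFSet.IsOrdinal.mem_trichotomous (hao.mem hi) (hao.mem hj) with h7 | h7 | h7
    · exact absurd he ((key j hj).2 i h7)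
    · exact h7
    · exact absurd he.symm ((key i hi).2 j h7)

/-- The difference of `t_{n+1}` and `t_n` is large if `t_n` does not cover `t_{n+1}`. -/
theorem te2_diff (S : Setting E lam th t tF X e) (n : ℕ) (h : ¬ Cov E (t n) (t (n + 1))) :
    Cov E (t (n + 1) \ t n) (t n) := by
  have := S.tc
  have hn := Ex.t_memV S n
  have hn1 := Ex.t_memV S (n + 1)
  have hR : t (n + 1) \ t n ∈ E := diff_mem hn1 hn
  have hsub : t (n + 1) \ t n ⊆ t (n + 1) := fun x hx => (ZFSet.mem_sdiff.1 hx).1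
  rcases te2_inj_or_cov hn (Ex.t_ord S n) hn1 (Ex.t_ord S (n + 1)) hR hsub with h1 | h1
  · exfalso
    apply h
    refine Ex.cov2 S hn hR (cov_id hn (fun x hx => hx)) h1 fun x hx => ?_
    rw [ZFSet.mem_union, ZFSet.mem_sdiff]
    by_cases hx' : x ∈ t n
    · exact Or.inl hx'
    · exact Or.inr ⟨hx, hx'⟩
  · obtain ⟨w, hw, hw1, hw2, hw3⟩ := h1
    have : InE E w := ⟨hw⟩
    have : InE E (t n) := ⟨hn⟩
    have : InE E (t (n + 1) \ t n) := ⟨hR⟩
    have hE : mkF (fun y => ZFSet.sUnion (ZFSet.sep (fun i => ap w i = y) (t n)))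
        (t (n + 1) \ t n) ∈ E := by
      have h : DfT E (fun v : Fin 0 → ZFSet.{0} =>
        mkF (fun y => ZFSet.sUnion (ZFSet.sep (fun i => ap w i = y) (t n)))
        (t (n + 1) \ t n)) := inferInstance
      exact h.mem Fin.elim0 (fun i => i.elim0)
    refine ⟨_, hE, FunOn_mkF _ _, fun i hi => ⟨ap w i, hw2 i hi, ?_⟩⟩
    rw [pair_mem_mkF]
    refine ⟨hw2 i hi, ?_⟩
    have h2 : ZFSet.sep (fun i' => ap w i' = ap w i) (t n) = {i} := by
      ext j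
      rw [ZFSet.mem_sep, ZFSet.mem_singleton]
      constructor
      · rintro ⟨h3, h4⟩
        exact hw3 j h3 i hi h4
      · rintro rfl
        exact ⟨hi, rfl⟩
    rw [h2, ZFSet.sUnion_singleton]

/-- Unboundedly many `n` such that `t_n` does not cover `t_{n+1}`. -/
theorem te2_unb (S : Setting E lam th t tF X e) (n : ℕ) :
    ∃ m ≥ n, ¬ Cov E (t m) (t (m + 1)) := by
  have := S.tc
  by_contra h
  push Not at h
  have h1 : ∀ m ≥ n, Cov E (t n) (t m) := by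
    intro m hm
    induction m, hm using Nat.le_induction with
    | base => exact cov_id (Ex.t_memV S n) (fun x hx => hx)
    | succ m hm ih => exact cov_trans (Ex.t_memV S n) (h m hm) ih
  obtain ⟨l, hl, h2⟩ := exists_big S n
  exact h2 (h1 l hl)

/-- `lam × ω` is covered by `lam`. -/
theorem te2_lam_omega (S : Setting E lam th t tF X e) : Cov E lam (prd lam ZFSet.omega) := by
  have := S.tc
  have : InE E lam := ⟨S.lam_card.mem⟩
  have : InE E tF := ⟨S.tF_mem⟩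
  set K : ZFSet.{0} := ZFSet.sep (fun n => ¬ Cov E (tt tF n) (tS tF n)) ZFSet.omega with hK
  have hKE : K ∈ E := by
    have h : DfT E (fun v : Fin 0 → ZFSet.{0} =>
      ZFSet.sep (fun n => ¬ Cov E (tt tF n) (tS tF n)) ZFSet.omega) := inferInstance
    exact h.mem Fin.elim0 (fun i => i.elim0)
  have : InE E K := ⟨hKE⟩
  obtain ⟨G, hG, hG1, hG2⟩ := choose_fun (E := E) (fun n g =>
      FunOn g (tS tF n \ tt tF n) ∧ ∀ y ∈ prd (tt tF n) (tt tF n), ∃ x ∈ tS tF n \ tt tF n,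
        ap g x = y) (hR := inferInstance) (a := K) (b := pw E (prd lam (prd lam lam))) hKE
      (mem_of (E := E) (pw E (prd lam (prd lam lam)))) (by
    intro n' hn'
    obtain ⟨hn1, hn2⟩ := ZFSet.mem_sep.1 hn'
    obtain ⟨n, rfl⟩ := mem_omega.1 hn1
    rw [S.tt_num, S.tS_num] at hn2
    have h1 : Cov E (t (n + 1) \ t n) (prd (t n) (t n)) :=
      cov_trans (diff_mem (S.t_E _) (S.t_E _)) (cov_prd (S.t_E n) (S.PA n)
        (cov_id (S.t_E n) (fun x hx => hx)) (cov_id (S.t_E n) (fun x hx => hx))) (te2_diff S n hn2)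
    have hne : ∃ y, y ∈ prd (t n) (t n) := by
      obtain ⟨x, hx, _⟩ := S.t_two n
      exact ⟨ZFSet.pair x x, pair_mem_prd.2 ⟨hx, hx⟩⟩
    have : InE E (t n) := ⟨S.t_E n⟩
    obtain ⟨g, hg, hg1, hg2, hg3⟩ := Cov.onto (E := E) (diff_mem (S.t_E (n + 1)) (S.t_E n))
      (mem_of (E := E) (prd (t n) (t n))) hne h1
    refine ⟨g, mem_pw.2 ⟨hg, fun z hz => ?_⟩, ?_⟩
    · obtain ⟨x, hx, y, rfl⟩ := hg1.1 z hz
      rw [pair_mem_prd]
      refine ⟨S.t_sub_lam (n + 1) (ZFSet.mem_sdiff.1 hx).1, ?_⟩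
      have h5 := (FunOn.ap_eq hg1 hx).1 hz
      have h6 := hg2 x hx
      rw [h5, mem_prd] at h6
      obtain ⟨p, hp, q, hq, rfl⟩ := h6
      exact pair_mem_prd.2 ⟨S.t_sub_lam n hp, S.t_sub_lam n hq⟩
    · rw [S.tt_num, S.tS_num]
      exact ⟨hg1, hg3⟩)
  have : InE E G := ⟨hG⟩
  set nn : ZFSet.{0} → ZFSet.{0} := fun x =>
    ZFSet.sUnion (ZFSet.sep (fun n => x ∈ tS tF n ∧ x ∉ tt tF n) ZFSet.omega) with hnn
  have hhE : mkF (fun x => ap (ap G (nn x)) x) lam ∈ E := by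
    have h : DfT E (fun v : Fin 0 → ZFSet.{0} => mkF (fun x => ap (ap G
      (ZFSet.sUnion (ZFSet.sep (fun n => x ∈ tS tF n ∧ x ∉ tt tF n) ZFSet.omega))) x) lam) :=
      inferInstance
    exact h.mem Fin.elim0 (fun i => i.elim0)
  refine ⟨_, hhE, FunOn_mkF _ _, fun y hy => ?_⟩
  obtain ⟨p, hp, q, hq, rfl⟩ := mem_prd.1 hy
  obtain ⟨n₀, hn₀⟩ := S.t_union p hp
  obtain ⟨m, hm, hm'⟩ := te2_unb S n₀
  have hmK : num m ∈ K := by
    rw [hK, ZFSet.mem_sep, S.tt_num, S.tS_num]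
    exact ⟨mem_omega.2 ⟨m, rfl⟩, hm'⟩
  have hpm : p ∈ t m := S.t_sub hm hn₀
  have hqm : q ∈ t m := by
    obtain ⟨k, rfl⟩ := mem_omega.1 hq
    exact Ex.num_mem_t S k m
  obtain ⟨h1, h2, h3⟩ := hG2 (num m) hmK
  rw [S.tt_num, S.tS_num] at h3
  obtain ⟨x, hx, hxy⟩ := h3 (ZFSet.pair p q) (pair_mem_prd.2 ⟨hpm, hqm⟩)
  obtain ⟨hx1, hx2⟩ := ZFSet.mem_sdiff.1 hx
  have hxl : x ∈ lam := S.t_sub_lam _ hx1
  refine ⟨x, hxl, pair_mem_mkF.2 ⟨hxl, ?_⟩⟩
  have hnx : nn x = num m := by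
    have h4 : ZFSet.sep (fun n => x ∈ tS tF n ∧ x ∉ tt tF n) ZFSet.omega = {num m} := by
      ext n'
      rw [ZFSet.mem_sep, ZFSet.mem_singleton]
      constructor
      · rintro ⟨h5, h6, h7⟩
        obtain ⟨n, rfl⟩ := mem_omega.1 h5
        rw [S.tS_num] at h6
        rw [S.tt_num] at h7
        have h8 : n = m := by
          rcases lt_trichotomy n m with h9 | h9 | h9
          · exact absurd (S.t_sub (by omega : n + 1 ≤ m) h6) hx2
          · exact h9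
          · exact absurd (S.t_sub (by omega : m + 1 ≤ n) hx1) h7
        rw [h8]
      · rintro rfl
        rw [S.tS_num, S.tt_num]
        exact ⟨mem_omega.2 ⟨m, rfl⟩, hx1, hx2⟩
    rw [hnn]
    simp only
    rw [h4, ZFSet.sUnion_singleton]
  rw [hnx, hxy]

/-- Row TE2: a small family of thin functions which represents all classes modulo `u`. -/
theorem exists_reps (C : BCtx E lam th t tF X e u d F) : ∃ l : ℕ, ∃ w ∈ E, FunOn w (t l) ∧
    (∀ i ∈ t l, OF E lam (ap w i) ∧ Thin E lam tF (ap w i)) ∧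
    ∀ z, OF E lam z → Thin E lam tF z → ∃ i ∈ t l, EqU lam u z (ap w i) := by
  have S := C.S
  have := S.tc
  have : InE E lam := ⟨S.lam_card.mem⟩
  have : InE E th := ⟨S.th_card.mem⟩
  have : InE E tF := ⟨S.tF_mem⟩
  have : InE E u := ⟨C.uf.mem⟩
  obtain ⟨l, hl⟩ := claimB C
  have : InE E (t l) := ⟨S.t_E l⟩
  obtain ⟨c, hc, hc1, hc2⟩ := fun_cov (E := E) S.th_card.mem S.lam_card.mem
    (mem_of (E := E) ZFSet.omega) (te2_lam_omega S) S.PK
  have : InE E c := ⟨hc⟩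
  -- `EqU` is an equivalence relation
  have hrefl : ∀ z, EqU lam u z z := by
    intro z
    unfold EqU
    have h1 : ZFSet.sep (fun x => ap z x = ap z x) lam = lam := by
      ext x; simp
    rw [h1]
    exact uf_lam S C.uf
  have hsymm : ∀ z z', EqU lam u z z' → EqU lam u z' z := by
    intro z z' h
    unfold EqU at h ⊢
    have h1 : ZFSet.sep (fun x => ap z' x = ap z x) lam = ZFSet.sep (fun x => ap z x = ap z' x) lam := by
      ext x; simp only [ZFSet.mem_sep, eq_comm]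
    rw [h1]
    exact h
  have htrans : ∀ z z' z'', z ∈ E → z'' ∈ E → EqU lam u z z' → EqU lam u z' z'' →
      EqU lam u z z'' := by
    intro z z' z'' hz hz'' h h'
    have : InE E z := ⟨hz⟩
    have : InE E z'' := ⟨hz''⟩
    unfold EqU at h h' ⊢
    refine C.uf.up _ (C.uf.inter _ h _ h') _ ?_ ?_ ?_
    · have h : DfT E (fun v : Fin 0 → ZFSet.{0} => ZFSet.sep (fun x => ap z x = ap z'' x) lam) :=
        inferInstance
      exact h.mem Fin.elim0 (fun i => i.elim0)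
    · exact fun x hx => (ZFSet.mem_sep.1 hx).1
    · intro x hx
      rw [ZFSet.mem_inter, ZFSet.mem_sep, ZFSet.mem_sep] at hx
      rw [ZFSet.mem_sep]
      exact ⟨hx.1.1, hx.1.2.trans hx.2.2⟩
  -- the set of the least representatives
  set R : ZFSet.{0} := ZFSet.sep (fun ξ => (OF E lam (ap c ξ) ∧ Thin E lam tF (ap c ξ)) ∧
    ∀ ζ ∈ ξ, (OF E lam (ap c ζ) ∧ Thin E lam tF (ap c ζ)) → ¬ EqU lam u (ap c ζ) (ap c ξ)) th
    with hR
  have hRE : R ∈ E := by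
    have h : DfT E (fun v : Fin 0 → ZFSet.{0} => ZFSet.sep (fun ξ => (OF E lam (ap c ξ) ∧
      Thin E lam tF (ap c ξ)) ∧ ∀ ζ ∈ ξ, (OF E lam (ap c ζ) ∧ Thin E lam tF (ap c ζ)) →
      ¬ EqU lam u (ap c ζ) (ap c ξ)) th) := inferInstance
    exact h.mem Fin.elim0 (fun i => i.elim0)
  have : InE E R := ⟨hRE⟩
  have hRt : R ⊆ th := fun x hx => (ZFSet.mem_sep.1 hx).1
  have hrep : ∀ z, OF E lam z → Thin E lam tF z → ∃ ξ ∈ R, EqU lam u z (ap c ξ) := by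
    intro z hz hz'
    obtain ⟨ξ₀, hξ₀, he⟩ := hc2 z hz.mem hz.fn hz.val
    have key : ∀ ξ : ZFSet.{0}, ξ ∈ th → (OF E lam (ap c ξ) ∧ Thin E lam tF (ap c ξ)) →
        EqU lam u z (ap c ξ) → ∃ ξ ∈ R, EqU lam u z (ap c ξ) := by
      intro ξ
      induction ξ using ZFSet.inductionOn with
      | h ξ ih =>
        intro h1 h2 h3
        by_cases h4 : ∃ ζ ∈ ξ, (OF E lam (ap c ζ) ∧ Thin E lam tF (ap c ζ)) ∧ EqU lam u z (ap c ζ)
        · obtain ⟨ζ, h5, h6, h7⟩ := h4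
          exact ih ζ h5 (S.th_card.ord.subset_of_mem h1 h5) h6 h7
        · push Not at h4
          refine ⟨ξ, ZFSet.mem_sep.2 ⟨h1, h2, fun ζ h5 h6 h7 => ?_⟩, h3⟩
          exact h4 ζ h5 h6 (htrans _ _ _ hz.mem h6.1.mem h3 (hsymm _ _ h7))
    refine key ξ₀ hξ₀ ?_ ?_
    · rw [he]; exact ⟨hz, hz'⟩
    · rw [he]; exact hrefl z
  have hinj : ∀ ξ ∈ R, ∀ ξ' ∈ R, EqU lam u (ap c ξ) (ap c ξ') → ξ = ξ' := by
    intro ξ h1 ξ' h2 h3
    obtain ⟨h4, h5, h6⟩ := ZFSet.mem_sep.1 h1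
    obtain ⟨h7, h8, h9⟩ := ZFSet.mem_sep.1 h2
    rcases ZFSet.IsOrdinal.mem_trichotomous (S.th_card.ord.mem h4) (S.th_card.ord.mem h7) with h | h | h
    · exact absurd h3 (h9 ξ h h5)
    · exact h
    · exact absurd (hsymm _ _ h3) (h6 ξ' h h8)
  rcases te2_inj_or_cov (S.t_E l) (Ex.t_ord S l) S.th_card.mem S.th_card.ord hRE hRt with h1 | h1
  · obtain ⟨f, hf, hf1, hf2⟩ := h1
    have : InE E f := ⟨hf⟩
    set TF : ZFSet.{0} := ZFSet.sep (fun z => OF E lam z ∧ Thin E lam tF z)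
      (pw E (prd lam ZFSet.omega)) with hTF
    have hTFE : TF ∈ E := by
      have h : DfT E (fun v : Fin 0 → ZFSet.{0} => ZFSet.sep (fun z => OF E lam z ∧
        Thin E lam tF z) (pw E (prd lam ZFSet.omega))) := inferInstance
      exact h.mem Fin.elim0 (fun i => i.elim0)
    have hmTF : ∀ z, OF E lam z → Thin E lam tF z → z ∈ TF := by
      intro z hz hz'
      refine ZFSet.mem_sep.2 ⟨mem_pw.2 ⟨hz.mem, fun y hy => ?_⟩, hz, hz'⟩
      obtain ⟨x, hx, v, rfl⟩ := hz.fn.1 y hy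
      have h5 := (FunOn.ap_eq hz.fn hx).1 hy
      rw [pair_mem_prd, ← h5]
      exact ⟨hx, hz.val x hx⟩
    obtain ⟨w, hw, hw1, hw2⟩ := choose_fun (E := E) (fun i z => ap f i ∈ R → z = ap c (ap f i))
      (hR := inferInstance) (a := t l) (b := TF) (S.t_E l) hTFE (by
        intro i hi
        by_cases h2 : ap f i ∈ R
        · obtain ⟨h3, h4, _⟩ := ZFSet.mem_sep.1 h2
          exact ⟨ap c (ap f i), hmTF _ h4.1 h4.2, fun _ => rfl⟩
        · exact ⟨z0 lam tF, hmTF _ (z0_OF S) (z0_thin S), fun h => absurd h h2⟩)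
    refine ⟨l, w, hw, hw1, fun i hi => (ZFSet.mem_sep.1 (hw2 i hi).1).2, fun z hz hz' => ?_⟩
    obtain ⟨ξ, h2, h3⟩ := hrep z hz hz'
    obtain ⟨i, hi, h4⟩ := hf2 ξ h2
    have h5 := (FunOn.ap_eq hf1 hi).1 h4
    refine ⟨i, hi, ?_⟩
    rw [(hw2 i hi).2 (by rw [h5]; exact h2), h5]
    exact h3
  · exfalso
    obtain ⟨w, hw, hw1, hw2, hw3⟩ := h1
    have : InE E w := ⟨hw⟩
    have hE : mkF (fun i => ap c (ap w i)) (t l) ∈ E := by
      have h : DfT E (fun v : Fin 0 → ZFSet.{0} => mkF (fun i => ap c (ap w i)) (t l)) :=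
        inferInstance
      exact h.mem Fin.elim0 (fun i => i.elim0)
    obtain ⟨i, hi, j, hj, hij, h2⟩ := hl _ hE (FunOn_mkF _ _) (fun i hi => by
      rw [ap_mkF hi]
      exact (ZFSet.mem_sep.1 (hw2 i hi)).2.1.1)
    rw [ap_mkF hi, ap_mkF hj] at h2
    exact hij (hw3 i hi j hj (hinj _ (hw2 i hi) _ (hw2 j hj) h2))

end Pool.UT
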