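import Pool.Agent.Lib.MP_9fc97b_ut.TE2

/-!
# UL, theorem T, row TE3: Claim C
-/

set_option autoImplicit false
set_option linter.unusedVariables false

open Set

namespace Pool.UT

open Pool.MP_3ade05_lc Pool.PC Pool.UL

variable {E : Set ZFSet.{0}} {lam th : ZFSet.{0}} {t : ℕ → ZFSet.{0}} {tF X e u d F : ZFSet.{0}}

/-- Row TE3: the value of `z`. -/
lemma TE3_val {m : ℕ} {a : ZFSet.{0}} (v : ZFSet.{0} → ZFSet.{0})
    (hv : ∀ i ∈ a, v i ∈ ZFSet.omega) (hne : ∃ i, i ∈ a) :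
    ∃ k : ℕ, (∃ i ∈ a, v i = num k) ∧ (∀ i ∈ a, num k ⊆ v i) ∧
      num m ∪ ZFSet.sep (fun j => ∀ i ∈ a, j ∈ v i) ZFSet.omega = num (max m k) := by
  classical
  have hex : ∃ k : ℕ, ∃ i ∈ a, v i = num k := by
    obtain ⟨i, hi⟩ := hne
    obtain ⟨k, hk⟩ := mem_omega.1 (hv i hi)
    exact ⟨k, i, hi, hk⟩
  obtain ⟨i₀, hi₀, hk₀⟩ := Nat.find_spec hex
  set k := Nat.find hex with hk
  have hmin : ∀ i ∈ a, num k ⊆ v i := by
    intro i hi
    obtain ⟨k', hk'⟩ := mem_omega.1 (hv i hi)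
    rw [hk']
    exact num_sub.2 (Nat.find_min' hex ⟨i, hi, hk'⟩)
  refine ⟨k, ⟨i₀, hi₀, hk₀⟩, hmin, ?_⟩
  have h1 : ZFSet.sep (fun j => ∀ i ∈ a, j ∈ v i) ZFSet.omega = num k := by
    ext j
    rw [ZFSet.mem_sep]
    constructor
    · rintro ⟨-, hj⟩
      rw [← hk₀]
      exact hj i₀ hi₀
    · intro hj
      refine ⟨?_, fun i hi => hmin i hi hj⟩
      have h2 : (ZFSet.omega : ZFSet.{0}).IsTransitive := by
        intro y hy x hx
        obtain ⟨n, rfl⟩ := mem_omega.1 hy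
        clear hy
        induction n with
        | zero => exact absurd hx (ZFSet.notMem_empty x)
        | succ n ih =>
          rcases ZFSet.mem_insert_iff.1 hx with h | h
          · rw [h]
            exact mem_omega.2 ⟨n, rfl⟩
          · exact ih h
      exact h2 _ (mem_omega.2 ⟨k, rfl⟩) hj
  rw [h1]
  rcases le_total m k with h | h
  · rw [max_eq_right h]
    ext j
    rw [ZFSet.mem_union]
    exact ⟨fun h' => h'.elim (fun h' => num_sub.2 h h') id, Or.inr⟩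
  · rw [max_eq_left h]
    ext j
    rw [ZFSet.mem_union]
    exact ⟨fun h' => h'.elim id (fun h' => num_sub.2 h h'), Or.inl⟩

/-- Row TE3: CLAIM C.  `z x` = the largest of `m` and `min_i w_i(x)`, where `t_l ⊆ t_m`, i.e.
`z x = num m ∪ {j ∈ ω | ∀ i ∈ t l, j ∈ w_i(x)}`.  `{z ≤ n}` is empty for `n < m` and contained in
the union over `i ∈ t_l` of `{w_i ≤ n}` for `n ≥ m`: `Cov.unionF` with `r = t_{n+1}`.  `z ≤ w_i`
modulo `u` as `w_i` is nonstandard. -/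
theorem claimC (C : BCtx E lam th t tF X e u d F) : ∃ z, OF E lam z ∧ Thin E lam tF z ∧
    ∀ z', OF E lam z' → Thin E lam tF z' → LeU lam u z z' := by
  have S := C.S
  haveI := S.tc
  obtain ⟨l, w, hw, hw1, hw2, hw3⟩ := exists_reps C
  haveI : InE E lam := ⟨S.lam_card.mem⟩
  haveI : InE E w := ⟨hw⟩
  haveI : InE E (t l) := ⟨S.t_E l⟩
  haveI : InE E (num l) := ⟨S.trans _ (omega_memE (E := E)) _ (mem_omega.2 ⟨l, rfl⟩)⟩
  have hval : ∀ x ∈ lam, ∃ k : ℕ, (∃ i ∈ t l, ap (ap w i) x = num k) ∧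
      (∀ i ∈ t l, num k ⊆ ap (ap w i) x) ∧
      num l ∪ ZFSet.sep (fun j => ∀ i ∈ t l, j ∈ ap (ap w i) x) ZFSet.omega = num (max l k) := by
    intro x hx
    refine TE3_val (fun i => ap (ap w i) x) (fun i hi => (hw2 i hi).1.val x hx) ?_
    obtain ⟨y, hy, -⟩ := S.t_two l
    exact ⟨y, hy⟩
  set z : ZFSet.{0} := mkF (fun x => num l ∪ ZFSet.sep (fun j => ∀ i ∈ t l, j ∈ ap (ap w i) x)
    ZFSet.omega) lam with hz
  have hzE : z ∈ E := mem_of (E := E) (mkF (fun x => num l ∪ ZFSet.sep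
    (fun j => ∀ i ∈ t l, j ∈ ap (ap w i) x) ZFSet.omega) lam)
  have hzx : ∀ x ∈ lam, ∃ k : ℕ, (∃ i ∈ t l, ap (ap w i) x = num k) ∧
      (∀ i ∈ t l, num k ⊆ ap (ap w i) x) ∧ ap z x = num (max l k) := by
    intro x hx
    obtain ⟨k, h1, h2, h3⟩ := hval x hx
    exact ⟨k, h1, h2, by rw [hz, ap_mkF hx]; exact h3⟩
  refine ⟨z, ⟨hzE, FunOn_mkF _ _, ?_⟩, ?_, ?_⟩
  · intro x hx
    obtain ⟨k, -, -, h3⟩ := hzx x hx
    rw [h3]
    exact mem_omega.2 ⟨_, rfl⟩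
  · intro n hn
    haveI : InE E n := ⟨S.trans _ (omega_memE (E := E)) _ hn⟩
    haveI : InE E z := ⟨hzE⟩
    obtain ⟨n', rfl⟩ := mem_omega.1 hn
    rw [S.tS_num]
    by_cases hln : l ≤ n'
    · refine Cov.unionF (r := t (n' + 1)) (s := t l) (S.t_E _) (S.t_E _)
        (mem_of (E := E) (ZFSet.sep (fun x => ap z x ⊆ num n') lam)) (S.PA _)
        (Cov.of_sub (S.t_E _) (S.t_sub (by omega)))
        (fun i => ZFSet.sep (fun x => ap (ap w i) x ⊆ num n') lam) (hC := by infer_instance) ?_ ?_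
      · intro i hi
        have h := (hw2 i hi).2 (num n') hn
        rwa [S.tS_num] at h
      · intro x hx
        obtain ⟨hx, hxn⟩ := ZFSet.mem_sep.1 hx
        obtain ⟨k, ⟨i, hi, hik⟩, -, h3⟩ := hzx x hx
        rw [h3] at hxn
        refine ⟨i, hi, ZFSet.mem_sep.2 ⟨hx, ?_⟩⟩
        rw [hik]
        exact num_sub.2 ((le_max_right _ _).trans (num_sub.1 hxn))
    · refine Cov.of_sub (S.t_E _) ?_
      intro x hx
      obtain ⟨hx, hxn⟩ := ZFSet.mem_sep.1 hx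
      obtain ⟨k, -, -, h3⟩ := hzx x hx
      rw [h3] at hxn
      exact absurd ((le_max_left _ _).trans (num_sub.1 hxn)) hln
  · intro z' hz' hT'
    obtain ⟨i, hi, hEq⟩ := hw3 z' hz' hT'
    have hns := Thin.ns S C.uf (hw2 i hi).1 (hw2 i hi).2 (num l) (mem_omega.2 ⟨l, rfl⟩)
    have h1 := C.uf.inter _ hEq _ hns
    haveI : InE E z := ⟨hzE⟩
    haveI : InE E z' := ⟨hz'.mem⟩
    refine C.uf.up _ h1 _ (mem_of (E := E) (ZFSet.sep (fun x => ap z x ⊆ ap z' x) lam))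
      (fun x hx => (ZFSet.mem_sep.1 hx).1) ?_
    intro x hx
    obtain ⟨hx1, hx2⟩ := ZFSet.mem_inter.1 hx
    obtain ⟨hxl, hx1⟩ := ZFSet.mem_sep.1 hx1
    obtain ⟨-, hx2⟩ := ZFSet.mem_sep.1 hx2
    refine ZFSet.mem_sep.2 ⟨hxl, ?_⟩
    obtain ⟨k, -, h2, h3⟩ := hzx x hxl
    rw [h3, hx1]
    obtain ⟨k', hk'⟩ := mem_omega.1 ((hw2 i hi).1.val x hxl)
    rw [hk'] at hx2 ⊢
    have h4 := h2 i hi
    rw [hk'] at h4
    exact num_sub.2 (max_le (num_sub.1 hx2) (num_sub.1 h4))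

end Pool.UT
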