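import Pool.Agent.Lib.MP_9fc97b_ut.TC4

/-!
# UL, theorem T, row TE4: a function injective on the fibres
-/

set_option autoImplicit false
set_option linter.unusedVariables false

open Set

namespace Pool.UT

open Pool.MP_3ade05_lc Pool.PC Pool.UL

variable {E : Set ZFSet.{0}} {lam th : ZFSet.{0}} {t : ℕ → ZFSet.{0}} {tF X e u d F : ZFSet.{0}}

/-- Row TE4: a function `φ` with `φ x ∈ t_{z(x)+1}` which is injective on the fibres of the thin
function `z`: with surjections `s_n : t_{n+1} → {z ≤ n}` (`choose_fun` with `a = ω`, `b = pw E (prd lam lam)`,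
`R n s := FunOn s (tS tF n) ∧ ∀ y ∈ {z ≤ n}, ∃ x ∈ tS tF n, pair x y ∈ s`), and again by
`choose_fun` (`a = b = lam`) `φ x = j ∈ t_{z(x)+1}` with `s_{z(x)}(j) = x`. -/
theorem exists_phi (S : Setting E lam th t tF X e) {z : ZFSet.{0}} (hz : OF E lam z)
    (ht : Thin E lam tF z) : ∃ φ ∈ E, FunOn φ lam ∧ (∀ x ∈ lam, ap φ x ∈ tS tF (ap z x)) ∧
      ∀ x ∈ lam, ∀ y ∈ lam, ap z x = ap z y → ap φ x = ap φ y → x = y := by
  haveI := S.tc
  haveI : InE E lam := ⟨S.lam_card.mem⟩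
  haveI : InE E z := ⟨hz.mem⟩
  haveI : InE E tF := ⟨S.tF_mem⟩
  have hsub : ∀ n ∈ ZFSet.omega, tS tF n ⊆ lam := by
    intro n hn
    obtain ⟨m, rfl⟩ := (mem_omega).1 hn
    rw [S.tS_num]
    exact S.t_sub_lam _
  have hsE : ∀ n ∈ ZFSet.omega, tS tF n ∈ E := by
    intro n hn
    obtain ⟨m, rfl⟩ := (mem_omega).1 hn
    rw [S.tS_num]
    exact S.t_E _
  obtain ⟨G, hG, hG1, hG2⟩ := choose_fun (E := E) (fun n s => FunOn s (tS tF n) ∧
      ∀ y ∈ ZFSet.sep (fun x => ap z x ⊆ n) lam, ∃ x ∈ tS tF n, ZFSet.pair x y ∈ s)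
      (hR := by infer_instance)
      (a := ZFSet.omega) (b := pw E (prd lam lam)) (omega_memE (E := E))
      (mem_of (E := E) (pw E (prd lam lam))) (by
    intro n hn
    haveI : InE E n := ⟨S.trans _ (omega_memE (E := E)) _ hn⟩
    by_cases hne : ∃ y, y ∈ ZFSet.sep (fun x => ap z x ⊆ n) lam
    · obtain ⟨f, hf, hf1, hf2, hf3⟩ := Cov.onto (hsE n hn)
        (mem_of (E := E) (ZFSet.sep (fun x => ap z x ⊆ n) lam)) hne (ht n hn)
      refine ⟨f, mem_pw.2 ⟨hf, ?_⟩, hf1, ?_⟩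
      · intro w hw
        obtain ⟨x, hx, y, rfl⟩ := hf1.1 w hw
        refine pair_mem_prd.2 ⟨hsub n hn hx, ?_⟩
        rw [← (FunOn.ap_eq hf1 hx).1 hw]
        exact (ZFSet.mem_sep.1 (hf2 x hx)).1
      · intro y hy
        obtain ⟨x, hx, hxy⟩ := hf3 y hy
        exact ⟨x, hx, (FunOn.ap_eq hf1 hx).2 hxy⟩
    · refine ⟨mkF (fun x => x) (tS tF n), mem_pw.2 ⟨?_, ?_⟩, FunOn_mkF _ _, ?_⟩
      · exact mem_of (E := E) (mkF (fun x => x) (tS tF n))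
      · intro w hw
        obtain ⟨x, hx, rfl⟩ := mem_mkF.1 hw
        exact pair_mem_prd.2 ⟨hsub n hn hx, hsub n hn hx⟩
      · intro y hy
        exact absurd ⟨y, hy⟩ hne)
  haveI : InE E G := ⟨hG⟩
  obtain ⟨φ, hφ, hφ1, hφ2⟩ := choose_fun (E := E) (fun x j => j ∈ tS tF (ap z x) ∧
      ZFSet.pair j x ∈ ap G (ap z x)) (hR := by infer_instance) S.lam_card.mem S.lam_card.mem (by
    intro x hx
    have hn := hz.val x hx
    obtain ⟨-, h1, h2⟩ := hG2 _ hn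
    obtain ⟨j, hj, hjx⟩ := h2 x (ZFSet.mem_sep.2 ⟨hx, fun _ h => h⟩)
    exact ⟨j, hsub _ hn hj, hj, hjx⟩)
  refine ⟨φ, hφ, hφ1, fun x hx => (hφ2 x hx).2.1, fun x hx y hy hxy hφxy => ?_⟩
  obtain ⟨-, h1, h2⟩ := hφ2 x hx
  obtain ⟨-, h3, h4⟩ := hφ2 y hy
  have hn := hz.val x hx
  obtain ⟨-, h5, -⟩ := hG2 _ hn
  rw [← hxy, ← hφxy] at h4
  exact (h5.2 _ h1).unique h2 h4

end Pool.UT
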