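import Pool.Agent.Lib.MP_9fc97b_ut.TE3
import Pool.Agent.Lib.MP_9fc97b_ut.TE4
import Pool.Agent.Lib.MP_9fc97b_ut.TD7

/-!
# UL, theorem T, row TE5: Claim D
-/

set_option autoImplicit false
set_option linter.unusedVariables false

open Set

namespace Pool.UT

open Pool.MP_3ade05_lc Pool.PC Pool.UL

variable {E : Set ZFSet.{0}} {lam th : ZFSet.{0}} {t : ℕ → ZFSet.{0}} {tF X e u d F : ZFSet.{0}}

lemma TE5_mem_num {n : ℕ} {x : ZFSet.{0}} : x ∈ num n ↔ ∃ j < n, x = num j := by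
  induction n with
  | zero =>
    constructor
    · intro h
      exact absurd h (ZFSet.notMem_empty x)
    · rintro ⟨j, hj, _⟩
      exact absurd hj (Nat.not_lt_zero j)
  | succ n ih =>
    show x ∈ insert (num n) (num n) ↔ _
    rw [ZFSet.mem_insert_iff, ih]
    constructor
    · rintro (rfl | ⟨j, hj, rfl⟩)
      · exact ⟨n, Nat.lt_succ_self n, rfl⟩
      · exact ⟨j, Nat.lt_succ_of_lt hj, rfl⟩
    · rintro ⟨j, hj, rfl⟩
      rcases Nat.lt_succ_iff_lt_or_eq.1 hj with h | rfl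
      · exact Or.inr ⟨j, h, rfl⟩
      · exact Or.inl rfl

/-- Row TE5: CLAIM D and the theorem: no base of size `< th`.  `z` from `claimC`, `φ` from
`exists_phi`, `lemma1` gives `B ∈ u` and `k` (wlog `k ≥ 1`) with `φ[{x ∈ B | z x = n}]` covered by
`t_n`, so `{x ∈ B | z x = n}` is covered by `t_n` for `n ≥ k`.  Let `z'(x)` = the predecessor of
`z x` for `x ∈ B`, `k ⊆ z x`, and `z0 x` otherwise.  `{z' ≤ n}` is contained in the union of
`{z_0 ≤ n}` and of the `{x ∈ B | z x = j}`, `k ≤ j ≤ n + 1`: so `z'` is thin, but `z' < z` modulo `u`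
(`z` is nonstandard), a contradiction to `LeU lam u z z'`. -/
theorem no_base (S : Setting E lam th t tF X e) (hu : UnifUF E lam u) (hd : d ∈ th) :
    ¬ HasBase E u d := by
  rintro ⟨F, hF, hFf, hFu, hFb⟩
  haveI := S.tc
  have hTr : ∀ x ∈ E, ∀ y ∈ x, y ∈ E := S.trans
  have hlE : lam ∈ E := S.lam_card.mem
  haveI : InE E lam := ⟨hlE⟩
  have C : BCtx E lam th t tF X e u d F := by
    refine ⟨S, hu, hd, hF, hFf, fun i hi => hFu i hi _ (FunOn.ap_mem hFf hi), fun A hA => ?_⟩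
    obtain ⟨x, hx, B, hxB, hBA⟩ := hFb A hA
    refine ⟨x, hx, ?_⟩
    rw [(FunOn.ap_eq hFf hx).1 hxB]
    exact hBA
  obtain ⟨z, hz, hzt, hmin⟩ := claimC C
  obtain ⟨φ, hφ, hφf, hφv, hφi⟩ := exists_phi S hz hzt
  obtain ⟨B, hB, k₀, hk₀, hcov⟩ := lemma1 C hz hφ hφf hφv
  obtain ⟨k, rfl⟩ := mem_omega.1 hk₀
  have hBE : B ∈ E := hTr u hu.mem B hB
  have hBl : B ⊆ lam := hu.sub B hB
  haveI : InE E B := ⟨hBE⟩
  haveI : InE E z := ⟨hz.mem⟩
  haveI : InE E φ := ⟨hφ⟩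
  have hnum : ∀ n, num n ∈ E := fun n => hTr _ omega_memE _ (mem_omega.2 ⟨n, rfl⟩)
  -- the fibres
  have hfib : ∀ n : ℕ, k ≤ n → Cov E (t n) (ZFSet.sep (fun x => ap z x = num n) B) := by
    intro n hn
    haveI : InE E (num n) := ⟨hnum n⟩
    have h1 := hcov (num n) (mem_omega.2 ⟨n, rfl⟩) (num_sub.2 hn)
    rw [S.tt_num] at h1
    set G := ZFSet.sep (fun x => ap z x = num n) B with hG
    have hGE : G ∈ E := mem_of (E := E) (ZFSet.sep (fun x => ap z x = num n) B)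
    haveI : InE E G := ⟨hGE⟩
    have himE : im φ G ∈ E := mem_of (E := E) (im φ G)
    haveI : InE E (im φ G) := ⟨himE⟩
    refine Cov.comp (S.t_E n) himE h1 ⟨mkF (fun j => ZFSet.sUnion
      (ZFSet.sep (fun x => ap φ x = j) G)) (im φ G), mem_of (E := E) (mkF (fun j => ZFSet.sUnion
      (ZFSet.sep (fun x => ap φ x = j) G)) (im φ G)), FunOn_mkF _ _, fun y hy => ?_⟩
    have hyG := hy
    rw [hG, ZFSet.mem_sep] at hyG
    have hyl : y ∈ lam := hBl hyG.1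
    refine ⟨ap φ y, mem_im.2 ⟨y, hy, FunOn.ap_mem hφf hyl⟩, pair_mem_mkF.2
      ⟨mem_im.2 ⟨y, hy, FunOn.ap_mem hφf hyl⟩, ?_⟩⟩
    have h2 : ZFSet.sep (fun x => ap φ x = ap φ y) G = {y} := by
      ext x
      rw [ZFSet.mem_sep, ZFSet.mem_singleton]
      constructor
      · rintro ⟨hx, hxy⟩
        rw [hG, ZFSet.mem_sep] at hx
        exact hφi x (hBl hx.1) y hyl (hx.2.trans hyG.2.symm) hxy
      · rintro rfl
        exact ⟨hy, rfl⟩
    rw [h2, ZFSet.sUnion_singleton]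
  -- the smaller function
  haveI : InE E (num (k + 1)) := ⟨hnum _⟩
  haveI : InE E (num k) := ⟨hnum _⟩
  haveI : InE E tF := ⟨S.tF_mem⟩
  have hz0 := z0_OF S
  have hdf : Df E (fun v : Fin 2 → ZFSet.{0} => ((v 0 ∈ B ∧ num (k + 1) ⊆ ap z (v 0)) ∧
      ap z (v 0) = insert (v 1) (v 1)) ∨ (¬ (v 0 ∈ B ∧ num (k + 1) ⊆ ap z (v 0)) ∧
      v 1 = ap (z0 lam tF) (v 0))) := inferInstance
  obtain ⟨z', hz'E, hz'f, hz'⟩ := choose_fun (E := E) (fun x y =>
    ((x ∈ B ∧ num (k + 1) ⊆ ap z x) ∧ ap z x = insert y y) ∨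
      (¬ (x ∈ B ∧ num (k + 1) ⊆ ap z x) ∧ y = ap (z0 lam tF) x)) (hR := hdf) hlE
      (omega_memE (E := E)) (by
    intro x hx
    by_cases h : x ∈ B ∧ num (k + 1) ⊆ ap z x
    · obtain ⟨m, hm⟩ := mem_omega.1 (hz.val x hx)
      have h1 : k + 1 ≤ m := by
        have h2 := h.2
        rw [hm] at h2
        exact num_sub.1 h2
      obtain ⟨m', rfl⟩ : ∃ m', m = m' + 1 := ⟨m - 1, by omega⟩
      exact ⟨num m', mem_omega.2 ⟨m', rfl⟩, Or.inl ⟨h, hm⟩⟩
    · exact ⟨_, hz0.val x hx, Or.inr ⟨h, rfl⟩⟩)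
  haveI : InE E z' := ⟨hz'E⟩
  have hOF : OF E lam z' := ⟨hz'E, hz'f, fun x hx => (hz' x hx).1⟩
  -- it is thin
  have hthin : Thin E lam tF z' := by
    intro n hn
    obtain ⟨m, rfl⟩ := mem_omega.1 hn
    rw [S.tS_num]
    haveI : InE E (num m) := ⟨hnum m⟩
    set D := ZFSet.sep (fun x => ap z' x ⊆ num m ∧ x ∈ B ∧ num (k + 1) ⊆ ap z x) lam with hDdef
    have hDE : D ∈ E := mem_of (E := E)
      (ZFSet.sep (fun x => ap z' x ⊆ num m ∧ x ∈ B ∧ num (k + 1) ⊆ ap z x) lam)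
    have hr := S.t_E (m + 1)
    have hCdf : DfT E (fun v : Fin 1 → ZFSet.{0} =>
        ZFSet.sep (fun x => num (k + 1) ⊆ v 0 ∧ ap z x = v 0) B) := inferInstance
    have hD : Cov E (t (m + 1)) D := by
      refine Cov.unionF (s := num (m + 2)) hr (hnum _) hDE (S.PA (m + 1)) ?_
        (fun i => ZFSet.sep (fun x => num (k + 1) ⊆ i ∧ ap z x = i) B) (hC := hCdf) ?_ ?_
      · refine Cov.of_sub hr fun x hx => ?_
        have h1 : x ∈ ZFSet.omega := by
          have h2 : (num (m + 2)) ⊆ ZFSet.omega := by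
            intro w hw
            rw [TE5_mem_num] at hw
            obtain ⟨j, _, rfl⟩ := hw
            exact mem_omega.2 ⟨j, rfl⟩
          exact h2 hx
        exact S.t_sub (Nat.zero_le _) ((S.lam_card.ord.mem (S.t_lam 0)).subset_of_mem S.t_inf h1)
      · intro i hi
        rw [TE5_mem_num] at hi
        obtain ⟨j, hj, rfl⟩ := hi
        by_cases h : k + 1 ≤ j
        · exact (S.cov_le (by omega : j ≤ m + 1) (hfib j (by omega))).mono fun x hx => by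
            rw [ZFSet.mem_sep] at hx ⊢
            exact ⟨hx.1, hx.2.2⟩
        · refine Cov.of_sub hr fun x hx => ?_
          rw [ZFSet.mem_sep] at hx
          exact absurd (num_sub.1 hx.2.1) h
      · intro y hy
        rw [hDdef, ZFSet.mem_sep] at hy
        obtain ⟨hyl, hy1, hyB, hy2⟩ := hy
        rcases (hz' y hyl).2 with ⟨_, h3⟩ | ⟨h3, _⟩
        · obtain ⟨j, hj⟩ := mem_omega.1 (hz' y hyl).1
          rw [hj] at hy1 h3
          have h4 : j ≤ m := num_sub.1 hy1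
          refine ⟨num (j + 1), ?_, ?_⟩
          · rw [TE5_mem_num]
            exact ⟨j + 1, by omega, rfl⟩
          · rw [ZFSet.mem_sep]
            refine ⟨hyB, ?_, h3⟩
            rw [← h3.trans (num_succ j)]
            exact hy2
        · exact absurd ⟨hyB, hy2⟩ h3
    have h0 := z0_thin S (num m) (mem_omega.2 ⟨m, rfl⟩)
    rw [S.tS_num] at h0
    refine (Cov.union hr (S.PA (m + 1)) (S.t_two _) hD h0).mono fun x hx => ?_
    rw [ZFSet.mem_sep] at hx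
    rw [ZFSet.mem_union]
    by_cases h : x ∈ B ∧ num (k + 1) ⊆ ap z x
    · left
      rw [hDdef, ZFSet.mem_sep]
      exact ⟨hx.1, hx.2, h⟩
    · right
      rw [ZFSet.mem_sep]
      refine ⟨hx.1, ?_⟩
      rcases (hz' x hx.1).2 with ⟨h3, _⟩ | ⟨_, h3⟩
      · exact absurd h3 h
      · rw [← h3]
        exact hx.2
  -- the contradiction
  have h1 := hmin z' hOF hthin
  have h2 := Thin.ns S hu hz hzt (num (k + 1)) (mem_omega.2 ⟨k + 1, rfl⟩)
  obtain ⟨x, hx, hxl⟩ := uf_ex S hu (hu.inter _ (hu.inter _ h1 _ h2) _ hB)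
  rw [ZFSet.mem_inter, ZFSet.mem_inter, ZFSet.mem_sep, ZFSet.mem_sep] at hx
  obtain ⟨⟨⟨_, h3⟩, _, h4⟩, h5⟩ := hx
  rcases (hz' x hxl).2 with ⟨_, h6⟩ | ⟨h6, _⟩
  · have h7 : ap z' x ∈ ap z x := by
      rw [h6]
      exact ZFSet.mem_insert _ _
    exact ZFSet.mem_irrefl _ (h3 h7)
  · exact h6 ⟨h5, h4⟩

end Pool.UT
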