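import Pool.Agent.Lib.MP_9fc97b_ut.TD5
import Pool.Agent.Lib.MP_9fc97b_ut.TD6
import Pool.Agent.Lib.MP_9fc97b_ut.TE1

/-!
# UL, theorem T, row TE6: Claim B
-/

set_option autoImplicit false
set_option linter.unusedVariables false

open Set

namespace Pool.UT

open Pool.MP_3ade05_lc Pool.PC Pool.UL

variable {E : Set ZFSet.{0}} {lam th : ZFSet.{0}} {t : ℕ → ZFSet.{0}} {tF X e u d F : ZFSet.{0}}

/-- Row TE6: CLAIM B.  `k` from `fns_small n₀`, `l` from `exists_big k`.  For a family `w` on `t_l`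
let `W x = mkF (fun i => ap (ap w i) x) (t l)`, with values in `fns E (t l) ω`, covered by some
`t_m`; `claimA'` (for `mkF W lam`) and `Cov.onto` give `B ∈ u` and `s` on `t_{n₀}` with values in
`im (mkF W lam) B` and onto it; `p i = mkF (fun j => ap (ap s j) i) (t n₀)` belongs to
`fns E (t n₀) ω`; if `p i = p i'` then `w_i = w_{i'}` on `B`.
So `i ↦ p i` is injective and `t_l` is covered by `fns E (t n₀) ω`, hence by `t_k`. -/
theorem claimB (C : BCtx E lam th t tF X e u d F) : ∃ l : ℕ, ∀ w ∈ E, FunOn w (t l) →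
    (∀ i ∈ t l, OF E lam (ap w i)) → ∃ i ∈ t l, ∃ j ∈ t l, i ≠ j ∧ EqU lam u (ap w i) (ap w j) := by
  have S := C.S
  have hT := S.tc
  have hu := C.uf
  obtain ⟨n₀, h⟩ := lemma2 C
  obtain ⟨k, hk, hck⟩ := fns_small S n₀
  obtain ⟨l, hl, hcl⟩ := exists_big S k
  refine ⟨l, fun w hw hwf hwO => ?_⟩
  by_contra hcon
  push Not at hcon
  obtain ⟨m, hm, hcm⟩ := fns_small S l
  have hlE : lam ∈ E := S.lam_card.mem
  have i1 : InE E lam := ⟨hlE⟩
  have i2 : InE E w := ⟨hw⟩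
  have i3 : InE E (t l) := ⟨S.t_E l⟩
  have i4 : InE E (t n₀) := ⟨S.t_E n₀⟩
  have i5 : InE E (t k) := ⟨S.t_E k⟩
  have hTr : ∀ x ∈ E, ∀ y ∈ x, y ∈ E := S.trans
  set g : ZFSet.{0} := mkF (fun x => mkF (fun i => ap (ap w i) x) (t l)) lam with hg
  have hgE : g ∈ E := mem_of (E := E) (mkF (fun x => mkF (fun i => ap (ap w i) x) (t l)) lam)
  have i6 : InE E g := ⟨hgE⟩
  have hgf : FunOn g lam := FunOn_mkF _ _
  have hgx : ∀ x ∈ lam, ap g x = mkF (fun i => ap (ap w i) x) (t l) := fun x hx => by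
    rw [hg, ap_mkF hx]
  have hgxi : ∀ x ∈ lam, ∀ i ∈ t l, ap (ap g x) i = ap (ap w i) x := fun x hx i hi => by
    rw [hgx x hx, ap_mkF hi]
  have hgv : ∀ x ∈ lam, ap g x ∈ fns E (t l) ZFSet.omega := by
    intro x hx
    rw [mem_fns]
    refine ⟨ap_memE hgE (hTr _ hlE x hx), ?_, fun i hi => ?_⟩
    · rw [hgx x hx]
      exact FunOn_mkF _ _
    · rw [hgxi x hx i hi]
      exact (hwO i hi).val x hx
  obtain ⟨B, hB, hBc⟩ := claimA' C h m (by omega)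
    (mem_of (E := E) (fns E (t l) ZFSet.omega)) hcm hgE hgf hgv
  have hBl := hu.sub B hB
  have hBE : B ∈ E := hTr u hu.mem B hB
  have i7 : InE E B := ⟨hBE⟩
  have himE : im g B ∈ E := mem_of (E := E) (im g B)
  have hne : ∃ y, y ∈ im g B := by
    obtain ⟨x, hx, hxl⟩ := uf_ex S hu hB
    exact ⟨ap g x, mem_im.2 ⟨x, hx, FunOn.ap_mem hgf hxl⟩⟩
  obtain ⟨s, hsE, hsf, hsv, hso⟩ := Cov.onto (S.t_E n₀) himE hne hBc
  have i8 : InE E s := ⟨hsE⟩
  have hsv' : ∀ j ∈ t n₀, ∃ x ∈ B, ap s j = ap g x := by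
    intro j hj
    obtain ⟨x, hx, hxj⟩ := mem_im.1 (hsv j hj)
    exact ⟨x, hx, ((FunOn.ap_eq hgf (hBl hx)).1 hxj).symm⟩
  -- the functions p i
  set p : ZFSet.{0} → ZFSet.{0} := fun i => mkF (fun j => ap (ap s j) i) (t n₀) with hp
  have hpv : ∀ i ∈ t l, p i ∈ fns E (t n₀) ZFSet.omega := by
    intro i hi
    have i9 : InE E i := ⟨hTr _ (S.t_E l) i hi⟩
    rw [mem_fns]
    refine ⟨mem_of (E := E) (mkF (fun j => ap (ap s j) i) (t n₀)), FunOn_mkF _ _, fun j hj => ?_⟩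
    rw [hp]
    show ap (mkF (fun j => ap (ap s j) i) (t n₀)) j ∈ _
    rw [ap_mkF hj]
    obtain ⟨x, hx, hxj⟩ := hsv' j hj
    rw [hxj, hgxi x (hBl hx) i hi]
    exact (hwO i hi).val x (hBl hx)
  have hpi : ∀ i ∈ t l, ∀ i' ∈ t l, p i = p i' → i = i' := by
    intro i hi i' hi' he
    by_contra hne
    refine hcon i hi i' hi' hne ?_
    have i9 : InE E i := ⟨hTr _ (S.t_E l) i hi⟩
    have i10 : InE E i' := ⟨hTr _ (S.t_E l) i' hi'⟩
    have i11 : InE E (ap w i) := ⟨(hwO i hi).mem⟩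
    have i12 : InE E (ap w i') := ⟨(hwO i' hi').mem⟩
    refine hu.up B hB _ (mem_of (E := E) (ZFSet.sep (fun x => ap (ap w i) x = ap (ap w i') x) lam))
      (fun x hx => (ZFSet.mem_sep.1 hx).1) fun x hx => ?_
    rw [ZFSet.mem_sep]
    refine ⟨hBl hx, ?_⟩
    obtain ⟨j, hj, hjx⟩ := hso (ap g x) (mem_im.2 ⟨x, hx, FunOn.ap_mem hgf (hBl hx)⟩)
    have h1 : ap (p i) j = ap (p i') j := by rw [he]
    rw [hp] at h1
    replace h1 : ap (mkF (fun j => ap (ap s j) i) (t n₀)) j =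
      ap (mkF (fun j => ap (ap s j) i') (t n₀)) j := h1
    rw [ap_mkF hj, ap_mkF hj, hjx, hgxi x (hBl hx) i hi, hgxi x (hBl hx) i' hi'] at h1
    exact h1
  refine hcl ?_
  obtain ⟨f, hf, hff, hfo⟩ := hck
  have i13 : InE E f := ⟨hf⟩
  refine ⟨mkF (fun ξ => ZFSet.sUnion (ZFSet.sep (fun i => mkF (fun j => ap (ap s j) i) (t n₀) =
    ap f ξ) (t l))) (t k), mem_of (E := E) (mkF (fun ξ => ZFSet.sUnion (ZFSet.sep (fun i =>
    mkF (fun j => ap (ap s j) i) (t n₀) = ap f ξ) (t l))) (t k)), FunOn_mkF _ _, fun i hi => ?_⟩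
  obtain ⟨ξ, hξ, hξi⟩ := hfo (p i) (hpv i hi)
  have h1 := (FunOn.ap_eq hff hξ).1 hξi
  refine ⟨ξ, hξ, pair_mem_mkF.2 ⟨hξ, ?_⟩⟩
  have h2 : ZFSet.sep (fun i => mkF (fun j => ap (ap s j) i) (t n₀) = ap f ξ) (t l) = {i} := by
    ext i'
    rw [ZFSet.mem_sep, ZFSet.mem_singleton]
    constructor
    · rintro ⟨hi', he⟩
      exact hpi i' hi' i hi (he.trans h1)
    · rintro rfl
      exact ⟨hi, h1.symm⟩
  rw [h2, ZFSet.sUnion_singleton]

end Pool.UT
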