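import Pool.Agent.Lib.MP_9fc97b_ut.Ex
import Pool.Agent.Lib.MP_9fc97b_ut.TE5

/-!
# UL, theorem T, row TF3: Theorem T
-/

set_option autoImplicit false
set_option linter.unusedVariables false

open Set

namespace Pool.UT

open Pool.MP_3ade05_lc Pool.PC Pool.UL

variable {E : Set ZFSet.{0}} {lam th : ZFSet.{0}} {t : ℕ → ZFSet.{0}} {tF X e : ZFSet.{0}}

/-- Row TF3. -/
lemma T_strong (S : Setting E lam th t tF X e) : StrongLimit E lam := by
  refine ⟨S.lam_card, fun a ha => ?_⟩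
  obtain ⟨n, hn⟩ := S.t_union a ha
  obtain ⟨k, f, hf, h1, h2⟩ := S.SL n
  exact ⟨t k, S.t_lam k, f, hf, h1, fun y hy hya => h2 y hy fun x hx =>
    (Ex.t_ord S n).subset_of_mem hn (hya hx)⟩

/-- Row TF3. -/
lemma T_sing (S : Setting E lam th t tF X e) : Singular E lam := by
  refine ⟨S.lam_card, ZFSet.omega, ?_, tF, S.tF_mem, S.tF_fun, ?_, ?_⟩
  · exact (S.lam_card.ord.subset_of_mem (S.t_lam 0)) S.t_inf
  · intro x hx y hy
    obtain ⟨n, rfl⟩ := mem_omega.1 hx
    rw [(S.tF_fun.2 (num n) hx).unique hy (S.tF_eq n)]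
    exact S.t_lam n
  · intro z hz
    obtain ⟨n, hn⟩ := S.t_union z hz
    exact ⟨num n, mem_omega.2 ⟨n, rfl⟩, t n, S.tF_eq n, (Ex.t_ord S n).subset_of_mem hn⟩

/-- Row TF3: if there is a function on `d` whose range contains all subsets of `lam` then every
uniform ultrafilter has a base indexed by `d` (values outside `u` are replaced by `lam`). -/
lemma T_base (S : Setting E lam th t tF X e) {u d : ZFSet.{0}} (hu : UnifUF E lam u)
    (hd : d ∈ E) (h : PowLe E lam d) : HasBase E u d := by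
  haveI := Ex.tc S
  obtain ⟨f, hf, hfF, hfs⟩ := h
  haveI : InE E u := ⟨hu.mem⟩
  haveI : InE E d := ⟨hd⟩
  haveI : InE E f := ⟨hf⟩
  haveI : InE E lam := ⟨S.lam_card.mem⟩
  have hempty : (∅ : ZFSet.{0}) ∉ u := by
    intro h1
    obtain ⟨x, hx, _⟩ := hu.unif _ h1 ZFSet.omega
      ((S.lam_card.ord.subset_of_mem (S.t_lam 0)) S.t_inf) tF S.tF_mem S.tF_fun
    exact ZFSet.notMem_empty x hx
  have hlam : lam ∈ u := by
    rw [hu.ultra lam S.lam_card.mem (fun x hx => hx)]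
    have h1 : lam \ lam = ∅ := by
      ext x
      simp
    rw [h1]
    exact hempty
  refine ⟨mkF (fun x => ZFSet.sep (fun y => ap f x ∈ u → y ∈ ap f x) lam) d,
    mem_of (E := E) _, FunOn_mkF _ _, ?_, ?_⟩
  · intro x hx B hB
    obtain ⟨_, rfl⟩ := pair_mem_mkF.1 hB
    by_cases h1 : ap f x ∈ u
    · have h2 : ZFSet.sep (fun y => ap f x ∈ u → y ∈ ap f x) lam = ap f x := by
        ext y
        rw [ZFSet.mem_sep]
        exact ⟨fun h => h.2 h1, fun h => ⟨hu.sub _ h1 h, fun _ => h⟩⟩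
      rw [h2]
      exact h1
    · have h2 : ZFSet.sep (fun y => ap f x ∈ u → y ∈ ap f x) lam = lam := by
        ext y
        rw [ZFSet.mem_sep]
        exact ⟨fun h => h.1, fun h => ⟨h, fun h' => absurd h' h1⟩⟩
      rw [h2]
      exact hlam
  · intro B hB
    obtain ⟨x, hx, hxB⟩ := hfs B (S.trans _ hu.mem _ hB) (hu.sub B hB)
    have hB' : ap f x = B := (FunOn.ap_eq hfF hx).1 hxB
    refine ⟨x, hx, _, pair_mem_mkF.2 ⟨hx, rfl⟩, ?_⟩
    intro y hy
    have h1 := (ZFSet.mem_sep.1 hy).2 (by rw [hB']; exact hB)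
    rwa [hB'] at h1

/-- Row TF3: THEOREM T (`exists_uf`, `no_base`, `T_base`). -/
theorem T_main (S : Setting E lam th t tF X e) :
    StrongLimit E lam ∧ Singular E lam ∧ UNumIs E lam th ∧ PowIs E lam th := by
  obtain ⟨u, hu, hub⟩ := Ex.exists_uf S
  refine ⟨T_strong S, T_sing S, ⟨S.th_card, ⟨u, hu, hub⟩, fun d hd u' hu' =>
    no_base S hu' hd⟩, S.th_card, S.PK, fun d hd hP => ?_⟩
  exact no_base S hu hd (T_base S hu (S.trans _ S.th_card.mem _ hd) hP)

end Pool.UT
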